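import Pool.Agent.H37.TT.Cnt
import Mathlib

/-!
# Small divided differences give polynomial slopes

`dd`: the `(d + 2)`-point vector: the divided difference of order `d + 1` of the slopes, times the
smallest of the products. `con_d`: if it is small for the abstract times of one line, and two times
of a line are far apart, then the slopes are polynomials of degree `d` in the real time with
coefficients which are functions of the line.
-/

set_option autoImplicit false

namespace Pool.TT37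

open Finset Real
open Pool.Agent.H49.Ent Pool.Agent.H32.Dense Pool.STK
open Pool.BFL (Pb)
open Pool.SLO (tup)

/-- The products of the differences. -/
noncomputable def pj {ι : Type} [Fintype ι] [DecidableEq ι] (x : ι → ℝ) (j : ι) : ℝ :=
  ∏ k, if k = j then 1 else x j - x k

open Classical in
/-- **The `(d + 2)`-point vector**: `E (t 0) + ∑ λ_j E (t j)`, where `λ_j` is the quotient of the
products of the differences. It is zero if two of the times are equal or if one of the `λ_j` is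
larger than one. -/
noncomputable def dd {T : Type} {c k : ℕ} (d : ℕ) (tau : T → ℤ) (E : T → Fin k → Fin c → ℝ)
    (u : Fin k) (t : Fin (d + 2) → T) (i : Fin c) : ℝ :=
  if Function.Injective (fun j => tau (t j)) ∧
      ∀ j, |pj (fun j => (tau (t j) : ℝ)) 0| ≤ |pj (fun j => (tau (t j) : ℝ)) j| then
    ∑ j, pj (fun j => (tau (t j) : ℝ)) 0 / pj (fun j => (tau (t j) : ℝ)) j * E (t j) u i
  else 0

theorem pj_perm {ι : Type} [Fintype ι] [DecidableEq ι] (x : ι → ℝ) (σ : Equiv.Perm ι) (j : ι) :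
    pj (fun j => x (σ j)) j = pj x (σ j) := by
  unfold pj
  refine Eq.trans ?_ (Equiv.prod_comp σ (fun k => if k = σ j then (1 : ℝ) else x (σ j) - x k))
  refine Finset.prod_congr rfl fun k _ => ?_
  simp only [EmbeddingLike.apply_eq_iff_eq]

theorem pj_ge {ι : Type} [Fintype ι] [DecidableEq ι] (x : ι → ℝ) (j : ι) {a : ℝ} (ha : 0 ≤ a)
    (ha1 : a ≤ 1) (h : ∀ k, k ≠ j → a ≤ |x j - x k|) : a ^ Fintype.card ι ≤ |pj x j| := by
  unfold pj
  rw [Finset.abs_prod]
  calc a ^ Fintype.card ι = ∏ _k : ι, a := by rw [Finset.prod_const, Finset.card_univ]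
    _ ≤ ∏ k, |if k = j then 1 else x j - x k| := by
        refine Finset.prod_le_prod (fun _ _ => ha) fun k _ => ?_
        split_ifs with hk
        · rw [abs_one]
          exact ha1
        · exact h k hk

theorem pj_ne {ι : Type} [Fintype ι] [DecidableEq ι] (x : ι → ℝ) (hx : Function.Injective x)
    (j : ι) : pj x j ≠ 0 := by
  unfold pj
  rw [Finset.prod_ne_zero_iff]
  intro k _
  split_ifs with hk
  · exact one_ne_zero
  · exact sub_ne_zero.2 fun h => hk (hx h).symm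

theorem pj_le {ι : Type} [Fintype ι] [DecidableEq ι] (x : ι → ℝ) (j : ι)
    (h : ∀ k, k ≠ j → |x j - x k| ≤ 1) : |pj x j| ≤ 1 := by
  unfold pj
  rw [Finset.abs_prod]
  refine Finset.prod_le_one (fun _ _ => abs_nonneg _) fun k _ => ?_
  split_ifs with hk
  · rw [abs_one]
  · exact h k hk

/-- Scaling. -/
theorem pj_scale {ι : Type} [Fintype ι] [DecidableEq ι] (x : ι → ℝ) (j : ι) {a : ℝ}
    (ha : a ≠ 0) : pj x j = a ^ (Fintype.card ι - 1) * pj (fun k => x k / a) j := by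
  unfold pj
  have h1 : a ^ (Fintype.card ι - 1) = ∏ k : ι, if k = j then 1 else a := by
    rw [Finset.prod_ite, Finset.prod_const_one, one_mul, Finset.prod_const]
    congr 1
    rw [Finset.filter_ne', Finset.card_erase_of_mem (Finset.mem_univ j), Finset.card_univ]
  rw [h1, ← Finset.prod_mul_distrib]
  refine Finset.prod_congr rfl fun k _ => ?_
  split_ifs
  · rw [one_mul]
  · field_simp

/-- **The defect of the interpolation.** -/
theorem dd_def {T : Type} {c k : ℕ} {d : ℕ} (tau : T → ℤ) (E : T → Fin k → Fin c → ℝ)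
    (u : Fin k) (i : Fin c) (t : Fin (d + 2) → T) {e x s : ℝ} (hs : 0 < s) (hs1 : s ≤ 1)
    (hx : 0 < x) (h1 : ∀ j l, |(tau (t j) : ℝ) - tau (t l)| ≤ x)
    (hsep : ∀ j l, j ≠ l → s * x < |(tau (t j) : ℝ) - tau (t l)|)
    (hd : ∀ m, |dd d tau E u (fun j => t (Equiv.swap 0 m j)) i| ≤ e) :
    |∑ j, pj (fun j => (tau (t j) : ℝ) / x) 0 / pj (fun j => (tau (t j) : ℝ) / x) j *
      E (t j) u i| ≤ e / s ^ (d + 2) := by
  classical
  obtain ⟨y, hy⟩ : ∃ y : Fin (d + 2) → ℝ, y = fun j => (tau (t j) : ℝ) / x := ⟨_, rfl⟩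
  have hyv : ∀ j, y j = (tau (t j) : ℝ) / x := fun j => by rw [hy]
  have hyd : ∀ j l, |y j - y l| = |(tau (t j) : ℝ) - tau (t l)| / x := by
    intro j l
    rw [hyv, hyv, ← sub_div, abs_div, abs_of_pos hx]
  have hinj : Function.Injective (fun j => (tau (t j) : ℝ)) := by
    intro j l h
    by_contra hjl
    have h2 := hsep j l hjl
    have h3 : (tau (t j) : ℝ) - tau (t l) = 0 := sub_eq_zero.2 h
    rw [h3, abs_zero] at h2
    nlinarith [mul_pos hs hx]
  have hyinj : Function.Injective y := by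
    intro j l h
    refine hinj ?_
    rw [hyv, hyv, div_left_inj' hx.ne'] at h
    exact h
  obtain ⟨m, hm⟩ := Finite.exists_min (fun j => |pj (fun j => (tau (t j) : ℝ)) j|)
  have h2 := hd m
  -- the value
  have hval : dd d tau E u (fun j => t (Equiv.swap 0 m j)) i =
      ∑ j, pj (fun j => (tau (t j) : ℝ)) m / pj (fun j => (tau (t j) : ℝ)) j * E (t j) u i := by
    unfold dd
    have hp : ∀ j, pj (fun j => (tau (t (Equiv.swap 0 m j)) : ℝ)) j =
        pj (fun j => (tau (t j) : ℝ)) (Equiv.swap 0 m j) := fun j =>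
      pj_perm (fun j => (tau (t j) : ℝ)) (Equiv.swap 0 m) j
    rw [if_pos]
    · simp only [hp, Equiv.swap_apply_left]
      exact Equiv.sum_comp (Equiv.swap 0 m) (fun j =>
        pj (fun j => (tau (t j) : ℝ)) m / pj (fun j => (tau (t j) : ℝ)) j * E (t j) u i)
    · refine ⟨fun j l h => ?_, fun j => ?_⟩
      · have h' : (tau (t (Equiv.swap 0 m j)) : ℝ) = tau (t (Equiv.swap 0 m l)) := by
          exact_mod_cast h
        exact (Equiv.swap 0 m).injective
          (@hinj (Equiv.swap 0 m j) (Equiv.swap 0 m l) h')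
      · rw [hp, hp, Equiv.swap_apply_left]
        exact hm _
  rw [hval] at h2
  have hsc : ∀ j, pj (fun j => (tau (t j) : ℝ)) j = x ^ (Fintype.card (Fin (d + 2)) - 1) *
      pj y j := by
    intro j
    rw [hy]
    exact pj_scale _ j hx.ne'
  have hxp : x ^ (Fintype.card (Fin (d + 2)) - 1) ≠ 0 := pow_ne_zero _ hx.ne'
  have e1 : ∑ j, pj (fun j => (tau (t j) : ℝ)) m / pj (fun j => (tau (t j) : ℝ)) j *
      E (t j) u i = pj y m * ∑ j, E (t j) u i / pj y j := by
    rw [Finset.mul_sum]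
    refine Finset.sum_congr rfl fun j _ => ?_
    rw [hsc, hsc, mul_div_mul_left _ _ hxp]
    ring
  have e2 : ∑ j, pj (fun j => (tau (t j) : ℝ) / x) 0 / pj (fun j => (tau (t j) : ℝ) / x) j *
      E (t j) u i = pj y 0 * ∑ j, E (t j) u i / pj y j := by
    rw [Finset.mul_sum, ← hy]
    refine Finset.sum_congr rfl fun j _ => ?_
    ring
  rw [e1, abs_mul] at h2
  rw [e2, abs_mul]
  have g1 : |pj y 0| ≤ 1 := pj_le y 0 fun l _ => by
    rw [hyd, div_le_one hx]
    exact h1 0 l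
  have g2 : s ^ (d + 2) ≤ |pj y m| := by
    have := pj_ge y m hs.le hs1 fun l hl => by
      rw [hyd, le_div_iff₀ hx]
      exact (hsep m l hl.symm).le
    rwa [Fintype.card_fin] at this
  have g3 : 0 < s ^ (d + 2) := by positivity
  rw [le_div_iff₀ g3]
  have g4 : |∑ j, E (t j) u i / pj y j| * s ^ (d + 2) ≤ e := by
    refine le_trans ?_ h2
    rw [mul_comm]
    exact mul_le_mul_of_nonneg_right g2 (abs_nonneg _)
  calc |pj y 0| * |∑ j, E (t j) u i / pj y j| * s ^ (d + 2) ≤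
      1 * |∑ j, E (t j) u i / pj y j| * s ^ (d + 2) := by gcongr
    _ ≤ e := by
      rw [one_mul]
      exact g4

/-! ### The interpolating polynomial -/

section poly

open Polynomial

/-- The coefficients of a product. -/
theorem cf_mul {a b A : ℝ} {p : ℝ[X]} (hp : ∀ n, |p.coeff n| ≤ A) (n : ℕ) :
    |((C a * (X - C b)) * p).coeff n| ≤ |a| * (1 + |b|) * A := by
  have hA : 0 ≤ A := (abs_nonneg _).trans (hp 0)
  have e1 : (C a * (X - C b)) * p = C a * (X * p - C b * p) := by ring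
  rw [e1, coeff_C_mul, abs_mul, mul_assoc]
  refine mul_le_mul_of_nonneg_left ?_ (abs_nonneg _)
  rw [coeff_sub, coeff_C_mul]
  refine (abs_sub _ _).trans ?_
  rw [abs_mul]
  have h1 : |(X * p).coeff n| ≤ A := by
    rcases n with _ | n
    · rw [mul_coeff_zero, coeff_X_zero, zero_mul, abs_zero]
      exact hA
    · rw [coeff_X_mul]
      exact hp n
  have h2 : |b| * |p.coeff n| ≤ |b| * A := mul_le_mul_of_nonneg_left (hp n) (abs_nonneg _)
  linarith

/-- The Lagrange polynomial. -/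
noncomputable def lg {d : ℕ} (y : Fin (d + 1) → ℝ) (j : Fin (d + 1)) : ℝ[X] :=
  ∏ k, if k = j then 1 else C (y j - y k)⁻¹ * (X - C (y k))

theorem lg_deg {d : ℕ} (y : Fin (d + 1) → ℝ) (j : Fin (d + 1)) : (lg y j).natDegree ≤ d := by
  unfold lg
  refine (natDegree_prod_le _ _).trans ?_
  have h1 : ∀ k ∈ (Finset.univ : Finset (Fin (d + 1))),
      (if k = j then (1 : ℝ[X]) else C (y j - y k)⁻¹ * (X - C (y k))).natDegree ≤
        if k = j then 0 else 1 := by
    intro k _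
    split_ifs
    · simp
    · refine (natDegree_C_mul_le _ _).trans ?_
      rw [natDegree_X_sub_C]
  refine (Finset.sum_le_sum h1).trans (le_of_eq ?_)
  rw [Finset.sum_ite, Finset.sum_const_zero, zero_add, Finset.sum_const, Finset.filter_ne',
    Finset.card_erase_of_mem (Finset.mem_univ j), Finset.card_univ, Fintype.card_fin]
  simp

theorem lg_cf {d : ℕ} (y : Fin (d + 1) → ℝ) (j : Fin (d + 1)) {s : ℝ} (hs : 0 < s) (hs1 : s ≤ 1)
    (hy : ∀ k, |y k| ≤ 1) (hsep : ∀ k, k ≠ j → s ≤ |y j - y k|) (n : ℕ) :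
    |(lg y j).coeff n| ≤ (2 / s) ^ (d + 1) := by
  classical
  have h2 : 1 ≤ 2 / s := by
    rw [le_div_iff₀ hs]
    linarith
  unfold lg
  have key : ∀ (S : Finset (Fin (d + 1))) (n : ℕ),
      |(∏ k ∈ S, if k = j then (1 : ℝ[X]) else C (y j - y k)⁻¹ * (X - C (y k))).coeff n| ≤
        (2 / s) ^ S.card := by
    intro S
    induction S using Finset.induction_on with
    | empty =>
      intro n
      rw [Finset.prod_empty, Finset.card_empty, pow_zero, coeff_one]
      split_ifs <;> simp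
    | insert a S ha ih =>
      intro n
      rw [Finset.prod_insert ha, Finset.card_insert_of_notMem ha, pow_succ']
      split_ifs with haj
      · rw [one_mul]
        refine (ih n).trans ?_
        have : 0 ≤ (2 / s) ^ S.card := by positivity
        nlinarith
      · refine (cf_mul ih n).trans ?_
        refine mul_le_mul_of_nonneg_right ?_ (by positivity)
        have h3 := hsep a haj
        have h4 : 0 < |y j - y a| := hs.trans_le h3
        rw [abs_inv]
        calc |y j - y a|⁻¹ * (1 + |y a|) ≤ s⁻¹ * 2 := by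
              refine mul_le_mul (inv_anti₀ hs h3) ?_ (by positivity) (by positivity)
              linarith [hy a]
          _ = 2 / s := by ring
  have := key Finset.univ n
  rwa [Finset.card_univ, Fintype.card_fin] at this

theorem lg_eval {d : ℕ} (y : Fin (d + 1) → ℝ) (j : Fin (d + 1)) (x : ℝ) :
    (lg y j).eval x = ∏ k, if k = j then 1 else (y j - y k)⁻¹ * (x - y k) := by
  unfold lg
  rw [eval_prod]
  refine Finset.prod_congr rfl fun k _ => ?_
  split_ifs
  · simp
  · simp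

/-- The ratios are the values of the Lagrange polynomials. -/
theorem lam_lg {d : ℕ} (x : Fin (d + 2) → ℝ) (hx : Function.Injective x) (j : Fin (d + 1)) :
    pj x 0 / pj x j.succ = -(lg (fun k => x k.succ) j).eval (x 0) := by
  classical
  rw [lg_eval]
  have e1 : pj x 0 = ∏ k : Fin (d + 1), (x 0 - x k.succ) := by
    unfold pj
    rw [Fin.prod_univ_succ, if_pos rfl, one_mul]
    refine Finset.prod_congr rfl fun k _ => ?_
    rw [if_neg (Fin.succ_ne_zero k)]
  have e2 : pj x j.succ = (x j.succ - x 0) * ∏ k : Fin (d + 1),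
      if k = j then 1 else x j.succ - x k.succ := by
    unfold pj
    rw [Fin.prod_univ_succ, if_neg (Fin.succ_ne_zero j).symm]
    congr 1
    refine Finset.prod_congr rfl fun k _ => ?_
    simp only [Fin.succ_inj]
  have e3 : ∏ k : Fin (d + 1), (x 0 - x k.succ) = (x 0 - x j.succ) *
      ∏ k : Fin (d + 1), if k = j then 1 else x 0 - x k.succ := by
    rw [← Finset.mul_prod_erase _ _ (Finset.mem_univ j)]
    congr 1
    rw [← Finset.mul_prod_erase _ (fun k => if k = j then (1 : ℝ) else x 0 - x k.succ)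
      (Finset.mem_univ j), if_pos rfl, one_mul]
    refine Finset.prod_congr rfl fun k hk => ?_
    rw [if_neg (Finset.ne_of_mem_erase hk)]
  have h0 : x j.succ - x 0 ≠ 0 := sub_ne_zero.2 fun h => absurd (hx h) (Fin.succ_ne_zero j)
  have h1 : x 0 - x j.succ = -(x j.succ - x 0) := by ring
  have e4 : (∏ k : Fin (d + 1), if k = j then (1 : ℝ) else
      (x j.succ - x k.succ)⁻¹ * (x 0 - x k.succ)) =
      (∏ k : Fin (d + 1), if k = j then (1 : ℝ) else x 0 - x k.succ) /
        ∏ k : Fin (d + 1), if k = j then (1 : ℝ) else x j.succ - x k.succ := by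
    rw [← Finset.prod_div_distrib]
    refine Finset.prod_congr rfl fun k _ => ?_
    split_ifs
    · rw [div_one]
    · rw [div_eq_inv_mul]
  rw [e4, e1, e2, e3, h1, mul_div_mul_comm]
  rw [neg_div, div_self h0]
  ring

/-- The interpolating polynomial. -/
noncomputable def ip {d : ℕ} (y : Fin (d + 1) → ℝ) (v : Fin (d + 1) → ℝ) : ℝ[X] :=
  ∑ j, C (v j) * lg y j

theorem ip_deg {d : ℕ} (y v : Fin (d + 1) → ℝ) : (ip y v).natDegree ≤ d := by
  unfold ip
  refine natDegree_sum_le_of_forall_le _ _ fun j _ => ?_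
  exact (natDegree_C_mul_le _ _).trans (lg_deg y j)

theorem ip_cf {d : ℕ} (y v : Fin (d + 1) → ℝ) {s A : ℝ} (hs : 0 < s) (hs1 : s ≤ 1)
    (hy : ∀ k, |y k| ≤ 1) (hsep : ∀ j k, k ≠ j → s ≤ |y j - y k|) (hv : ∀ j, |v j| ≤ A) (n : ℕ) :
    |(ip y v).coeff n| ≤ (d + 1) * (A * (2 / s) ^ (d + 1)) := by
  unfold ip
  rw [finsetSum_coeff]
  refine (Finset.abs_sum_le_sum_abs _ _).trans ?_
  have h1 : ∀ j ∈ (Finset.univ : Finset (Fin (d + 1))), |(C (v j) * lg y j).coeff n| ≤
      A * (2 / s) ^ (d + 1) := by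
    intro j _
    rw [coeff_C_mul, abs_mul]
    exact mul_le_mul (hv j) (lg_cf y j hs hs1 hy (hsep j) n) (abs_nonneg _)
      ((abs_nonneg _).trans (hv j))
  refine (Finset.sum_le_sum h1).trans (le_of_eq ?_)
  rw [Finset.sum_const, Finset.card_univ, Fintype.card_fin, nsmul_eq_mul]
  push_cast
  ring

theorem ip_eval {d : ℕ} (x : Fin (d + 2) → ℝ) (hx : Function.Injective x) (v : Fin (d + 2) → ℝ) :
    v 0 - (ip (fun k => x k.succ) (fun k => v k.succ)).eval (x 0) =
      ∑ j, pj x 0 / pj x j * v j := by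
  rw [Fin.sum_univ_succ, div_self (pj_ne x hx 0), one_mul]
  unfold ip
  rw [eval_finsetSum, sub_eq_add_neg, ← Finset.sum_neg_distrib]
  congr 1
  refine Finset.sum_congr rfl fun j _ => ?_
  rw [lam_lg x hx j, eval_mul, eval_C]
  ring

end poly

/-- The union bound. -/
theorem pb_union {Ω ι : Type} [Fintype Ω] [Fintype ι] {q : Ω → ℝ} (h0 : ∀ ω, 0 ≤ q ω)
    (B : ι → Ω → Prop) : Pb q (fun ω => ∃ i, B i ω) ≤ ∑ i, Pb q (B i) := by
  classical
  unfold Pb
  rw [Finset.sum_comm]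
  refine Finset.sum_le_sum fun w _ => ?_
  have h1 : ∀ i, 0 ≤ (if B i w then q w else 0) := fun i => by
    split_ifs
    · exact h0 w
    · exact le_rfl
  by_cases h : ∃ i, B i w
  · rw [if_pos h]
    obtain ⟨i, hi⟩ := h
    refine le_trans ?_ (Finset.single_le_sum (fun i _ => h1 i) (Finset.mem_univ i))
    rw [if_pos hi]
  · rw [if_neg h]
    exact Finset.sum_nonneg fun i _ => h1 i

open Classical in
/-- The interpolating polynomial, if the nodes are far apart. -/
noncomputable def ips {d : ℕ} (s : ℝ) (y v : Fin (d + 1) → ℝ) : Polynomial ℝ :=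
  if (∀ j k, k ≠ j → s ≤ |y j - y k|) ∧ ∀ k, |y k| ≤ 1 then ip y v else 0

theorem ips_deg {d : ℕ} (s : ℝ) (y v : Fin (d + 1) → ℝ) : (ips s y v).natDegree ≤ d := by
  unfold ips
  split_ifs
  · exact ip_deg y v
  · simp

theorem ips_cf {d : ℕ} (y v : Fin (d + 1) → ℝ) {s A : ℝ} (hs : 0 < s) (hs1 : s ≤ 1)
    (hv : ∀ j, |v j| ≤ A) (n : ℕ) :
    |(ips s y v).coeff n| ≤ (d + 1) * (A * (2 / s) ^ (d + 1)) := by
  have hA : 0 ≤ A := (abs_nonneg _).trans (hv 0)
  unfold ips
  split_ifs with h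
  · exact ip_cf y v hs hs1 h.2 h.1 hv n
  · rw [Polynomial.coeff_zero, abs_zero]
    positivity

/-- **Small divided differences give polynomial slopes.** -/
theorem con_d {Ω Λ T : Type} [Fintype Ω] {p : Ω → ℝ} (hl : IsLaw p) (L : Ω → Λ) (th : Ω → T)
    (tau : T → ℤ) {c k X : ℕ} (d : ℕ) (E : T → Fin k → Fin c → ℝ) {C s e δ₁ δ₂ : ℝ} (hs : 0 < s)
    (hs1 : s ≤ 1) (ht : ∀ ω, 0 ≤ tau (th ω) ∧ tau (th ω) < 2 ^ X)
    (hE : ∀ ω u i, |E (th ω) u i| ≤ C)
    (h3 : Pb (tup p L (d + 2)) (fun w => ∃ u i,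
      e < |dd d tau E u (fun j => th (w j.succ)) i|) ≤ δ₁)
    (hTM : Pb (tup p L 1) (fun w =>
      |((tau (th (w 0)) - tau (th (w 1)) : ℤ) : ℝ)| ≤ s * 2 ^ X) ≤ δ₂) :
    ∃ ep : Λ → Fin (d + 1) → Fin k → Fin c → ℝ,
      (∀ z n u i, |ep z n u i| ≤ (d + 1) * (C * (2 / s) ^ (d + 1))) ∧
      Pb p (fun ω => ¬ ∀ u i, |E (th ω) u i -
        ∑ n, ep (L ω) n u i * ((tau (th ω) : ℝ) / 2 ^ X) ^ (n : ℕ)| ≤ e / s ^ (d + 2)) ≤
        (d + 2) * δ₁ + (d + 2) ^ 2 * δ₂ := by
  classical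
  have h0 := hl.nonneg
  have hX : (0 : ℝ) < 2 ^ X := by positivity
  have q0 := Pool.SLO.tup_isLaw hl L (d + 1)
  have hδ₂ : 0 ≤ δ₂ := (pb_nonneg (Pool.SLO.tup_isLaw hl L 1).nonneg _).trans hTM
  -- the bad events
  obtain ⟨B1, hB1⟩ : ∃ B1 : Fin (d + 2) → (Fin (d + 2) → Ω) → Prop, B1 = fun m v => ∃ u i,
    e < |dd d tau E u (fun j => th (v (Equiv.swap 0 m j))) i| := ⟨_, rfl⟩
  obtain ⟨B2, hB2⟩ : ∃ B2 : Fin (d + 2) × Fin (d + 2) → (Fin (d + 2) → Ω) → Prop,
    B2 = fun m v => m.1 ≠ m.2 ∧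
      |((tau (th (v m.1)) - tau (th (v m.2)) : ℤ) : ℝ)| ≤ s * 2 ^ X := ⟨_, rfl⟩
  have b1 : ∀ m, Pb (tup p L (d + 1)) (B1 m) ≤ δ₁ := by
    intro m
    have m1 := Pool.LBL.pmarg (Pool.SLO.tup_sub h0 L (M := d + 1) (N := d + 2)
      (fun j => (Equiv.swap 0 m j).succ)
      (fun a b h => (Equiv.swap 0 m).injective (Fin.succ_injective _ h))) (B1 m)
    rw [← m1]
    refine le_trans (le_of_eq ?_) h3
    congr 1
    funext w
    rw [hB1]
    simp only [Function.comp, Equiv.swap_apply_self]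
  have b2 : ∀ m, Pb (tup p L (d + 1)) (B2 m) ≤ δ₂ := by
    intro m
    by_cases hm : m.1 = m.2
    · refine le_trans (le_of_eq ?_) hδ₂
      unfold Pb
      refine Finset.sum_eq_zero fun v _ => if_neg ?_
      rw [hB2]
      exact fun h => h.1 hm
    · have hinj : Function.Injective (![m.1, m.2] : Fin 2 → Fin (d + 2)) := by
        intro a b h
        fin_cases a <;> fin_cases b
        · rfl
        · exact absurd h hm
        · exact absurd h.symm hm
        · rfl
      have m2 := Pool.LBL.pmarg (Pool.SLO.tup_sub h0 L (M := 1) (N := d + 1) ![m.1, m.2] hinj)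
        (fun w => |((tau (th (w 0)) - tau (th (w 1)) : ℤ) : ℝ)| ≤ s * 2 ^ X)
      refine le_trans (pb_mono q0.nonneg fun v _ hv => ?_) (m2.le.trans hTM)
      rw [hB2] at hv
      exact hv.2
  -- the good event
  obtain ⟨Φ, hΦ⟩ : ∃ Φ : (Fin (d + 2) → Ω) → Prop, Φ = fun v =>
    (∀ m, ¬ B1 m v) ∧ ∀ m, ¬ B2 m v := ⟨_, rfl⟩
  have b4 : Pb (tup p L (d + 1)) (fun v => ¬ Φ v) ≤ (d + 2) * δ₁ + (d + 2) ^ 2 * δ₂ := by
    have k1 := pb_union q0.nonneg B1
    have k2 := pb_union q0.nonneg B2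
    have k3 : ∑ m, Pb (tup p L (d + 1)) (B1 m) ≤ (d + 2) * δ₁ := by
      refine (Finset.sum_le_sum fun m _ => b1 m).trans (le_of_eq ?_)
      rw [Finset.sum_const, Finset.card_univ, Fintype.card_fin, nsmul_eq_mul]
      push_cast
      ring
    have k4 : ∑ m, Pb (tup p L (d + 1)) (B2 m) ≤ (d + 2) ^ 2 * δ₂ := by
      refine (Finset.sum_le_sum fun m _ => b2 m).trans (le_of_eq ?_)
      rw [Finset.sum_const, Finset.card_univ, Fintype.card_prod, Fintype.card_fin, nsmul_eq_mul]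
      push_cast
      ring
    refine (pb_or q0.nonneg (A := fun v => ∃ m, B1 m v) (B := fun v => ∃ m, B2 m v)
      fun v _ hv => ?_).trans (by linarith)
    rw [hΦ] at hv
    by_contra hcon
    push Not at hcon
    exact hv ⟨hcon.1, hcon.2⟩
  obtain ⟨f, hf1, hf2⟩ := Pool.LBL.tup_fix hl L (d + 1) Φ
  obtain ⟨ω₀, hω₀⟩ : ∃ ω, 0 < p ω := by
    by_contra hcon
    push Not at hcon
    have h2 := hl.sum_one
    have h3 : ∑ ω, p ω ≤ 0 := Finset.sum_nonpos fun ω _ => hcon ω
    linarith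
  have hC : ∀ z j u i, |E (th (f z j)) u i| ≤ C := fun z j u i => hE _ u i
  refine ⟨fun z n u i => (ips s (fun j => (tau (th (f z j)) : ℝ) / 2 ^ X)
    (fun j => E (th (f z j)) u i)).coeff n, fun z n u i => ips_cf _ _ hs hs1
      (fun j => hC z j u i) n, ?_⟩
  have c1 := pb_compl q0 Φ
  have c2 := pb_compl hl (fun ω => Φ (Fin.cons ω (f (L ω))))
  have c3 : Pb p (fun ω => ¬ Φ (Fin.cons ω (f (L ω)))) ≤ (d + 2) * δ₁ + (d + 2) ^ 2 * δ₂ := by
    linarith
  refine (pb_mono h0 (B := fun ω => ¬ Φ (Fin.cons ω (f (L ω))))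
    fun ω _ hω hgood => hω fun u i => ?_).trans c3
  rw [hΦ] at hgood
  obtain ⟨g1, g2⟩ := hgood
  obtain ⟨v, hv⟩ : ∃ v : Fin (d + 2) → Ω, v = Fin.cons ω (f (L ω)) := ⟨_, rfl⟩
  have hg1 : ∀ m, ¬ B1 m v := by
    rw [hv]
    exact g1
  have hg2 : ∀ m, ¬ B2 m v := by
    rw [hv]
    exact g2
  have v0 : v 0 = ω := by rw [hv]; rfl
  have vs : ∀ j : Fin (d + 1), v j.succ = f (L ω) j := fun j => by rw [hv]; rfl
  have hrange : ∀ ω, 0 ≤ (tau (th ω) : ℝ) ∧ (tau (th ω) : ℝ) ≤ 2 ^ X := fun ω =>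
    ⟨by exact_mod_cast (ht ω).1, by exact_mod_cast (ht ω).2.le⟩
  have hle : ∀ j l, |(tau (th (v j)) : ℝ) - tau (th (v l))| ≤ 2 ^ X := by
    intro j l
    have a1 := hrange (v j)
    have a2 := hrange (v l)
    rw [abs_le]
    constructor <;> linarith [a1.1, a1.2, a2.1, a2.2]
  have hsep : ∀ j l, j ≠ l → s * 2 ^ X < |(tau (th (v j)) : ℝ) - tau (th (v l))| := by
    intro j l hjl
    have := hg2 (j, l)
    rw [hB2] at this
    push Not at this
    have h5 := this hjl
    push_cast at h5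
    exact h5
  have hdd : ∀ m, |dd d tau E u (fun j => th (v (Equiv.swap 0 m j))) i| ≤ e := by
    intro m
    have := hg1 m
    rw [hB1] at this
    push Not at this
    exact this u i
  have key := dd_def tau E u i (fun j => th (v j)) hs hs1 hX hle hsep hdd
  obtain ⟨x, hx⟩ : ∃ x : Fin (d + 2) → ℝ, x = fun j => (tau (th (v j)) : ℝ) / 2 ^ X := ⟨_, rfl⟩
  have hxv : ∀ j, x j = (tau (th (v j)) : ℝ) / 2 ^ X := fun j => by rw [hx]
  have hxd : ∀ j l, j ≠ l → s ≤ |x j - x l| := by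
    intro j l hjl
    rw [hxv, hxv, ← sub_div, abs_div, abs_of_pos hX, le_div_iff₀ hX]
    exact (hsep j l hjl).le
  have hxinj : Function.Injective x := by
    intro j l h
    by_contra hjl
    have h5 := hxd j l hjl
    rw [h, sub_self, abs_zero] at h5
    linarith
  have e1 := ip_eval x hxinj (fun j => E (th (v j)) u i)
  rw [← hx] at key
  rw [← e1] at key
  have e2 : ips s (fun j => (tau (th (f (L ω) j)) : ℝ) / 2 ^ X)
      (fun j => E (th (f (L ω) j)) u i) =
      ip (fun k => x k.succ) (fun k => E (th (v k.succ)) u i) := by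
    have e3 : (fun j => (tau (th (f (L ω) j)) : ℝ) / 2 ^ X) = fun k => x k.succ := by
      funext j
      rw [hxv, vs]
    have e4 : (fun j => E (th (f (L ω) j)) u i) = fun k => E (th (v k.succ)) u i := by
      funext j
      rw [vs]
    rw [e3, e4]
    unfold ips
    rw [if_pos]
    refine ⟨fun j l hjl => hxd _ _ fun h => hjl (Fin.succ_injective _ h.symm), fun l => ?_⟩
    beta_reduce
    rw [hxv, abs_div, abs_of_pos hX, div_le_one hX, abs_of_nonneg (hrange _).1]
    exact (hrange _).2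
  have e5 : ∑ n : Fin (d + 1), (ips s (fun j => (tau (th (f (L ω) j)) : ℝ) / 2 ^ X)
      (fun j => E (th (f (L ω) j)) u i)).coeff n * ((tau (th ω) : ℝ) / 2 ^ X) ^ (n : ℕ) =
      (ip (fun k => x k.succ) (fun k => E (th (v k.succ)) u i)).eval (x 0) := by
    rw [e2, Polynomial.eval_eq_sum_range' (lt_of_le_of_lt (ip_deg _ _) (Nat.lt_succ_self d)),
      Finset.sum_range, hxv 0, v0]
  beta_reduce
  rw [e5]
  have e6 : E (th (v 0)) u i = E (th ω) u i := by rw [v0]
  rw [← e6]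
  exact key

/-- The same, the coefficients are functions of a variable which determines the line. -/
theorem con_d' {Ω Λ Λ' T : Type} [Fintype Ω] {p : Ω → ℝ} (hl : IsLaw p) (L : Ω → Λ) (L' : Ω → Λ')
    (hL : ∀ ω ω', L' ω = L' ω' → L ω = L ω') (th : Ω → T)
    (tau : T → ℤ) {c k X : ℕ} (d : ℕ) (E : T → Fin k → Fin c → ℝ) {C s e δ₁ δ₂ : ℝ} (hC : 0 ≤ C)
    (hs : 0 < s) (hs1 : s ≤ 1) (ht : ∀ ω, 0 ≤ tau (th ω) ∧ tau (th ω) < 2 ^ X)
    (hE : ∀ ω u i, |E (th ω) u i| ≤ C)
    (h3 : Pb (tup p L (d + 2)) (fun w => ∃ u i,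
      e < |dd d tau E u (fun j => th (w j.succ)) i|) ≤ δ₁)
    (hTM : Pb (tup p L 1) (fun w =>
      |((tau (th (w 0)) - tau (th (w 1)) : ℤ) : ℝ)| ≤ s * 2 ^ X) ≤ δ₂) :
    ∃ ep : Λ' → Fin (d + 1) → Fin c → Fin k → ℝ,
      (∀ z n i u, |ep z n i u| ≤ (d + 1) * (C * (2 / s) ^ (d + 1))) ∧
      Pb p (fun ω => ¬ ∀ i u, |E (th ω) u i -
        ∑ n, ep (L' ω) n i u * ((tau (th ω) : ℝ) / 2 ^ X) ^ (n : ℕ)| ≤ e / s ^ (d + 2)) ≤
        (d + 2) * δ₁ + (d + 2) ^ 2 * δ₂ := by
  classical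
  obtain ⟨ep, hb, hP⟩ := con_d hl L th tau d E hs hs1 ht hE h3 hTM
  obtain ⟨f, hf⟩ : ∃ f : Λ' → Option Ω, ∀ x, (∀ ω, L' ω = x → ∃ ω', f x = some ω' ∧ L' ω' = x) := by
    refine ⟨fun x => if h : ∃ ω, L' ω = x then some h.choose else none, fun x ω hω => ?_⟩
    have h : ∃ ω, L' ω = x := ⟨ω, hω⟩
    exact ⟨h.choose, dif_pos h, h.choose_spec⟩
  obtain ⟨F, hF⟩ : ∃ F : Λ' → Fin (d + 1) → Fin c → Fin k → ℝ, F = fun x n i u =>
    match f x with
    | some ω => ep (L ω) n u i
    | none => 0 := ⟨_, rfl⟩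
  refine ⟨F, fun x n i u => ?_, le_trans (pb_mono hl.nonneg (B := fun ω => ¬ ∀ u i, |E (th ω) u i -
        ∑ n, ep (L ω) n u i * ((tau (th ω) : ℝ) / 2 ^ X) ^ (n : ℕ)| ≤ e / s ^ (d + 2))
        fun ω _ h1 h4 => h1 fun i u => ?_) hP⟩
  · rw [hF]
    beta_reduce
    cases f x with
    | none =>
      simp only [abs_zero]
      positivity
    | some ω => exact hb _ n u i
  · obtain ⟨ω', h5, h6⟩ := hf _ ω rfl
    have h8 : L ω' = L ω := hL ω' ω h6
    have e5 : ∀ n, F (L' ω) n i u = ep (L ω) n u i := by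
      intro n
      rw [hF]
      beta_reduce
      rw [h5, ← h8]
    simp only [e5]
    exact h4 u i

end Pool.TT37
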