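import Pool.Agent.H37.TT.Fld

/-!
# Fullness along a combination of directions

`cmb_full`: `x` is full along the unit vectors `u k`, then along `sum c k u k`, up to the logarithms
of the coefficients. (LEMMA SUM of `H5/FAD`.)
-/

set_option autoImplicit false

namespace Pool.TT37

open Finset Real Matrix
open Pool.Agent.H49.Ent Pool.Agent.H32.Dense Pool.STK Pool.FAD
open Pool.BFL (Pb)

variable {Ω ζ : Type} [Fintype Ω] {q : Ω → ℝ} {m : ℕ}

/-- The real vector of an integer vector. -/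
noncomputable def rl (X : ℕ) (x : Fin (m + 1) → ℤ) (i : Fin (m + 1)) : ℝ := (x i : ℝ) / 2 ^ X

theorem fl_rl (X : ℕ) (x : Fin (m + 1) → ℤ) : fl X (rl X x) = x := by
  funext i
  unfold fl rd rl
  beta_reduce
  rw [mul_div_cancel₀ _ (by positivity : (2 : ℝ) ^ X ≠ 0), Int.floor_intCast]

theorem mul_rl (A : Matrix (Fin (m + 1)) (Fin (m + 1)) ℝ) (X : ℕ) (x : Fin (m + 1) → ℤ)
    (i : Fin (m + 1)) : (A *ᵥ rl X x) i = (A *ᵥ fun j => (x j : ℝ)) i * ((2 : ℝ) ^ X)⁻¹ := by
  unfold Matrix.mulVec dotProduct rl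
  rw [Finset.sum_mul]
  refine Finset.sum_congr rfl fun j _ => ?_
  rw [div_eq_mul_inv]
  ring

/-- **Combinations of directions.** -/
theorem cmb_full (hq : IsLaw q) {X N : ℕ} {K b e : ℝ} (hK : 1 ≤ K) (x : Ω → Fin (m + 1) → ℤ)
    (hx : ∀ ω, 0 < q ω → ∀ i, |(x ω i : ℝ)| ≤ K * 2 ^ X) (Z : Ω → ζ)
    (u : Fin (N + 1) → Ω → Fin (m + 1) → ℝ) (iu : Fin (N + 1) → Ω → Fin (m + 1))
    (hu1 : ∀ k ω, |u k ω (iu k ω)| = 1) (hu2 : ∀ k ω i, |u k ω i| ≤ 1)
    (hud : ∀ k, Det q Z (u k)) (hid : ∀ k, Det q Z (iu k))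
    (l : Ω → Fin (m + 1) → ℝ) (il : Ω → Fin (m + 1)) (hl1 : ∀ ω, 1 ≤ 2 * |l ω (il ω)|)
    (hl2 : ∀ ω i, |l ω i| ≤ 2) (hld : Det q Z l) (hild : Det q Z il)
    (c : Fin (N + 1) → Ω → ℝ) (hc : ∀ k ω, |c k ω| ≤ b) (hb : 4 * ((m : ℝ) + 1) ≤ b)
    (hl : ∀ ω i, l ω i = ∑ k, c k ω * u k ω i)
    (he : ∀ k, X * Real.log 2 - e ≤
      CH q x (fun ω => (prd (iu k ω) (u k ω) (x ω), Z ω))) :
    X * Real.log 2 - ((N + 1) * (e + (m + 1) * Real.log (4 * K + 3)) +
      CF (m + 1) 2 (b + b) N + Real.log 2) ≤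
      CH q x (fun ω => (cl (slab X {0} (Pm (il ω) (l ω))) (rl X (x ω)), Z ω)) := by
  classical
  have h0 := hq.nonneg
  have hX : (0 : ℝ) < 2 ^ X := by positivity
  have un : ∀ k ω, u k ω (iu k ω) ≠ 0 := fun k ω h => by
    have := hu1 k ω
    rw [h, abs_zero] at this
    exact zero_ne_one this
  have ln : ∀ ω, l ω (il ω) ≠ 0 := fun ω h => by
    have := hl1 ω
    rw [h, abs_zero] at this
    linarith
  have hb0 : 0 ≤ b := by
    have : (0 : ℝ) ≤ m := Nat.cast_nonneg _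
    linarith
  have key := full_span (n := m + 1) h0 hq.sum_one (K := X) (N := N)
    (fun k ω => Pm (iu k ω) (u k ω)) (fun k ω i j => if i = 0 ∧ j = 0 then c k ω else 0)
    (fun _ => {0}) (fun ω => Pm (il ω) (l ω)) {0} (fun ω => rl X (x ω)) Z
    (fun k ω => prd (iu k ω) (u k ω) (x ω)) (fun _ => e) ?_ ?_ (fun ω => Pm_det_ne (ln ω))
    (fun k ω => Pm_det_ne (un k ω)) (c := 2) (b := b) (a := 2 * K) (by norm_num) hb0 ?_ ?_ ?_ ?_ ?_
    ?_
  · have e1 : ∀ ω, (fl X (rl X (x ω))) = x ω := fun ω => fl_rl X (x ω)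
    simp only [e1] at key
    refine le_trans ?_ key
    have e2 : -Real.log 2 ≤ Ex q (fun ω => lv (Pm (il ω) (l ω))) := by
      have : Ex q (fun _ => -Real.log 2) ≤ Ex q (fun ω => lv (Pm (il ω) (l ω))) := by
        refine Ex_mono h0 fun ω _ => ?_
        unfold lv
        rw [Pm_det, ← Real.log_inv]
        refine Real.log_le_log (by norm_num) ?_
        have := hl1 ω
        linarith
      rwa [Ex_const hq.sum_one] at this
    have e3 : ∑ _k : Fin (N + 1), e = (N + 1) * e := by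
      rw [Finset.sum_const, Finset.card_univ, Fintype.card_fin, nsmul_eq_mul]
      push_cast
      ring
    have e4 : 2 * (2 * K + 1) + 1 = 4 * K + 3 := by ring
    rw [e3, e4, Finset.card_singleton]
    push_cast
    linarith
  · intro ω ω' hω hω' h
    show Pm (il ω) (l ω) = Pm (il ω') (l ω')
    rw [hld ω ω' hω hω' h, hild ω ω' hω hω' h]
  · intro k ω ω' hω hω' h
    show Pm (iu k ω) (u k ω) = Pm (iu k ω') (u k ω')
    rw [hud k ω ω' hω hω' h, hid k ω ω' hω hω' h]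
  · intro k ω i
    rw [Pm_inv (un k ω)]
    have := Pv_row (i0 := iu k ω) (u := u k ω) (b := 1) (fun j => by
      rw [hu1, inv_one, mul_one]
      exact hu2 k ω j) (by rw [hu1, inv_one]) i
    linarith
  · intro ω i
    rw [Pm_inv (un 0 ω)]
    have r1 := Pv_row (i0 := iu 0 ω) (u := u 0 ω) (b := 1) (fun j => by
      rw [hu1, inv_one, mul_one]
      exact hu2 0 ω j) (by rw [hu1, inv_one]) i
    have r2 : ∀ j, |(Pv (iu 0 ω) (u 0 ω) * Pm (il ω) (l ω)) i j| ≤
        ∑ k, |Pv (iu 0 ω) (u 0 ω) i k| * 2 := by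
      intro j
      rw [Matrix.mul_apply]
      refine (Finset.abs_sum_le_sum_abs _ _).trans (Finset.sum_le_sum fun k _ => ?_)
      rw [abs_mul]
      exact mul_le_mul_of_nonneg_left (Pm_abs _ (by norm_num) (hl2 ω) _ _) (abs_nonneg _)
    refine (Finset.sum_le_sum fun j _ => r2 j).trans ?_
    rw [Finset.sum_const, Finset.card_univ, Fintype.card_fin, nsmul_eq_mul, ← Finset.sum_mul]
    push_cast
    have hm : (0 : ℝ) ≤ m := Nat.cast_nonneg _
    nlinarith
  · intro k ω i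
    have r1 : ∀ j : Fin (m + 1), |(if i = 0 ∧ j = 0 then c k ω else 0 : ℝ)| ≤
        if j = 0 then b else 0 := by
      intro j
      by_cases hj : j = 0
      · rw [if_pos hj]
        split_ifs
        · exact hc k ω
        · rw [abs_zero]
          exact hb0
      · rw [if_neg (fun h => hj h.2), if_neg hj, abs_zero]
    have r3 : ∑ j : Fin (m + 1), (if j = 0 then b else 0) = b := by
      rw [Finset.sum_ite_eq' Finset.univ (0 : Fin (m + 1)) (fun _ => b),
        if_pos (Finset.mem_univ _)]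
    rw [← r3]
    exact Finset.sum_le_sum fun j _ => r1 j
  · intro ω i j hj
    rw [Finset.mem_singleton.1 hj, Pm_zero, hl]
    refine Finset.sum_congr rfl fun k _ => ?_
    rw [Finset.sum_singleton, Pm_zero, if_pos ⟨rfl, rfl⟩, mul_comm]
  · intro k ω ω' hω hω' h1 h2 i
    rw [Pm_inv (un k ω), mul_rl, mul_rl, ← sub_mul, abs_mul, abs_of_pos (inv_pos.2 hX)]
    have eu : u k ω = u k ω' := hud k ω ω' hω hω' h2
    have ei : iu k ω = iu k ω' := hid k ω ω' hω hω' h2
    by_cases hi : i = 0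
    · rw [if_pos (Finset.mem_singleton.2 hi), Pv_mul, Pv_mul, if_pos hi, if_pos hi, ← mul_sub,
        abs_mul, abs_inv, hu1, inv_one, one_mul, mul_one]
      have a1 := hx ω hω (iu k ω)
      have a2 := hx ω' hω' (iu k ω)
      have a3 : |(x ω (iu k ω) : ℝ) - x ω' (iu k ω)| ≤ 2 * K * 2 ^ X := by
        rw [abs_le] at a1 a2 ⊢
        constructor <;> linarith [a1.1, a1.2, a2.1, a2.2]
      calc |(x ω (iu k ω) : ℝ) - x ω' (iu k ω)| * ((2 : ℝ) ^ X)⁻¹ ≤
          2 * K * 2 ^ X * ((2 : ℝ) ^ X)⁻¹ :=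
            mul_le_mul_of_nonneg_right a3 (inv_nonneg.2 hX.le)
        _ = 2 * K := by
            rw [mul_assoc, mul_inv_cancel₀ hX.ne', mul_one]
    · rw [if_neg (fun h => hi (Finset.mem_singleton.1 h))]
      refine mul_le_mul_of_nonneg_right ?_ (inv_nonneg.2 hX.le)
      have h3 := congrFun h1 i
      simp only [prd] at h3
      rw [if_neg hi, if_neg hi, ← eu, ← ei] at h3
      obtain ⟨A, hA⟩ : ∃ A, A = (Pv (iu k ω) (u k ω) *ᵥ fun j => (x ω j : ℝ)) i := ⟨_, rfl⟩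
      obtain ⟨A', hA'⟩ : ∃ A, A = (Pv (iu k ω) (u k ω) *ᵥ fun j => (x ω' j : ℝ)) i := ⟨_, rfl⟩
      rw [← hA, ← hA'] at h3 ⊢
      have f1 := Int.floor_le A
      have f2 := Int.lt_floor_add_one A
      have f3 := Int.floor_le A'
      have f4 := Int.lt_floor_add_one A'
      rw [h3] at f1 f2
      rw [abs_le]
      constructor <;> linarith
  · intro k
    have e1 : ∀ ω, (fl X (rl X (x ω))) = x ω := fun ω => fl_rl X (x ω)
    simp only [e1]
    have e2 : Ex q (fun ω => lv (Pm (iu k ω) (u k ω))) = 0 := by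
      have : (fun ω => lv (Pm (iu k ω) (u k ω))) = fun _ => (0 : ℝ) := by
        funext ω
        unfold lv
        rw [Pm_det, hu1, Real.log_one]
      rw [this, Ex_const hq.sum_one]
    rw [e2, Finset.card_singleton]
    push_cast
    have := he k
    linarith

end Pool.TT37
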