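import Pool.Agent.H37.TT.Cop
import Pool.Agent.H37.TT.Cmb

/-!
# Absorption along a closed direction

`abs_line`: `a`, `b` are the target at the times `T`, `t` of a line, `d` its velocity, `W` the context
with `T`. If `a` is almost independent of `d`, and the direction `lam` is a combination of the
differences of the velocities of coupled copies, then `a` is full along `lam`.
-/

set_option autoImplicit false

namespace Pool.TT37

open Finset Real Matrix
open Pool.Agent.H49.Ent Pool.Agent.H32.Dense Pool.STK Pool.FAD Pool.POT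
open Pool.BFL (Pb)
open Pool.SLO (tup tup_nonneg tup_pos_iff tup_isLaw)

variable {Ω ζ : Type} [Fintype Ω] {q : Ω → ℝ} {m : ℕ}

/-- **Comparison of the cells** modulo two near directions. -/
theorem cell_cmp (hq : IsLaw q) {X : ℕ} {K E : ℝ} (hK : 1 ≤ K) (hE : 0 ≤ E)
    (x : Ω → Fin (m + 1) → ℤ) (hx : ∀ ω, 0 < q ω → ∀ i, |(x ω i : ℝ)| ≤ K * 2 ^ X) (Z : Ω → ζ)
    (G : Ω → Prop) (hG : Det q Z G)
    (l : Ω → Fin (m + 1) → ℝ) (il : Ω → Fin (m + 1)) (hl1 : ∀ ω, 1 ≤ 2 * |l ω (il ω)|)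
    (hld : Det q Z l) (hild : Det q Z il)
    (la : Ω → Fin (m + 1) → ℝ) (ia : Ω → Fin (m + 1)) (ha1 : ∀ ω, |la ω (ia ω)| = 1)
    (ha2 : ∀ ω i, |la ω i| ≤ 1) (had : Det q Z la) (haid : Det q Z ia)
    (hla : ∀ ω, G ω → il ω = ia ω ∧ ∀ i, |la ω i - l ω i| ≤ E / 2 ^ X) :
    CH q (fun ω => prd (ia ω) (la ω) (x ω))
      (fun ω => (cl (slab X {0} (Pm (il ω) (l ω))) (rl X (x ω)), Z ω)) ≤
      (m + 1) * (Real.log (16 * E * K + 7) +
        Pb q (fun ω => ¬ G ω) * Real.log (8 * (K * 2 ^ X) + 5)) := by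
  classical
  have h0 := hq.nonneg
  have hX : (0 : ℝ) < 2 ^ X := by positivity
  have hKX : 0 ≤ K * 2 ^ X := by positivity
  have ln : ∀ ω, l ω (il ω) ≠ 0 := fun ω h => by
    have := hl1 ω
    rw [h, abs_zero] at this
    linarith
  have sz : ∀ ω, 0 < q ω → ∀ i, |(prd (ia ω) (la ω) (x ω) i : ℝ)| ≤ 2 * (K * 2 ^ X) + 1 := by
    intro ω hω i
    have := prd_size (b := 1) (i0 := ia ω) (u := la ω) (fun j => by
      rw [ha1, inv_one, mul_one]
      exact ha2 ω j) (by rw [ha1, inv_one]) (hx ω hω) i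
    linarith
  have hEK : 0 ≤ 8 * E * K + 3 := by positivity
  have k1 := CH_le_vec h0 hq.sum_one (fun ω => prd (ia ω) (la ω) (x ω))
    (fun ω => (cl (slab X {0} (Pm (il ω) (l ω))) (rl X (x ω)), Z ω))
    (fun ω => if G ω then 8 * E * K + 3 else 4 * (K * 2 ^ X) + 2) (by
      intro ω ω' hω hω' h i
      simp only [Prod.mk.injEq] at h
      have eG : G ω = G ω' := hG ω ω' hω hω' h.2
      have ela : la ω = la ω' := had ω ω' hω hω' h.2
      have eia : ia ω = ia ω' := haid ω ω' hω hω' h.2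
      have el : l ω = l ω' := hld ω ω' hω hω' h.2
      have eil : il ω = il ω' := hild ω ω' hω hω' h.2
      push_cast
      by_cases hg : G ω
      · rw [if_pos hg]
        unfold prd
        by_cases hi : i = 0
        · rw [if_pos hi, if_pos hi]
          simpa using hEK
        rw [if_neg hi, if_neg hi, ← ela, ← eia]
        have h1 := congrFun h.1 i
        rw [← el, ← eil] at h1
        have cle : ∀ y : Fin (m + 1) → ℤ,
            cl (slab X {0} (Pm (il ω) (l ω))) (rl X y) i =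
              ⌊(Pv (il ω) (l ω) *ᵥ fun j => (y j : ℝ)) i⌋ := by
          intro y
          unfold cl
          rw [inv_slab, Pm_inv (ln ω), ← Matrix.mulVec_mulVec, Matrix.mulVec_diagonal,
            if_neg (fun h => hi (Finset.mem_singleton.1 h)), inv_inv, mul_rl]
          congr 1
          rw [mul_comm, mul_assoc, inv_mul_cancel₀ hX.ne', mul_one]
        rw [cle, cle] at h1
        obtain ⟨e1, e2⟩ := hla ω hg
        rw [e1] at h1
        obtain ⟨j, hj⟩ : ∃ j, j = Equiv.swap 0 (ia ω) i := ⟨_, rfl⟩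
        have f1 := Int.floor_le ((Pv (ia ω) (l ω) *ᵥ fun j => (x ω j : ℝ)) i)
        have f2 := Int.lt_floor_add_one ((Pv (ia ω) (l ω) *ᵥ fun j => (x ω j : ℝ)) i)
        have f3 := Int.floor_le ((Pv (ia ω) (l ω) *ᵥ fun j => (x ω' j : ℝ)) i)
        have f4 := Int.lt_floor_add_one ((Pv (ia ω) (l ω) *ᵥ fun j => (x ω' j : ℝ)) i)
        rw [h1] at f1 f2
        have g1 := Int.floor_le ((Pv (ia ω) (la ω) *ᵥ fun j => (x ω j : ℝ)) i)
        have g2 := Int.lt_floor_add_one ((Pv (ia ω) (la ω) *ᵥ fun j => (x ω j : ℝ)) i)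
        have g3 := Int.floor_le ((Pv (ia ω) (la ω) *ᵥ fun j => (x ω' j : ℝ)) i)
        have g4 := Int.lt_floor_add_one ((Pv (ia ω) (la ω) *ᵥ fun j => (x ω' j : ℝ)) i)
        -- the two coordinates
        have dif : ∀ y : Fin (m + 1) → ℤ, (∀ i, |(y i : ℝ)| ≤ K * 2 ^ X) →
            |(Pv (ia ω) (la ω) *ᵥ fun j => (y j : ℝ)) i -
              (Pv (ia ω) (l ω) *ᵥ fun j => (y j : ℝ)) i| ≤ 4 * E * K := by
          intro y hy
          rw [Pv_mul, Pv_mul, if_neg hi, if_neg hi, ← hj]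
          obtain ⟨A, hA⟩ : ∃ A, A = la ω (ia ω) := ⟨_, rfl⟩
          obtain ⟨L, hL⟩ : ∃ L, L = l ω (ia ω) := ⟨_, rfl⟩
          have hA1 : |A| = 1 := by
            rw [hA]
            exact ha1 ω
          have hL1 : 1 ≤ 2 * |L| := by
            rw [hL, ← e1]
            exact hl1 ω
          have hA0 : A ≠ 0 := fun h => by
            rw [h, abs_zero] at hA1
            exact zero_ne_one hA1
          have hL0 : L ≠ 0 := fun h => by
            rw [h, abs_zero] at hL1
            linarith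
          have hAL : |A - L| ≤ E / 2 ^ X := by
            rw [hA, hL]
            exact e2 _
          have hjj := e2 j
          rw [← hA, ← hL]
          have e3 : (y j : ℝ) - la ω j * A⁻¹ * y (ia ω) - (y j - l ω j * L⁻¹ * y (ia ω)) =
              ((la ω j * (A - L) - A * (la ω j - l ω j)) * (A⁻¹ * L⁻¹)) * y (ia ω) := by
            field_simp
            ring
          rw [e3, abs_mul, abs_mul]
          have e4 : |la ω j * (A - L) - A * (la ω j - l ω j)| ≤ 2 * (E / 2 ^ X) := by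
            refine (abs_sub _ _).trans ?_
            rw [abs_mul, abs_mul, hA1, one_mul]
            have := mul_le_mul (ha2 ω j) hAL (abs_nonneg _) zero_le_one
            linarith
          have e5 : |A⁻¹ * L⁻¹| ≤ 2 := by
            rw [abs_mul, abs_inv, abs_inv, hA1, inv_one, one_mul]
            refine inv_le_of_inv_le₀ (by norm_num) ?_
            linarith
          have e6 : |la ω j * (A - L) - A * (la ω j - l ω j)| * |A⁻¹ * L⁻¹| ≤
              2 * (E / 2 ^ X) * 2 :=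
            mul_le_mul e4 e5 (abs_nonneg _) (by positivity)
          have e7 := mul_le_mul e6 (hy (ia ω)) (abs_nonneg _) (by positivity)
          refine e7.trans (le_of_eq ?_)
          field_simp
          ring
        have d1 := abs_le.1 (dif _ (hx ω hω))
        have d2 := abs_le.1 (dif _ (hx ω' hω'))
        rw [abs_le]
        constructor <;> linarith [d1.1, d1.2, d2.1, d2.2]
      · rw [if_neg hg]
        have a1 := abs_le.1 (sz ω hω i)
        have a2 := abs_le.1 (sz ω' hω' i)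
        rw [abs_le]
        constructor <;> linarith [a1.1, a1.2, a2.1, a2.2])
  have k2 := ex_log hq G (c := 8 * E * K + 3) (B := 4 * (K * 2 ^ X) + 2) hEK
    (fun ω => if G ω then 8 * E * K + 3 else 4 * (K * 2 ^ X) + 2)
    (fun ω _ => ⟨fun h => by rw [if_pos h], fun h => by rw [if_neg h]⟩)
    (fun ω => by split_ifs <;> linarith)
  have e1 : 2 * (8 * E * K + 3) + 1 = 16 * E * K + 7 := by ring
  have e2 : 2 * (4 * (K * (2 : ℝ) ^ X) + 2) + 1 = 8 * (K * 2 ^ X) + 5 := by ring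
  rw [e1, e2] at k2
  refine k1.trans ?_
  push_cast
  exact mul_le_mul_of_nonneg_left k2 (by positivity)

/-- The difference of two velocities. -/
def df {N : ℕ} (D : Fin (N + 2) → Fin (m + 1) → ℤ) (k : Fin (N + 1)) : Fin (m + 1) → ℤ :=
  fun j => D k.succ j - D 0 j

/-- The bound of the coefficients. -/
noncomputable def bc (m s : ℕ) (K : ℝ) : ℝ := 2 ^ s * (2 * K) + 4 * ((m : ℝ) + 1)

/-- The loss of `abs_line`: `L` is the loss of the independences, `P` the probability of the bad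
event. -/
noncomputable def erA (m X s N : ℕ) (K E L P : ℝ) : ℝ :=
  (N + 1) * (L + Real.log (8 * K * 2 ^ s + 1) + (m + 1) * Real.log (16 * K + 5) +
    P * ((m + 2) * Real.log (8 * (K * 2 ^ X) + 5)) + (m + 1) * Real.log (4 * K + 3)) +
  CF (m + 1) 2 (bc m s K + bc m s K) N + Real.log 2 +
  (m + 1) * (Real.log (16 * E * K + 7) + P * Real.log (8 * (K * 2 ^ X) + 5))

/-- **Absorption along a closed direction.** -/
theorem abs_line {γ : Type} {p : Ω → ℝ} (hp : IsLaw p) {X s N : ℕ} {K E : ℝ} (hK : 1 ≤ K)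
    (hE0 : 0 ≤ E) (hE : 2 * E ≤ 2 ^ X) (a b d : Ω → Fin (m + 1) → ℤ) (t : Ω → ℤ) (W : Ω → γ)
    (T : γ → ℤ) (κ : ℤ → γ → Fin (m + 1) → ℝ)
    (ha : ∀ ω, 0 < p ω → ∀ i, |(a ω i : ℝ)| ≤ K * 2 ^ X)
    (hd : ∀ ω, 0 < p ω → ∀ i, |(d ω i : ℝ)| ≤ K * 2 ^ X)
    (ht : ∀ ω, 0 < p ω → |(t ω : ℝ)| ≤ 2 ^ X)
    (hst : ∀ ω, 0 < p ω → ∀ i, |(b ω i : ℝ) - a ω i -
      ((t ω : ℝ) - T (W ω)) / 2 ^ X * d ω i - κ (t ω) (W ω) i| ≤ K)
    (la : γ → Fin (m + 1) → ℝ) (ia : γ → Fin (m + 1)) (ha1 : ∀ z, |la z (ia z)| = 1)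
    (ha2 : ∀ z i, |la z i| ≤ 1) (G : (Fin (N + 2) → Fin (m + 1) → ℤ) → γ → Prop)
    (hG1 : ∀ D z, G D z → ∀ k,
      (2 : ℝ) ^ X ≤ 2 ^ s * |(df D k (ix fun j => (df D k j : ℝ)) : ℝ)|)
    (hG2 : ∀ D z, G D z → ∃ c : Fin (N + 1) → ℝ, (∀ k, |c k| ≤ 2 ^ s) ∧
      ∀ i, |la z i - ∑ k, c k * ((df D k i : ℝ) / 2 ^ X)| ≤ E / 2 ^ X) :
    X * Real.log 2 - erA m X s N K E
      ((N + 2) * (MI p d t W + 2 * MI p d b (fun ω => (t ω, W ω))) +
        (CH p a W - CH p b (fun ω => (t ω, W ω))) + (m + 1) * Real.log (4 * K + 1) +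
        (X * Real.log 2 - CH p t W))
      (Pb (tup p (Ln b t W) (N + 1)) (fun v => ¬ G (fun j => d (v j)) (W (v 0)))) ≤
      CH p a (fun ω => (prd (ia (W ω)) (la (W ω)) (a ω), W ω)) := by
  classical
  obtain ⟨q, hq⟩ : ∃ q, q = tup p (Ln b t W) (N + 1) := ⟨_, rfl⟩
  have h0 := hp.nonneg
  have hql : IsLaw q := by
    rw [hq]
    exact tup_isLaw hp _ _
  have q0 := hql.nonneg
  have hX : (0 : ℝ) < 2 ^ X := by positivity
  rw [← hq]
  have hpos : ∀ v, 0 < q v → (∀ j, 0 < p (v j)) ∧ ∀ j, b (v j) = b (v 0) ∧ t (v j) = t (v 0) ∧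
      W (v j) = W (v 0) := by
    intro v hv
    rw [hq] at hv
    exact ⟨((tup_pos_iff h0 _ _ v).1 hv).1, fun j => ln_eq h0 hv j⟩
  -- the good event
  obtain ⟨g, hg⟩ : ∃ g : (Fin (N + 2) → Fin (m + 1) → ℤ) → γ → Prop,
      g = fun D z => G D z ∧ ∀ k i, |(df D k i : ℝ)| ≤ 2 * (K * 2 ^ X) := ⟨_, rfl⟩
  have hgv : ∀ D z, g D z ↔ (G D z ∧ ∀ k i, |(df D k i : ℝ)| ≤ 2 * (K * 2 ^ X)) := fun D z => by
    rw [hg]
  obtain ⟨Z, hZ⟩ : ∃ Z : (Fin (N + 2) → Ω) → (Fin (N + 2) → Fin (m + 1) → ℤ) × γ,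
      Z = fun v => ((fun j => d (v j)), W (v 0)) := ⟨_, rfl⟩
  have hZv : ∀ v, Z v = ((fun j => d (v j)), W (v 0)) := fun v => by rw [hZ]
  obtain ⟨Gv, hGv⟩ : ∃ Gv : (Fin (N + 2) → Ω) → Prop, Gv = fun v => g (Z v).1 (Z v).2 := ⟨_, rfl⟩
  have hGd : Det q Z Gv := fun v v' _ _ h => by
    rw [hGv]
    show g (Z v).1 (Z v).2 = g (Z v').1 (Z v').2
    rw [h]
  have hPb : Pb q (fun v => ¬ Gv v) = Pb q (fun v => ¬ G (fun j => d (v j)) (W (v 0))) := by
    unfold Pb
    refine Finset.sum_congr rfl fun v _ => ?_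
    by_cases hv : 0 < q v
    · have e1 : Gv v ↔ G (fun j => d (v j)) (W (v 0)) := by
        rw [hGv]
        show g (Z v).1 (Z v).2 ↔ _
        rw [hgv, hZv]
        refine and_iff_left fun k i => ?_
        have b1 := hd (v k.succ) ((hpos v hv).1 _) i
        have b2 := hd (v 0) ((hpos v hv).1 _) i
        unfold df
        push_cast
        rw [abs_le] at b1 b2 ⊢
        constructor <;> linarith [b1.1, b1.2, b2.1, b2.2]
      by_cases h : Gv v
      · rw [if_neg (fun h' => h' h), if_neg (fun h' => h' (e1.1 h))]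
      · rw [if_pos h, if_pos (fun h' => h (e1.2 h'))]
    · have : q v = 0 := le_antisymm (not_lt.1 hv) (q0 v)
      rw [this]
      split_ifs <;> rfl
  rw [← hPb]
  obtain ⟨w, hw⟩ : ∃ w : Fin (N + 1) → (Fin (N + 2) → Ω) → Fin (m + 1) → ℤ,
      w = fun k v => df (Z v).1 k := ⟨_, rfl⟩
  have hwv : ∀ k v, w k v = df (Z v).1 k := fun k v => by rw [hw]
  have hwG : ∀ k v, Gv v → (2 : ℝ) ^ X ≤ 2 ^ s * |(w k v (ix fun j => (w k v j : ℝ)) : ℝ)| := by
    intro k v h
    rw [hwv]
    rw [hGv] at h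
    exact hG1 _ _ ((hgv _ _).1 h).1 k
  have hwn : ∀ k v, Gv v → w k v (ix fun j => (w k v j : ℝ)) ≠ 0 := by
    intro k v h h'
    have := hwG k v h
    rw [h', Int.cast_zero, abs_zero, mul_zero] at this
    linarith
  -- one direction
  have dir : ∀ k : Fin (N + 1), X * Real.log 2 - (((N : ℝ) + 2) * (MI p d t W +
      2 * MI p d b (fun ω => (t ω, W ω))) +
        (CH p a W - CH p b (fun ω => (t ω, W ω))) + (m + 1) * Real.log (4 * K + 1) +
        (X * Real.log 2 - CH p t W) + Real.log (8 * K * 2 ^ s + 1) +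
        (m + 1) * Real.log (16 * K + 5) +
        Pb q (fun v => ¬ Gv v) * ((m + 2) * Real.log (8 * (K * 2 ^ X) + 5))) ≤
      CH q (fun v => a (v 0))
        (fun v => (prd (ui (Gv v) (w k v)) (uv (Gv v) (w k v)) (a (v 0)), Z v)) := by
    intro k
    have c0 : CH p b (fun ω => (a ω, (d ω, (t ω, W ω)))) ≤ (m + 1) * Real.log (4 * K + 1) := by
      have k1 := CH_le_vec h0 hp.sum_one b (fun ω => (a ω, (d ω, (t ω, W ω)))) (fun _ => 2 * K) (by
        intro ω ω' hω hω' h i
        simp only [Prod.mk.injEq] at h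
        have b1 := hst ω hω i
        have b2 := hst ω' hω' i
        rw [h.1, h.2.1, h.2.2.1, h.2.2.2] at b1
        push_cast
        rw [abs_le] at b1 b2 ⊢
        constructor <;> linarith [b1.1, b1.2, b2.1, b2.2])
      rw [Ex_const hp.sum_one] at k1
      have e1 : 2 * (2 * K) + 1 = 4 * K + 1 := by ring
      rw [e1] at k1
      push_cast at k1
      exact k1
    have ct := cop_time hp a b d t W (N + 1) k.succ c0
    rw [← hq] at ct
    have dr := dir_full hql (x := fun v => a (v 0)) (y := fun v => a (v k.succ)) (w := w k)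
      (t := fun v => t (v 0)) (th := fun v => ((t (v 0) : ℝ) - T (W (v 0))) / 2 ^ X) (Z := Z) Gv
      (fun v v' hv hv' h => by rw [hGd v v' hv hv' h]) (fun v v' _ _ h => by rw [hwv, hwv, h])
      (X := X) (s := s) (K := 2 * K) (B := K * 2 ^ X) (by linarith) (by positivity)
      (fun v v' _ _ h => by
        have h2 : W (v 0) = W (v' 0) := by
          rw [hZv, hZv] at h
          exact (Prod.ext_iff.1 h).2
        rw [h2, ← sub_div, abs_div, abs_of_pos hX]
        have : (t (v 0) : ℝ) - T (W (v' 0)) - (t (v' 0) - T (W (v' 0))) = t (v 0) - t (v' 0) := by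
          ring
        rw [this, mul_div_cancel₀ _ hX.ne'])
      (fun v hv => ha _ ((hpos v hv).1 0)) (fun v hv => by
        have h1 := ht _ ((hpos v hv).1 0)
        have h2 : (1 : ℝ) * 2 ^ X ≤ K * 2 ^ X := mul_le_mul_of_nonneg_right hK hX.le
        linarith) (fun v _ h => hwG k v h) (fun v hv i => by
        obtain ⟨p1, p2⟩ := hpos v hv
        have b1 := hst _ (p1 0) i
        have b2 := hst _ (p1 k.succ) i
        obtain ⟨q1, q2, q3⟩ := p2 k.succ
        rw [q1, q2, q3] at b2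
        rw [hwv, hZv]
        unfold df
        push_cast
        rw [abs_le] at b1 b2 ⊢
        constructor <;> linarith [b1.1, b1.2, b2.1, b2.2])
    have e1 : (fun v => (a (v k.succ), Z v)) =
        fun v => (a (v k.succ), ((fun j => d (v j)), W (v 0))) := by
      rw [hZ]
    rw [e1] at dr
    have e2 : 4 * (2 * K) * (2 : ℝ) ^ s + 1 = 8 * K * 2 ^ s + 1 := by ring
    have e3 : 8 * (2 * K) + 5 = 16 * K + 5 := by ring
    rw [e2, e3] at dr
    push_cast at ct
    have e4 : (N : ℝ) + 1 + 1 = N + 2 := by ring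
    rw [e4] at ct
    linarith
  -- the coefficients
  obtain ⟨cf, hcf⟩ : ∃ cf : (Fin (N + 2) → Fin (m + 1) → ℤ) → γ → Fin (N + 1) → ℝ, ∀ D z, g D z →
      (∀ k, |cf D z k| ≤ 2 ^ s) ∧
      ∀ i, |la z i - ∑ k, cf D z k * ((df D k i : ℝ) / 2 ^ X)| ≤ E / 2 ^ X := by
    refine ⟨fun D z => if h : g D z then (hG2 D z ((hgv _ _).1 h).1).choose else fun _ => 0,
      fun D z h => ?_⟩
    simp only
    rw [dif_pos h]
    exact (hG2 D z ((hgv _ _).1 h).1).choose_spec
  obtain ⟨l, hl⟩ : ∃ l : (Fin (N + 2) → Ω) → Fin (m + 1) → ℝ, l = fun v => if Gv v then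
      (fun i => ∑ k, cf (Z v).1 (Z v).2 k * ((w k v i : ℝ) / 2 ^ X)) else Pi.single 0 1 := ⟨_, rfl⟩
  obtain ⟨il, hil⟩ : ∃ il : (Fin (N + 2) → Ω) → Fin (m + 1),
      il = fun v => if Gv v then ia (W (v 0)) else 0 := ⟨_, rfl⟩
  obtain ⟨c, hc⟩ : ∃ c : Fin (N + 1) → (Fin (N + 2) → Ω) → ℝ, c = fun k v => if Gv v then
      cf (Z v).1 (Z v).2 k * |(w k v (ix fun j => (w k v j : ℝ)) : ℝ)| / 2 ^ X else
      if k = 0 then 1 else 0 := ⟨_, rfl⟩
  have hlv : ∀ v, l v = if Gv v then
      (fun i => ∑ k, cf (Z v).1 (Z v).2 k * ((w k v i : ℝ) / 2 ^ X)) else Pi.single 0 1 :=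
    fun v => by rw [hl]
  have hilv : ∀ v, il v = if Gv v then ia (W (v 0)) else 0 := fun v => by rw [hil]
  have hcv : ∀ k v, c k v = if Gv v then
      cf (Z v).1 (Z v).2 k * |(w k v (ix fun j => (w k v j : ℝ)) : ℝ)| / 2 ^ X else
      if k = 0 then 1 else 0 := fun k v => by rw [hc]
  have hW : ∀ v v', Z v = Z v' → W (v 0) = W (v' 0) := fun v v' h => by
    rw [hZv, hZv] at h
    exact (Prod.ext_iff.1 h).2
  have near : ∀ v, Gv v → ∀ i, |la (W (v 0)) i - l v i| ≤ E / 2 ^ X := by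
    intro v h i
    rw [hlv, if_pos h]
    have h' := h
    rw [hGv] at h'
    have := (hcf _ _ h').2 i
    have e1 : (Z v).2 = W (v 0) := by rw [hZv]
    rw [e1] at this ⊢
    simp only [hwv]
    exact this
  have hE2 : E / 2 ^ X ≤ 1 / 2 := by
    rw [div_le_div_iff₀ hX (by norm_num)]
    linarith
  have l1 : ∀ v, 1 ≤ 2 * |l v (il v)| := by
    intro v
    by_cases h : Gv v
    · rw [hilv, if_pos h]
      have h1 := near v h (ia (W (v 0)))
      have h2 := ha1 (W (v 0))
      have h3 := abs_sub_abs_le_abs_sub (la (W (v 0)) (ia (W (v 0)))) (l v (ia (W (v 0))))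
      linarith
    · rw [hilv, if_neg h, hlv, if_neg h, Pi.single_eq_same, abs_one]
      norm_num
  have l2 : ∀ v i, |l v i| ≤ 2 := by
    intro v i
    by_cases h : Gv v
    · have h1 := near v h i
      have h2 := ha2 (W (v 0)) i
      have h3 := abs_sub_abs_le_abs_sub (l v i) (la (W (v 0)) i)
      rw [abs_sub_comm] at h3
      linarith
    · rw [hlv, if_neg h, Pi.single_apply]
      split_ifs
      · rw [abs_one]
        norm_num
      · rw [abs_zero]
        norm_num
  have ld : Det q Z l := by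
    intro v v' hv hv' h
    rw [hlv, hlv, hGd v v' hv hv' h]
    simp only [hwv]
    rw [h]
  have ild : Det q Z il := by
    intro v v' hv hv' h
    rw [hilv, hilv, hGd v v' hv hv' h, hW v v' h]
  have P0 : 0 ≤ Pb q (fun v => ¬ Gv v) := by
    unfold Pb
    exact Finset.sum_nonneg fun v _ => by
      split_ifs
      · exact q0 v
      · exact le_rfl
  have cb : ∀ k v, |c k v| ≤ bc m s K := by
    intro k v
    have hm : (0 : ℝ) ≤ m := Nat.cast_nonneg _
    have h2s : (0 : ℝ) < 2 ^ s := by positivity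
    rw [hcv]
    unfold bc
    by_cases h : Gv v
    · rw [if_pos h]
      have h' := h
      rw [hGv] at h'
      have c1 := (hcf _ _ h').1 k
      have c2 := ((hgv _ _).1 h').2 k (ix fun j => (w k v j : ℝ))
      rw [← hwv] at c2
      rw [abs_div, abs_mul, abs_abs, abs_of_pos hX, div_le_iff₀ hX]
      have c3 := mul_le_mul c1 c2 (abs_nonneg _) h2s.le
      refine c3.trans ?_
      have : 0 ≤ 4 * ((m : ℝ) + 1) * 2 ^ X := by positivity
      linarith
    · rw [if_neg h]
      have : 0 ≤ (2 : ℝ) ^ s * (2 * K) := by positivity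
      split_ifs
      · rw [abs_one]
        linarith
      · rw [abs_zero]
        linarith
  have lc : ∀ v i, l v i = ∑ k, c k v * uv (Gv v) (w k v) i := by
    intro v i
    rw [hlv]
    by_cases h : Gv v
    · rw [if_pos h]
      refine Finset.sum_congr rfl fun k _ => ?_
      rw [hcv, if_pos h]
      unfold uv
      rw [if_pos h]
      have h0 : |(w k v (ix fun j => (w k v j : ℝ)) : ℝ)| ≠ 0 :=
        abs_ne_zero.2 (by exact_mod_cast hwn k v h)
      field_simp
    · rw [if_neg h, Finset.sum_eq_single_of_mem (0 : Fin (N + 1)) (Finset.mem_univ _)]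
      · rw [hcv, if_neg h, if_pos rfl, one_mul]
        unfold uv
        rw [if_neg h]
      · intro k _ hk
        rw [hcv, if_neg h, if_neg hk, zero_mul]
  have key := cmb_full (N := N) hql hK (fun v => a (v 0)) (fun v hv => ha _ ((hpos v hv).1 0)) Z
    (fun k v => uv (Gv v) (w k v)) (fun k v => ui (Gv v) (w k v))
    (fun k v => (uv_le (Gv v) (fun h => hwn k v h)).1)
    (fun k v => (uv_le (Gv v) (fun h => hwn k v h)).2)
    (fun k v v' hv hv' h => by
      show uv (Gv v) (w k v) = uv (Gv v') (w k v')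
      rw [hGd v v' hv hv' h, hwv, hwv, h])
    (fun k v v' hv hv' h => by
      show ui (Gv v) (w k v) = ui (Gv v') (w k v')
      rw [hGd v v' hv hv' h, hwv, hwv, h])
    l il l1 l2 ld ild c cb (by
      unfold bc
      have : 0 ≤ (2 : ℝ) ^ s * (2 * K) := by positivity
      linarith) lc (by
      intro k
      exact dir k)
  have cmp := cell_cmp hql hK hE0 (fun v => a (v 0)) (fun v hv => ha _ ((hpos v hv).1 0)) Z Gv
    hGd l il l1 ld ild (fun v => la (W (v 0))) (fun v => ia (W (v 0))) (fun v => ha1 _)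
    (fun v => ha2 _) (fun v v' _ _ h => congrArg la (hW v v' h)) (fun v v' _ _ h => congrArg ia (hW v v' h))
    (fun v h => ⟨by rw [hilv, if_pos h], near v h⟩)
  have i0 : Im q p (fun v => v 0) := by
    rw [hq]
    exact im_tup h0 _ _ 0
  have fin1 := i0.CH a (fun ω => (prd (ia (W ω)) (la (W ω)) (a ω), W ω))
  have f1 := CH_le_add q0 (fun v => a (v 0)) (fun v => prd (ia (W (v 0))) (la (W (v 0))) (a (v 0)))
    (fun v => (cl (slab X {0} (Pm (il v) (l v))) (rl X (a (v 0))), Z v))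
  have f2 := CH_mono_cond q0 (X := fun v => a (v 0))
    (W' := fun v => (prd (ia (W (v 0))) (la (W (v 0))) (a (v 0)),
      (cl (slab X {0} (Pm (il v) (l v))) (rl X (a (v 0))), Z v)))
    (W := fun v => (prd (ia (W (v 0))) (la (W (v 0))) (a (v 0)), W (v 0)))
    (fun v v' _ _ h => by
      simp only [Prod.mk.injEq] at h ⊢
      exact ⟨h.1, hW v v' h.2.2⟩)
  rw [← fin1]
  unfold erA
  linarith

end Pool.TT37
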