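import Pool.Agent.H21.QW.Val
import Pool.Agent.H64.P5.Abs

/-!
# A selected copy

`sel_time`: if `t` is full given each of the copies `y k`, then it is full given a copy `y k` with
`k` a function of the context.
-/

set_option autoImplicit false

namespace Pool.TT37

open Finset Real
open Pool.Agent.H49.Ent Pool.Agent.H32.Dense Pool.STK

variable {Ω α ζ : Type} [Fintype Ω] {q : Ω → ℝ}

theorem ch_avg {S U T : Type} (hp : ∀ ω, 0 ≤ q ω) (X : Ω → S) (Y : Ω → U) (Z : Ω → T) :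
    CH q X (fun ω => (Y ω, Z ω)) = Ex q (fun ω => CH (cond q Z (Z ω)) X Y) := by
  have h1 := CH_chain hp X Y Z
  have h2 := Pool.RC21.CH_val hp (fun ω => (X ω, Y ω)) Z
  have h3 := Pool.RC21.CH_val hp Y Z
  have h4 : Ex q (fun ω => CH (cond q Z (Z ω)) X Y) =
      Ex q (fun ω => H (cond q Z (Z ω)) (fun ω => (X ω, Y ω))) -
        Ex q (fun ω => H (cond q Z (Z ω)) Y) := by
    rw [← Ex_sub]
    rfl
  rw [h4, ← h2, ← h3, h1]
  ring

theorem cond_pos {T : Type} (h0 : ∀ ω, 0 ≤ q ω) {Z : Ω → T} {z : T} {ω : Ω}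
    (h : 0 < cond q Z z ω) : Z ω = z ∧ 0 < q ω := by
  unfold Pool.Agent.H49.Ent.cond at h
  split_ifs at h with h1
  · refine ⟨h1, ?_⟩
    rcases (h0 ω).eq_or_lt with h2 | h2
    · rw [← h2, zero_div] at h
      exact absurd h (lt_irrefl _)
    · exact h2
  · exact absurd h (lt_irrefl _)

theorem law_ne {T : Type} (h0 : ∀ ω, 0 ≤ q ω) (Z : Ω → T) {ω : Ω} (hω : 0 < q ω) :
    law q Z (Z ω) ≠ 0 := by
  classical
  have : q ω ≤ law q Z (Z ω) := by
    unfold law
    have := Finset.single_le_sum (f := fun ω' => if Z ω' = Z ω then q ω' else 0)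
      (fun ω' _ => by
        split_ifs
        · exact h0 ω'
        · exact le_rfl) (Finset.mem_univ ω)
    simpa using this
  linarith

/-- **A selected copy.** -/
theorem sel_time (hq : IsLaw q) {X N : ℕ} {t : Ω → ℤ} (ht : ∀ ω, 0 < q ω → 0 ≤ t ω ∧ t ω < 2 ^ X)
    (y : Fin (N + 1) → Ω → α) (Z : Ω → ζ) (sg : Ω → Fin (N + 1)) (hsg : Det q Z sg) {L : ℝ}
    (h : ∀ k, X * Real.log 2 - L ≤ CH q t (fun ω => (y k ω, Z ω))) :
    X * Real.log 2 - (N + 1) * L ≤ CH q t (fun ω => (y (sg ω) ω, Z ω)) := by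
  classical
  have h0 := hq.nonneg
  have c0 : ∀ z ω, 0 ≤ cond q Z z ω := fun z ω => cond_nonneg h0 Z z ω
  have hle : ∀ ω, 0 < q ω → ∀ k, CH (cond q Z (Z ω)) t (y k) ≤ X * Real.log 2 := by
    intro ω hω k
    have hl : law q Z (Z ω) ≠ 0 := law_ne h0 Z hω
    have k1 := CH_le_card (c0 (Z ω)) (sum_cond q Z hl) t (y k)
      (fun _ => Finset.Ico (0 : ℤ) (2 ^ X)) (fun ω' hω' => by
        rw [Finset.mem_Ico]
        exact ht ω' (cond_pos h0 hω').2)
    rw [Ex_const (sum_cond q Z hl), Int.card_Ico, sub_zero] at k1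
    have e1 : (((2 : ℤ) ^ X).toNat : ℝ) = 2 ^ X := by
      have : ((2 : ℤ) ^ X).toNat = 2 ^ X := by
        rw [show ((2 : ℤ) ^ X) = ((2 ^ X : ℕ) : ℤ) by push_cast; rfl, Int.toNat_natCast]
      rw [this]
      push_cast
      rfl
    rw [e1, Real.log_pow] at k1
    exact k1
  have key : ∀ ω, 0 < q ω → (∑ k, CH (cond q Z (Z ω)) t (y k)) - N * (X * Real.log 2) ≤
      CH (cond q Z (Z ω)) t (fun ω' => y (sg ω') ω') := by
    intro ω hω
    have e1 : CH (cond q Z (Z ω)) t (fun ω' => y (sg ω') ω') =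
        CH (cond q Z (Z ω)) t (y (sg ω)) := by
      have hs : ∀ ω', 0 < cond q Z (Z ω) ω' → y (sg ω') ω' = y (sg ω) ω' := by
        intro ω' hω'
        have h1 := cond_pos h0 hω'
        rw [hsg ω' ω h1.2 hω h1.1]
      refine CH_congr (c0 (Z ω)) (fun _ _ _ _ h => (Prod.ext_iff.1 h).1)
        (fun _ _ _ _ h => (Prod.ext_iff.1 h).1) ?_ ?_
      · intro a b ha hb e
        have e' : y (sg a) a = y (sg b) b := e
        show y (sg ω) a = y (sg ω) b
        rw [← hs a ha, ← hs b hb, e']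
      · intro a b ha hb e
        have e' : y (sg ω) a = y (sg ω) b := e
        show y (sg a) a = y (sg b) b
        rw [hs a ha, hs b hb, e']
    rw [e1, ← Finset.add_sum_erase _ _ (Finset.mem_univ (sg ω))]
    have h3 : ∑ k ∈ Finset.univ.erase (sg ω), CH (cond q Z (Z ω)) t (y k) ≤
        ∑ _k ∈ Finset.univ.erase (sg ω), (X * Real.log 2) :=
      Finset.sum_le_sum fun k _ => hle ω hω k
    rw [Finset.sum_const, Finset.card_erase_of_mem (Finset.mem_univ _), Finset.card_univ,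
      Fintype.card_fin, nsmul_eq_mul, Nat.add_sub_cancel] at h3
    linarith
  have f1 := Ex_mono h0 key
  rw [← ch_avg h0, Ex_sub, Ex_const hq.sum_one] at f1
  have f2 : Ex q (fun ω => ∑ k, CH (cond q Z (Z ω)) t (y k)) =
      ∑ k, CH q t (fun ω => (y k ω, Z ω)) := by
    have e1 : ∀ k, CH q t (fun ω => (y k ω, Z ω)) =
        Ex q (fun ω => CH (cond q Z (Z ω)) t (y k)) := fun k => ch_avg h0 t (y k) Z
    rw [Finset.sum_congr rfl fun k _ => e1 k]
    unfold Ex
    rw [Finset.sum_comm]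
    refine Finset.sum_congr rfl fun ω _ => ?_
    rw [Finset.mul_sum]
  rw [f2] at f1
  have f3 : ∑ _k : Fin (N + 1), (X * Real.log 2 - L) ≤ ∑ k, CH q t (fun ω => (y k ω, Z ω)) :=
    Finset.sum_le_sum fun k _ => h k
  rw [Finset.sum_const, Finset.card_univ, Fintype.card_fin, nsmul_eq_mul] at f3
  push_cast at f3
  linarith

end Pool.TT37
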