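import Pool.Agent.H37.TT.Abs
import Pool.Agent.H37.TT.Tsl

/-!
# Absorption along a closed direction, selected copies

`Gd X s E D la`: `m + 1` of the differences of the velocities `D` are large, and the direction `la`
is a combination of them. `abs_sel`: `abs_line` with this good event.
-/

set_option autoImplicit false

namespace Pool.TT37

open Finset Real Matrix
open Pool.Agent.H49.Ent Pool.Agent.H32.Dense Pool.STK Pool.FAD Pool.POT
open Pool.BFL (Pb)
open Pool.SLO (tup tup_nonneg tup_pos_iff tup_isLaw)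

variable {Ω : Type} [Fintype Ω] {m : ℕ}

/-- **The good event**: `la` is a combination of `m + 1` large differences. -/
def Gd {N : ℕ} (X s : ℕ) (E : ℝ) (D : Fin (N + 2) → Fin (m + 1) → ℤ) (la : Fin (m + 1) → ℝ) :
    Prop :=
  ∃ sg : Fin (m + 1) → Fin (N + 1),
    (∀ l, (2 : ℝ) ^ X ≤ 2 ^ s * |(df D (sg l) (ix fun j => (df D (sg l) j : ℝ)) : ℝ)|) ∧
    ∃ c : Fin (m + 1) → ℝ, (∀ l, |c l| ≤ 2 ^ s) ∧
      ∀ i, |la i - ∑ l, c l * ((df D (sg l) i : ℝ) / 2 ^ X)| ≤ E / 2 ^ X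

/-- **Absorption along a closed direction**, selected copies. -/
theorem abs_sel {γ : Type} {p : Ω → ℝ} (hp : IsLaw p) {X s N : ℕ} {K E : ℝ} (hK : 1 ≤ K)
    (hE0 : 0 ≤ E) (hE : 2 * E ≤ 2 ^ X) (a b d : Ω → Fin (m + 1) → ℤ) (t : Ω → ℤ) (W : Ω → γ)
    (T : γ → ℤ) (κ : ℤ → γ → Fin (m + 1) → ℝ)
    (ha : ∀ ω, 0 < p ω → ∀ i, |(a ω i : ℝ)| ≤ K * 2 ^ X)
    (hd : ∀ ω, 0 < p ω → ∀ i, |(d ω i : ℝ)| ≤ K * 2 ^ X)
    (ht : ∀ ω, 0 < p ω → 0 ≤ t ω ∧ t ω < 2 ^ X)
    (hst : ∀ ω, 0 < p ω → ∀ i, |(b ω i : ℝ) - a ω i -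
      ((t ω : ℝ) - T (W ω)) / 2 ^ X * d ω i - κ (t ω) (W ω) i| ≤ K)
    (la : Ω → Fin (m + 1) → ℝ) (ia : Ω → Fin (m + 1)) (hla : Det p W la) (hia : Det p W ia)
    (ha1 : ∀ ω, |la ω (ia ω)| = 1) (ha2 : ∀ ω i, |la ω i| ≤ 1) :
    X * Real.log 2 - erA m X s m K E
      ((N + 1) * ((N + 2) * (MI p d t W + 2 * MI p d b (fun ω => (t ω, W ω))) +
        (CH p a W - CH p b (fun ω => (t ω, W ω))) + (m + 1) * Real.log (4 * K + 1) +
        (X * Real.log 2 - CH p t W)))
      (Pb (tup p (Ln b t W) (N + 1)) (fun v => ¬ Gd X s E (fun j => d (v j)) (la (v 0)))) ≤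
      CH p a (fun ω => (prd (ia ω) (la ω) (a ω), W ω)) := by
  classical
  obtain ⟨q, hq⟩ : ∃ q, q = tup p (Ln b t W) (N + 1) := ⟨_, rfl⟩
  have h0 := hp.nonneg
  have hql : IsLaw q := by
    rw [hq]
    exact tup_isLaw hp _ _
  have q0 := hql.nonneg
  have hX : (0 : ℝ) < 2 ^ X := by positivity
  rw [← hq]
  have hpos : ∀ v, 0 < q v → (∀ j, 0 < p (v j)) ∧ ∀ j, b (v j) = b (v 0) ∧ t (v j) = t (v 0) ∧
      W (v j) = W (v 0) := by
    intro v hv
    rw [hq] at hv
    exact ⟨((tup_pos_iff h0 _ _ v).1 hv).1, fun j => ln_eq h0 hv j⟩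
  -- the good event
  obtain ⟨g, hg⟩ : ∃ g : (Fin (N + 2) → Fin (m + 1) → ℤ) → (Fin (m + 1) → ℝ) → Prop,
      g = fun D z => Gd X s E D z ∧ ∀ k i, |(df D k i : ℝ)| ≤ 2 * (K * 2 ^ X) := ⟨_, rfl⟩
  have hgv : ∀ D z, g D z ↔ (Gd X s E D z ∧ ∀ k i, |(df D k i : ℝ)| ≤ 2 * (K * 2 ^ X)) :=
    fun D z => by rw [hg]
  obtain ⟨Z, hZ⟩ : ∃ Z : (Fin (N + 2) → Ω) → (Fin (N + 2) → Fin (m + 1) → ℤ) × γ,
      Z = fun v => ((fun j => d (v j)), W (v 0)) := ⟨_, rfl⟩
  have hZv : ∀ v, Z v = ((fun j => d (v j)), W (v 0)) := fun v => by rw [hZ]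
  obtain ⟨Gv, hGv⟩ : ∃ Gv : (Fin (N + 2) → Ω) → Prop, Gv = fun v => g (Z v).1 (la (v 0)) :=
    ⟨_, rfl⟩
  have hW : ∀ v v', Z v = Z v' → W (v 0) = W (v' 0) := fun v v' h => by
    rw [hZv, hZv] at h
    exact (Prod.ext_iff.1 h).2
  have dla : ∀ v v', 0 < q v → 0 < q v' → Z v = Z v' → la (v 0) = la (v' 0) :=
    fun v v' hv hv' h => hla _ _ ((hpos v hv).1 0) ((hpos v' hv').1 0) (hW v v' h)
  have dia : ∀ v v', 0 < q v → 0 < q v' → Z v = Z v' → ia (v 0) = ia (v' 0) :=
    fun v v' hv hv' h => hia _ _ ((hpos v hv).1 0) ((hpos v' hv').1 0) (hW v v' h)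
  have hGd : Det q Z Gv := fun v v' hv hv' h => by
    rw [hGv]
    show g (Z v).1 (la (v 0)) = g (Z v').1 (la (v' 0))
    rw [h, dla v v' hv hv' h]
  have hPb : Pb q (fun v => ¬ Gv v) =
      Pb q (fun v => ¬ Gd X s E (fun j => d (v j)) (la (v 0))) := by
    unfold Pb
    refine Finset.sum_congr rfl fun v _ => ?_
    by_cases hv : 0 < q v
    · have e1 : Gv v ↔ Gd X s E (fun j => d (v j)) (la (v 0)) := by
        rw [hGv]
        show g (Z v).1 (la (v 0)) ↔ _
        rw [hgv, hZv]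
        refine and_iff_left fun k i => ?_
        have b1 := hd (v k.succ) ((hpos v hv).1 _) i
        have b2 := hd (v 0) ((hpos v hv).1 _) i
        unfold df
        push_cast
        rw [abs_le] at b1 b2 ⊢
        constructor <;> linarith [b1.1, b1.2, b2.1, b2.2]
      by_cases h : Gv v
      · rw [if_neg (fun h' => h' h), if_neg (fun h' => h' (e1.1 h))]
      · rw [if_pos h, if_pos (fun h' => h (e1.2 h'))]
    · have : q v = 0 := le_antisymm (not_lt.1 hv) (q0 v)
      rw [this]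
      split_ifs <;> rfl
  rw [← hPb]
  -- the selected copies
  obtain ⟨sf, hsf⟩ : ∃ sf : (Fin (N + 2) → Fin (m + 1) → ℤ) → (Fin (m + 1) → ℝ) →
      Fin (m + 1) → Fin (N + 1), ∀ D z, g D z →
      (∀ l, (2 : ℝ) ^ X ≤ 2 ^ s * |(df D (sf D z l) (ix fun j => (df D (sf D z l) j : ℝ)) : ℝ)|) ∧
      ∃ c : Fin (m + 1) → ℝ, (∀ l, |c l| ≤ 2 ^ s) ∧
        ∀ i, |z i - ∑ l, c l * ((df D (sf D z l) i : ℝ) / 2 ^ X)| ≤ E / 2 ^ X := by
    refine ⟨fun D z => if h : g D z then (((hgv _ _).1 h).1).choose else fun _ => 0,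
      fun D z h => ?_⟩
    simp only
    rw [dif_pos h]
    exact (((hgv _ _).1 h).1).choose_spec
  obtain ⟨sv, hsv⟩ : ∃ sv : Fin (m + 1) → (Fin (N + 2) → Ω) → Fin (N + 1),
      sv = fun l v => sf (Z v).1 (la (v 0)) l := ⟨_, rfl⟩
  have hsvv : ∀ l v, sv l v = sf (Z v).1 (la (v 0)) l := fun l v => by rw [hsv]
  have dsv : ∀ l, Det q Z (sv l) := fun l v v' hv hv' h => by
    rw [hsvv, hsvv, h, dla v v' hv hv' h]
  obtain ⟨w, hw⟩ : ∃ w : Fin (m + 1) → (Fin (N + 2) → Ω) → Fin (m + 1) → ℤ,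
      w = fun l v => df (Z v).1 (sv l v) := ⟨_, rfl⟩
  have hwv : ∀ l v, w l v = df (Z v).1 (sv l v) := fun k v => by rw [hw]
  have dw : ∀ l, Det q Z (w l) := fun l v v' hv hv' h => by
    rw [hwv, hwv, dsv l v v' hv hv' h, h]
  have hwG : ∀ k v, Gv v → (2 : ℝ) ^ X ≤ 2 ^ s * |(w k v (ix fun j => (w k v j : ℝ)) : ℝ)| := by
    intro k v h
    rw [hGv] at h
    have := (hsf _ _ h).1 k
    rw [← hsvv, ← hwv] at this
    exact this
  have hwn : ∀ k v, Gv v → w k v (ix fun j => (w k v j : ℝ)) ≠ 0 := by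
    intro k v h h'
    have := hwG k v h
    rw [h', Int.cast_zero, abs_zero, mul_zero] at this
    linarith
  -- one direction
  have dir : ∀ k : Fin (m + 1), X * Real.log 2 - (((N : ℝ) + 1) * (((N : ℝ) + 2) *
      (MI p d t W + 2 * MI p d b (fun ω => (t ω, W ω))) +
        (CH p a W - CH p b (fun ω => (t ω, W ω))) + (m + 1) * Real.log (4 * K + 1) +
        (X * Real.log 2 - CH p t W)) + Real.log (8 * K * 2 ^ s + 1) +
        (m + 1) * Real.log (16 * K + 5) +
        Pb q (fun v => ¬ Gv v) * ((m + 2) * Real.log (8 * (K * 2 ^ X) + 5))) ≤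
      CH q (fun v => a (v 0))
        (fun v => (prd (ui (Gv v) (w k v)) (uv (Gv v) (w k v)) (a (v 0)), Z v)) := by
    intro k
    have c0 : CH p b (fun ω => (a ω, (d ω, (t ω, W ω)))) ≤ (m + 1) * Real.log (4 * K + 1) := by
      have k1 := CH_le_vec h0 hp.sum_one b (fun ω => (a ω, (d ω, (t ω, W ω)))) (fun _ => 2 * K) (by
        intro ω ω' hω hω' h i
        simp only [Prod.mk.injEq] at h
        have b1 := hst ω hω i
        have b2 := hst ω' hω' i
        rw [h.1, h.2.1, h.2.2.1, h.2.2.2] at b1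
        push_cast
        rw [abs_le] at b1 b2 ⊢
        constructor <;> linarith [b1.1, b1.2, b2.1, b2.2])
      rw [Ex_const hp.sum_one] at k1
      have e1 : 2 * (2 * K) + 1 = 4 * K + 1 := by ring
      rw [e1] at k1
      push_cast at k1
      exact k1
    have ct : ∀ k : Fin (N + 1), X * Real.log 2 - (((N : ℝ) + 2) *
        (MI p d t W + 2 * MI p d b (fun ω => (t ω, W ω))) +
        (CH p a W - CH p b (fun ω => (t ω, W ω))) + (m + 1) * Real.log (4 * K + 1) +
        (X * Real.log 2 - CH p t W)) ≤ CH q (fun v => t (v 0)) (fun v => (a (v k.succ), Z v)) := by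
      intro k
      have ct := cop_time hp a b d t W (N + 1) k.succ c0
      rw [← hq] at ct
      have e1 : (fun v => (a (v k.succ), Z v)) =
          fun v => (a (v k.succ), ((fun j => d (v j)), W (v 0))) := by
        rw [hZ]
      rw [e1]
      push_cast at ct
      have e4 : (N : ℝ) + 1 + 1 = N + 2 := by ring
      rw [e4] at ct
      linarith
    have ct2 := sel_time hql (t := fun v => t (v 0)) (fun v hv => ht _ ((hpos v hv).1 0))
      (fun k v => a (v k.succ)) Z (sv k) (dsv k) ct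
    have dr := dir_full hql (x := fun v => a (v 0)) (y := fun v => a (v (sv k v).succ)) (w := w k)
      (t := fun v => t (v 0)) (th := fun v => ((t (v 0) : ℝ) - T (W (v 0))) / 2 ^ X) (Z := Z) Gv
      (fun v v' hv hv' h => by rw [hGd v v' hv hv' h]) (dw k)
      (X := X) (s := s) (K := 2 * K) (B := K * 2 ^ X) (by linarith) (by positivity)
      (fun v v' _ _ h => by
        have h2 : W (v 0) = W (v' 0) := by
          rw [hZv, hZv] at h
          exact (Prod.ext_iff.1 h).2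
        rw [h2, ← sub_div, abs_div, abs_of_pos hX]
        have : (t (v 0) : ℝ) - T (W (v' 0)) - (t (v' 0) - T (W (v' 0))) = t (v 0) - t (v' 0) := by
          ring
        rw [this, mul_div_cancel₀ _ hX.ne'])
      (fun v hv => ha _ ((hpos v hv).1 0)) (fun v hv => by
        obtain ⟨h1, h3⟩ := ht _ ((hpos v hv).1 0)
        have h2 : (1 : ℝ) * 2 ^ X ≤ K * 2 ^ X := mul_le_mul_of_nonneg_right hK hX.le
        have h4 : (0 : ℝ) ≤ t (v 0) := by exact_mod_cast h1
        have h5 : (t (v 0) : ℝ) < 2 ^ X := by exact_mod_cast h3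
        rw [abs_of_nonneg h4]
        linarith) (fun v _ h => hwG k v h) (fun v hv i => by
        obtain ⟨p1, p2⟩ := hpos v hv
        have b1 := hst _ (p1 0) i
        have b2 := hst _ (p1 (sv k v).succ) i
        obtain ⟨q1, q2, q3⟩ := p2 (sv k v).succ
        rw [q1, q2, q3] at b2
        rw [hwv, hZv]
        unfold df
        push_cast
        rw [abs_le] at b1 b2 ⊢
        constructor <;> linarith [b1.1, b1.2, b2.1, b2.2])
    have e2 : 4 * (2 * K) * (2 : ℝ) ^ s + 1 = 8 * K * 2 ^ s + 1 := by ring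
    have e3 : 8 * (2 * K) + 5 = 16 * K + 5 := by ring
    rw [e2, e3] at dr
    linarith
  -- the coefficients
  obtain ⟨cf, hcf⟩ : ∃ cf : (Fin (N + 2) → Fin (m + 1) → ℤ) → (Fin (m + 1) → ℝ) →
      Fin (m + 1) → ℝ, ∀ D z, g D z → (∀ k, |cf D z k| ≤ 2 ^ s) ∧
      ∀ i, |z i - ∑ k, cf D z k * ((df D (sf D z k) i : ℝ) / 2 ^ X)| ≤ E / 2 ^ X := by
    refine ⟨fun D z => if h : g D z then (hsf D z h).2.choose else fun _ => 0,
      fun D z h => ?_⟩
    simp only
    rw [dif_pos h]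
    exact (hsf D z h).2.choose_spec
  obtain ⟨l, hl⟩ : ∃ l : (Fin (N + 2) → Ω) → Fin (m + 1) → ℝ, l = fun v => if Gv v then
      (fun i => ∑ k, cf (Z v).1 (la (v 0)) k * ((w k v i : ℝ) / 2 ^ X)) else Pi.single 0 1 := ⟨_, rfl⟩
  obtain ⟨il, hil⟩ : ∃ il : (Fin (N + 2) → Ω) → Fin (m + 1),
      il = fun v => if Gv v then ia (v 0) else 0 := ⟨_, rfl⟩
  obtain ⟨c, hc⟩ : ∃ c : Fin (m + 1) → (Fin (N + 2) → Ω) → ℝ, c = fun k v => if Gv v then
      cf (Z v).1 (la (v 0)) k * |(w k v (ix fun j => (w k v j : ℝ)) : ℝ)| / 2 ^ X else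
      if k = 0 then 1 else 0 := ⟨_, rfl⟩
  have hlv : ∀ v, l v = if Gv v then
      (fun i => ∑ k, cf (Z v).1 (la (v 0)) k * ((w k v i : ℝ) / 2 ^ X)) else Pi.single 0 1 :=
    fun v => by rw [hl]
  have hilv : ∀ v, il v = if Gv v then ia (v 0) else 0 := fun v => by rw [hil]
  have hcv : ∀ k v, c k v = if Gv v then
      cf (Z v).1 (la (v 0)) k * |(w k v (ix fun j => (w k v j : ℝ)) : ℝ)| / 2 ^ X else
      if k = 0 then 1 else 0 := fun k v => by rw [hc]
  have near : ∀ v, Gv v → ∀ i, |la (v 0) i - l v i| ≤ E / 2 ^ X := by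
    intro v h i
    rw [hlv, if_pos h]
    have h' := h
    rw [hGv] at h'
    have := (hcf _ _ h').2 i
    simp only [hwv, hsvv]
    exact this
  have hE2 : E / 2 ^ X ≤ 1 / 2 := by
    rw [div_le_div_iff₀ hX (by norm_num)]
    linarith
  have l1 : ∀ v, 1 ≤ 2 * |l v (il v)| := by
    intro v
    by_cases h : Gv v
    · rw [hilv, if_pos h]
      have h1 := near v h (ia (v 0))
      have h2 := ha1 (v 0)
      have h3 := abs_sub_abs_le_abs_sub (la (v 0) (ia (v 0))) (l v (ia (v 0)))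
      linarith
    · rw [hilv, if_neg h, hlv, if_neg h, Pi.single_eq_same, abs_one]
      norm_num
  have l2 : ∀ v i, |l v i| ≤ 2 := by
    intro v i
    by_cases h : Gv v
    · have h1 := near v h i
      have h2 := ha2 (v 0) i
      have h3 := abs_sub_abs_le_abs_sub (l v i) (la (v 0) i)
      rw [abs_sub_comm] at h3
      linarith
    · rw [hlv, if_neg h, Pi.single_apply]
      split_ifs
      · rw [abs_one]
        norm_num
      · rw [abs_zero]
        norm_num
  have ld : Det q Z l := by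
    intro v v' hv hv' h
    rw [hlv, hlv, hGd v v' hv hv' h, dla v v' hv hv' h, h]
    have e1 : ∀ k, w k v = w k v' := fun k => dw k v v' hv hv' h
    simp only [e1]
  have ild : Det q Z il := by
    intro v v' hv hv' h
    rw [hilv, hilv, hGd v v' hv hv' h, dia v v' hv hv' h]
  have P0 : 0 ≤ Pb q (fun v => ¬ Gv v) := by
    unfold Pb
    exact Finset.sum_nonneg fun v _ => by
      split_ifs
      · exact q0 v
      · exact le_rfl
  have cb : ∀ k v, |c k v| ≤ bc m s K := by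
    intro k v
    have hm : (0 : ℝ) ≤ m := Nat.cast_nonneg _
    have h2s : (0 : ℝ) < 2 ^ s := by positivity
    rw [hcv]
    unfold bc
    by_cases h : Gv v
    · rw [if_pos h]
      have h' := h
      rw [hGv] at h'
      have c1 := (hcf _ _ h').1 k
      have c2 := ((hgv _ _).1 h').2 (sv k v) (ix fun j => (w k v j : ℝ))
      rw [← hwv] at c2
      rw [abs_div, abs_mul, abs_abs, abs_of_pos hX, div_le_iff₀ hX]
      have c3 := mul_le_mul c1 c2 (abs_nonneg _) h2s.le
      refine c3.trans ?_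
      have : 0 ≤ 4 * ((m : ℝ) + 1) * 2 ^ X := by positivity
      linarith
    · rw [if_neg h]
      have : 0 ≤ (2 : ℝ) ^ s * (2 * K) := by positivity
      split_ifs
      · rw [abs_one]
        linarith
      · rw [abs_zero]
        linarith
  have lc : ∀ v i, l v i = ∑ k, c k v * uv (Gv v) (w k v) i := by
    intro v i
    rw [hlv]
    by_cases h : Gv v
    · rw [if_pos h]
      refine Finset.sum_congr rfl fun k _ => ?_
      rw [hcv, if_pos h]
      unfold uv
      rw [if_pos h]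
      have h0 : |(w k v (ix fun j => (w k v j : ℝ)) : ℝ)| ≠ 0 :=
        abs_ne_zero.2 (by exact_mod_cast hwn k v h)
      field_simp
    · rw [if_neg h, Finset.sum_eq_single_of_mem (0 : Fin (m + 1)) (Finset.mem_univ _)]
      · rw [hcv, if_neg h, if_pos rfl, one_mul]
        unfold uv
        rw [if_neg h]
      · intro k _ hk
        rw [hcv, if_neg h, if_neg hk, zero_mul]
  have key := cmb_full (N := m) hql hK (fun v => a (v 0)) (fun v hv => ha _ ((hpos v hv).1 0)) Z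
    (fun k v => uv (Gv v) (w k v)) (fun k v => ui (Gv v) (w k v))
    (fun k v => (uv_le (Gv v) (fun h => hwn k v h)).1)
    (fun k v => (uv_le (Gv v) (fun h => hwn k v h)).2)
    (fun k v v' hv hv' h => by
      show uv (Gv v) (w k v) = uv (Gv v') (w k v')
      rw [hGd v v' hv hv' h, dw k v v' hv hv' h])
    (fun k v v' hv hv' h => by
      show ui (Gv v) (w k v) = ui (Gv v') (w k v')
      rw [hGd v v' hv hv' h, dw k v v' hv hv' h])
    l il l1 l2 ld ild c cb (by
      unfold bc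
      have : 0 ≤ (2 : ℝ) ^ s * (2 * K) := by positivity
      linarith) lc (by
      intro k
      exact dir k)
  have cmp := cell_cmp hql hK hE0 (fun v => a (v 0)) (fun v hv => ha _ ((hpos v hv).1 0)) Z Gv
    hGd l il l1 ld ild (fun v => la (v 0)) (fun v => ia (v 0)) (fun v => ha1 _)
    (fun v => ha2 _) (fun v v' hv hv' h => dla v v' hv hv' h)
    (fun v v' hv hv' h => dia v v' hv hv' h)
    (fun v h => ⟨by rw [hilv, if_pos h], near v h⟩)
  have i0 : Im q p (fun v => v 0) := by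
    rw [hq]
    exact im_tup h0 _ _ 0
  have fin1 := i0.CH a (fun ω => (prd (ia ω) (la ω) (a ω), W ω))
  have f1 := CH_le_add q0 (fun v => a (v 0)) (fun v => prd (ia (v 0)) (la (v 0)) (a (v 0)))
    (fun v => (cl (slab X {0} (Pm (il v) (l v))) (rl X (a (v 0))), Z v))
  have f2 := CH_mono_cond q0 (X := fun v => a (v 0))
    (W' := fun v => (prd (ia (v 0)) (la (v 0)) (a (v 0)),
      (cl (slab X {0} (Pm (il v) (l v))) (rl X (a (v 0))), Z v)))
    (W := fun v => (prd (ia (v 0)) (la (v 0)) (a (v 0)), W (v 0)))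
    (fun v v' _ _ h => by
      simp only [Prod.mk.injEq] at h ⊢
      exact ⟨h.1, hW v v' h.2.2⟩)
  rw [← fin1]
  unfold erA
  linarith

end Pool.TT37
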