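import Pool.Agent.H37.TT.Cnt
import Pool.Agent.H64.QUAD.Res
import Pool.Agent.H52.P4.Glue

/-!
# The affine slopes of a cell

`asq`: in the picture `qh` of a cell, small three-point vectors give own slopes which are affine in
the relative time, with coefficients which are functions of the line and the window.
-/

set_option autoImplicit false

namespace Pool.TT37

open Finset Real
open Pool.Agent.H49.Ent Pool.Agent.H32.Dense Pool.STK Pool.STAT Pool.P4
open Pool.BFL (Pb)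
open Pool.QT64 (QH d3)
open Pool.SLO (tup)

/-- The line of the picture is a function of the line and the window. -/
theorem line_lt {c k : ℕ} (D : NDat2) (J w z i j r X : ℕ) (C : ℝ) (P : D.Γ × D.Γ → ℕ → PN)
    (S : D.Ω → ℕ → ℕ → ℝ) (ys : Fin k → ℕ) (gs : Fin c → ℕ) (q : D.Ω → ℝ) {ω ω' : D.Ω}
    (h : Lt D J w i j r ω = Lt D J w i j r ω') :
    (qh (c := c) (k := k) D J w z i j r X C P S ys gs q).line ω =
      (qh (c := c) (k := k) D J w z i j r X C P S ys gs q).line ω' := by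
  unfold Lt NDat2.wn at h
  simp only [Prod.mk.injEq] at h
  obtain ⟨h1, h2, h3⟩ := h
  have ht : t0 D J w ω = t0 D J w ω' := by
    unfold t0
    rw [h3]
  have hz : ∀ t, zt D i j r P t ω = zt D i j r P t ω' := by
    intro t
    unfold zt
    rw [h1, h2]
  have hz0 : z0 D J w i j r P ω = z0 D J w i j r P ω' := by
    unfold z0
    rw [ht, hz]
  have hbe : be D J w i j r P ω = be D J w i j r P ω' := by
    unfold be
    rw [hz0, ht, hz]
  have hcb : cb D J w i j r ω = cb D J w i j r ω' := by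
    unfold cb
    rw [h1, h3]
  have hnu : nuv D J w z i j r X C P gs ω = nuv D J w z i j r X C P gs ω' := by
    unfold nuv
    rw [hz0]
  have hyv : yv D J w z i j r X C P ys ω = yv D J w z i j r X C P ys ω' := by
    unfold yv
    rw [hz0]
  have hbv : bev D J w z i j r X C P gs ω = bev D J w z i j r X C P gs ω' := by
    unfold bev
    rw [hbe]
  have hvv : Pool.P4.vv D J w z i j r X C P ys gs ω = Pool.P4.vv D J w z i j r X C P ys gs ω' := by
    unfold Pool.P4.vv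
    rw [hcb, hyv, hbv]
  unfold QH.line qh
  simp only
  rw [hnu, hvv, hcb]

/-- The coefficients as functions of a variable which determines the line. -/
theorem asq0 {c k : ℕ} {H : QH c k} {X : ℕ} {C' d s e δ₁ δ₂ : ℝ} (hok : H.OkNS X C' d)
    (hC' : 1 ≤ C') (hs : 0 < s) (hs1 : s ≤ 1) (he : 0 ≤ e)
    (h3 : Pb (tup H.res.p H.res.line 3) (fun v => ∃ u l,
      e < |d3 H.res.tau H.res.E u (H.res.th (v 1)) (H.res.th (v 2)) (H.res.th (v 3)) l|) ≤ δ₁)
    (hTM : H.TM X s δ₂) {Λ' : Type} (L : H.Ω → Λ') (hL : ∀ ω ω', L ω = L ω' → H.line ω = H.line ω') :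
    ∃ e0 e1 : Λ' → Fin k → Fin c → ℝ,
      (∀ x u a, |e0 x u a| ≤ 3 * C' / s ∧ |e1 x u a| * 2 ^ X ≤ 3 * C' / s) ∧
      Pb H.p (fun ω => ¬ ∀ u a, |H.E (H.th ω) u a - e0 (L ω) u a -
        e1 (L ω) u a * H.tau (H.th ω)| ≤ e / s) ≤ 2 * δ₁ + δ₂ := by
  classical
  have hr := Pool.QT64.res_okN hok
  have hTM' : H.res.TM X s δ₂ := by
    unfold QH.TM at hTM ⊢
    rw [Pool.QT64.res_tup]
    exact hTM
  obtain ⟨e0, e1, hb, hP⟩ := con_T (H := H.res) hr.law hr.tau_r hC' hr.E_b hs hs1 he h3 hTM'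
  -- a sample of the line
  obtain ⟨f, hf⟩ : ∃ f : Λ' → Option H.Ω, ∀ x, (∀ ω, L ω = x → ∃ ω', f x = some ω' ∧ L ω' = x) := by
    refine ⟨fun x => if h : ∃ ω, L ω = x then some h.choose else none, fun x ω hω => ?_⟩
    have h : ∃ ω, L ω = x := ⟨ω, hω⟩
    exact ⟨h.choose, dif_pos h, h.choose_spec⟩
  obtain ⟨F0, hF0⟩ : ∃ F0 : Λ' → Fin k → Fin c → ℝ, F0 = fun x u a =>
    match f x with
    | some ω => e0 (H.res.line ω) u a
    | none => 0 := ⟨_, rfl⟩
  obtain ⟨F1, hF1⟩ : ∃ F1 : Λ' → Fin k → Fin c → ℝ, F1 = fun x u a =>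
    match f x with
    | some ω => e1 (H.res.line ω) u a
    | none => 0 := ⟨_, rfl⟩
  have hbd : 0 ≤ 3 * C' / s := by positivity
  have h2 : 2 * C' / s ≤ 3 * C' / s := div_le_div_of_nonneg_right (by linarith) hs.le
  refine ⟨F0, F1, fun x u a => ⟨?_, ?_⟩, ?_⟩
  · rw [hF0]
    beta_reduce
    cases f x with
    | none => simpa using hbd
    | some ω => exact (hb _ u a).1
  · rw [hF1]
    beta_reduce
    cases f x with
    | none => simpa using hbd
    | some ω => exact (hb _ u a).2.trans h2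
  · have key : Pb H.p (fun ω => ¬ ∀ u a, |H.E (H.th ω) u a - F0 (L ω) u a -
        F1 (L ω) u a * H.tau (H.th ω)| ≤ e / s) ≤ Pb H.p (fun ω => ¬ ∀ u i,
          |H.res.E (H.res.th ω) u i - e0 (H.res.line ω) u i -
            e1 (H.res.line ω) u i * H.res.tau (H.res.th ω)| ≤ e / s) := by
      refine pb_mono hok.law.nonneg fun ω _ h1 h4 => h1 fun u a => ?_
      obtain ⟨ω', h5, h6⟩ := hf _ ω rfl
      have h8 : H.res.line ω' = H.res.line ω := (Pool.QT64.res_line _ ω' ω).2 (hL ω' ω h6)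
      have e5 : F0 (L ω) u a = e0 (H.res.line ω) u a := by
        rw [hF0]
        beta_reduce
        rw [h5, ← h8]
      have e6 : F1 (L ω) u a = e1 (H.res.line ω) u a := by
        rw [hF1]
        beta_reduce
        rw [h5, ← h8]
      rw [e5, e6]
      exact h4 u a
    exact key.trans hP

/-- **The slopes of a cell are affine in the time.** -/
theorem asq {c k : ℕ} {D : NDat2} {J w z i j r X : ℕ} {C : ℝ} {P : D.Γ × D.Γ → ℕ → PN}
    {S : D.Ω → ℕ → ℕ → ℝ} {ys : Fin k → ℕ} {gs : Fin c → ℕ} {q : D.Ω → ℝ} {C' d s e δ₁ δ₂ : ℝ}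
    (H : QH c k) (hH : H = qh (c := c) (k := k) D J w z i j r X C P S ys gs q)
    (hok : H.OkNS X C' d) (hC' : 1 ≤ C') (hs : 0 < s) (hs1 : s ≤ 1) (he : 0 ≤ e)
    (h3 : Pb (tup H.res.p H.res.line 3) (fun v => ∃ u l,
      e < |d3 H.res.tau H.res.E u (H.res.th (v 1)) (H.res.th (v 2)) (H.res.th (v 3)) l|) ≤ δ₁)
    (hTM : H.TM X s δ₂) :
    ∃ e0 e1 : LT D → Fin c → Fin k → ℝ,
      (∀ x u a, |e0 x u a| ≤ 3 * C' / s ∧ |e1 x u a| * 2 ^ X ≤ 3 * C' / s) ∧
      Pb q (fun ω => ¬ ∀ u a, |(Sv (c := c) (k := k) D z X C S ys gs ω u a : ℝ) / 2 ^ X -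
        e0 (Lt D J w i j r ω) u a -
        e1 (Lt D J w i j r ω) u a * ((tq J w X (D.T ω) : ℤ) : ℝ)| ≤ e / s) ≤ 2 * δ₁ + δ₂ := by
  subst hH
  obtain ⟨e0, e1, hb, hP⟩ := asq0 hok hC' hs hs1 he h3 hTM (Lt D J w i j r)
    fun ω ω' h => line_lt (c := c) (k := k) D J w z i j r X C P S ys gs q h
  refine ⟨fun x u a => e0 x a u, fun x u a => e1 x a u, fun x u a => hb x a u, le_trans ?_ hP⟩
  exact pb_mono (p := q) hok.law.nonneg fun ω _ h1 h4 => h1 fun u a => h4 a u

end Pool.TT37
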