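import Pool.Agent.H37.TT.Tsl

/-!
# Affine spaces carrying the velocity, and their dimensions at all scales

`Dg S D i` are the top `i` digits of `D`. `Cv`: given `C i`, the digits `i + r` lie near an affine
space of dimension at most `k`, off probability `eps`. `kk` is the least such `k`. `kk_mono`: it is
monotone in the box. `pig`: at one of `J` scales it is almost constant.
-/

set_option autoImplicit false

namespace Pool.TT37

open Finset Real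
open Pool.Agent.H49.Ent Pool.Agent.H32.Dense Pool.STK
open Pool.BFL (Pb)

section prob

variable {Ω T : Type} [Fintype Ω] {p : Ω → ℝ}

theorem pb_ex (p : Ω → ℝ) (A : Ω → Prop) :
    Pb p A = Ex p (fun ω => open Classical in if A ω then (1 : ℝ) else 0) := by
  classical
  unfold Pb Ex
  refine Finset.sum_congr rfl fun ω _ => ?_
  by_cases h : A ω
  · simp [h]
  · simp [h]

theorem pb_mono (h0 : ∀ ω, 0 ≤ p ω) {A B : Ω → Prop} (h : ∀ ω, 0 < p ω → A ω → B ω) :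
    Pb p A ≤ Pb p B := by
  classical
  rw [pb_ex, pb_ex]
  refine Ex_mono h0 fun ω hω => ?_
  by_cases ha : A ω
  · rw [if_pos ha, if_pos (h ω hω ha)]
  · rw [if_neg ha]
    split_ifs <;> norm_num

theorem pb_nonneg (h0 : ∀ ω, 0 ≤ p ω) (A : Ω → Prop) : 0 ≤ Pb p A := by
  classical
  unfold Pb
  refine Finset.sum_nonneg fun ω _ => ?_
  split_ifs
  · exact h0 ω
  · exact le_rfl

theorem pb_or (h0 : ∀ ω, 0 ≤ p ω) {A B C : Ω → Prop} (h : ∀ ω, 0 < p ω → C ω → A ω ∨ B ω) :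
    Pb p C ≤ Pb p A + Pb p B := by
  classical
  rw [pb_ex, pb_ex, pb_ex, ← Ex_add]
  refine Ex_mono h0 fun ω hω => ?_
  have k1 : (0 : ℝ) ≤ if A ω then 1 else 0 := by split_ifs <;> norm_num
  have k2 : (0 : ℝ) ≤ if B ω then 1 else 0 := by split_ifs <;> norm_num
  by_cases hc : C ω
  · rw [if_pos hc]
    rcases h ω hω hc with h1 | h1
    · rw [if_pos h1]
      linarith
    · rw [if_pos h1]
      linarith
  · rw [if_neg hc]
    linarith

/-- Markov. -/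
theorem markov (h0 : ∀ ω, 0 ≤ p ω) {f : Ω → ℝ} (hf : ∀ ω, 0 < p ω → 0 ≤ f ω) {a : ℝ}
    (ha : 0 < a) : Pb p (fun ω => a < f ω) ≤ Ex p f / a := by
  classical
  rw [le_div_iff₀ ha, pb_ex]
  have e1 : Ex p (fun ω => if a < f ω then (1 : ℝ) else 0) * a =
      Ex p (fun ω => a * (if a < f ω then (1 : ℝ) else 0)) := by
    unfold Ex
    rw [Finset.sum_mul]
    refine Finset.sum_congr rfl fun ω _ => ?_
    ring
  rw [e1]
  refine Ex_mono h0 fun ω hω => ?_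
  by_cases h : a < f ω
  · rw [if_pos h, mul_one]
    exact h.le
  · rw [if_neg h, mul_zero]
    exact hf ω hω

/-- The conditional probability. -/
noncomputable def Pc (p : Ω → ℝ) (X : Ω → T) (A : Ω → Prop) (ω : Ω) : ℝ := Pb (cond p X (X ω)) A

theorem pc_nonneg (h0 : ∀ ω, 0 ≤ p ω) (X : Ω → T) (A : Ω → Prop) (ω : Ω) : 0 ≤ Pc p X A ω :=
  pb_nonneg (fun ω' => cond_nonneg h0 X _ ω') A

theorem ex_pc (h0 : ∀ ω, 0 ≤ p ω) (X : Ω → T) (A : Ω → Prop) : Ex p (Pc p X A) = Pb p A := by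
  classical
  have h1 := Pool.RC21.Ex_cond h0 X (fun ω => if A ω then (1 : ℝ) else 0)
  rw [pb_ex, ← h1]
  unfold Ex Pc
  refine Finset.sum_congr rfl fun ω _ => ?_
  rw [pb_ex]
  rfl

end prob

section boxes

variable {Ω γ : Type} [Fintype Ω] {p : Ω → ℝ} {n : ℕ}

/-- The top `i` digits. -/
def Dg (S : ℕ) (D : Ω → Fin n → ℤ) (i : ℕ) (ω : Ω) (a : Fin n) : ℤ := D ω a / 2 ^ (S - i)

omit [Fintype Ω] in
theorem dg_div (S : ℕ) (D : Ω → Fin n → ℤ) {i i' : ℕ} (h : i ≤ i') (h' : i' ≤ S) (ω : Ω)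
    (a : Fin n) : Dg S D i ω a = Dg S D i' ω a / 2 ^ (i' - i) := by
  unfold Dg
  rw [Int.ediv_ediv_of_nonneg (by positivity), ← pow_add]
  congr 2
  omega

/-- Near an affine space. -/
def Nb (v : Fin n → ℝ) (V : Submodule ℝ (Fin n → ℝ)) (x : Fin n → ℤ) : Prop :=
  ∃ y ∈ V, ∀ a, |(x a : ℝ) - v a - y a| ≤ 2

theorem nb_div {v : Fin n → ℝ} {V : Submodule ℝ (Fin n → ℝ)} {x : Fin n → ℤ} (e : ℕ)
    (h : Nb v V x) : Nb (fun a => v a / 2 ^ e) V (fun a => x a / 2 ^ e) := by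
  obtain ⟨y, hy, h1⟩ := h
  rcases Nat.eq_zero_or_pos e with rfl | he
  · refine ⟨y, hy, fun a => ?_⟩
    simp only [pow_zero, div_one, Int.ediv_one]
    exact h1 a
  · have h2 : (2 : ℝ) ≤ 2 ^ e := by
      calc (2 : ℝ) = 2 ^ 1 := (pow_one 2).symm
        _ ≤ 2 ^ e := pow_le_pow_right₀ (by norm_num) he
    have hp : (0 : ℝ) < 2 ^ e := by positivity
    refine ⟨((2 : ℝ) ^ e)⁻¹ • y, V.smul_mem _ hy, fun a => ?_⟩
    have e1 : (((x a / 2 ^ e : ℤ) : ℤ) : ℝ) = ⌊(x a : ℝ) / 2 ^ e⌋ := by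
      have : ⌊((x a : ℤ) : ℝ) / ((2 ^ e : ℕ) : ℝ)⌋ = x a / ((2 ^ e : ℕ) : ℤ) := by
        rw [Int.floor_div_natCast, Int.floor_intCast]
      push_cast at this
      rw [this]
    have f1 := Int.floor_le ((x a : ℝ) / 2 ^ e)
    have f2 := Int.lt_floor_add_one ((x a : ℝ) / 2 ^ e)
    have h3 : |(x a : ℝ) / 2 ^ e - v a / 2 ^ e - ((2 : ℝ) ^ e)⁻¹ * y a| ≤ 1 := by
      have e2 : (x a : ℝ) / 2 ^ e - v a / 2 ^ e - ((2 : ℝ) ^ e)⁻¹ * y a =
          ((x a : ℝ) - v a - y a) / 2 ^ e := by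
        field_simp
      rw [e2, abs_div, abs_of_pos hp, div_le_one₀ hp]
      exact (h1 a).trans h2
    simp only [Pi.smul_apply, smul_eq_mul]
    rw [e1]
    rw [abs_le] at h3 ⊢
    constructor <;> linarith [h3.1, h3.2]

/-- Given `C i = z`, the digits `i + r` are near an affine space of dimension at most `k`. -/
def Cv (p : Ω → ℝ) (S : ℕ) (D : Ω → Fin n → ℤ) (C : ℕ → Ω → γ) (i r : ℕ) (ε : ℝ) (z : γ)
    (k : ℕ) : Prop :=
  ∃ (v : Fin n → ℝ) (V : Submodule ℝ (Fin n → ℝ)), Module.finrank ℝ V ≤ k ∧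
    Pb (cond p (C i) z) (fun ω => ¬ Nb v V (Dg S D (i + r) ω)) ≤ ε

theorem cv_top (p : Ω → ℝ) (S : ℕ) (D : Ω → Fin n → ℤ) (C : ℕ → Ω → γ) (i r : ℕ) {ε : ℝ}
    (hε : 0 ≤ ε) (z : γ) : Cv p S D C i r ε z n := by
  classical
  refine ⟨0, ⊤, ?_, ?_⟩
  · rw [finrank_top, Module.finrank_fin_fun]
  · have : ∀ ω, Nb (0 : Fin n → ℝ) ⊤ (Dg S D (i + r) ω) := fun ω =>
      ⟨fun a => (Dg S D (i + r) ω a : ℝ), Submodule.mem_top, fun a => by simp⟩
    unfold Pb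
    rw [Finset.sum_eq_zero]
    · exact hε
    · intro ω _
      rw [if_neg (fun h => h (this ω))]

open Classical in
/-- The dimension at a box. -/
noncomputable def kk (p : Ω → ℝ) (S : ℕ) (D : Ω → Fin n → ℤ) (C : ℕ → Ω → γ) (i r : ℕ) (ε : ℝ)
    (z : γ) : ℕ :=
  if h : ∃ k, Cv p S D C i r ε z k then Nat.find h else n

theorem kk_spec {S : ℕ} {D : Ω → Fin n → ℤ} {C : ℕ → Ω → γ} {i r : ℕ} {ε : ℝ} (hε : 0 ≤ ε)
    (z : γ) : Cv p S D C i r ε z (kk p S D C i r ε z) := by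
  classical
  have h : ∃ k, Cv p S D C i r ε z k := ⟨n, cv_top p S D C i r hε z⟩
  unfold kk
  rw [dif_pos h]
  exact Nat.find_spec h

theorem kk_le {S : ℕ} {D : Ω → Fin n → ℤ} {C : ℕ → Ω → γ} {i r : ℕ} {ε : ℝ} {z : γ} {k : ℕ}
    (h : Cv p S D C i r ε z k) : kk p S D C i r ε z ≤ k := by
  classical
  have h' : ∃ k, Cv p S D C i r ε z k := ⟨k, h⟩
  unfold kk
  rw [dif_pos h']
  exact Nat.find_min' h' h

theorem kk_le_n {S : ℕ} {D : Ω → Fin n → ℤ} {C : ℕ → Ω → γ} {i r : ℕ} {ε : ℝ} (hε : 0 ≤ ε)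
    (z : γ) : kk p S D C i r ε z ≤ n := kk_le (cv_top p S D C i r hε z)

/-- The best affine space at a box. -/
theorem kk_wit (p : Ω → ℝ) (S : ℕ) (D : Ω → Fin n → ℤ) (C : ℕ → Ω → γ) (i r : ℕ) {ε : ℝ}
    (hε : 0 ≤ ε) : ∃ (v : γ → Fin n → ℝ) (V : γ → Submodule ℝ (Fin n → ℝ)), ∀ z,
      Module.finrank ℝ (V z) ≤ kk p S D C i r ε z ∧
      Pb (cond p (C i) z) (fun ω => ¬ Nb (v z) (V z) (Dg S D (i + r) ω)) ≤ ε := by
  choose v V h using fun z => kk_spec (p := p) (S := S) (D := D) (C := C) (i := i) (r := r) hε z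
  exact ⟨v, V, h⟩

/-- The bad event of the large box has small probability, so it has small conditional probability
at most places of every box inside. -/
theorem sub_box (hp : IsLaw p) {S : ℕ} {D : Ω → Fin n → ℤ} {C : ℕ → Ω → γ} {i i' r r' : ℕ}
    {ε δ : ℝ} (hδ : 0 < δ) (hr : i' + r' ≤ i + r) (hS : i + r ≤ S)
    {v : γ → Fin n → ℝ} {V : γ → Submodule ℝ (Fin n → ℝ)}
    (h : ∀ z, Pb (cond p (C i) z) (fun ω => ¬ Nb (v z) (V z) (Dg S D (i + r) ω)) ≤ ε) :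
    Pb p (fun ω => δ < Pc p (C i') (fun ω => ¬ Nb (fun a => v (C i ω) a / 2 ^ (i + r - (i' + r')))
      (V (C i ω)) (Dg S D (i' + r') ω)) ω) ≤ ε / δ := by
  classical
  have h0 := hp.nonneg
  refine (markov h0 (fun ω _ => pc_nonneg h0 _ _ ω) hδ).trans ?_
  refine div_le_div_of_nonneg_right ?_ hδ.le
  rw [ex_pc h0]
  have h1 : Pb p (fun ω => ¬ Nb (fun a => v (C i ω) a / 2 ^ (i + r - (i' + r'))) (V (C i ω))
      (Dg S D (i' + r') ω)) ≤ Pb p (fun ω => ¬ Nb (v (C i ω)) (V (C i ω)) (Dg S D (i + r) ω)) := by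
    refine pb_mono h0 fun ω _ h2 h3 => h2 ?_
    have h4 := nb_div (i + r - (i' + r')) h3
    have e1 : (fun a => Dg S D (i + r) ω a / 2 ^ (i + r - (i' + r'))) = Dg S D (i' + r') ω := by
      funext a
      rw [dg_div S D hr hS]
    rw [e1] at h4
    exact h4
  refine h1.trans ?_
  rw [← ex_pc h0 (C i)]
  have h2 : Ex p (Pc p (C i) fun ω => ¬ Nb (v (C i ω)) (V (C i ω)) (Dg S D (i + r) ω)) ≤
      Ex p (fun _ => ε) := by
    refine Ex_mono h0 fun ω _ => ?_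
    refine le_trans ?_ (h (C i ω))
    refine pb_mono (fun ω' => cond_nonneg h0 (C i) _ ω') fun ω' hω' h3 => ?_
    rw [← (cond_pos h0 hω').1]
    exact h3
  rwa [Ex_const hp.sum_one] at h2

/-- **The dimension is monotone in the box.** -/
theorem kk_mono (hp : IsLaw p) {S : ℕ} {D : Ω → Fin n → ℤ} {C : ℕ → Ω → γ} {i i' r r' : ℕ}
    {ε δ : ℝ} (hε : 0 ≤ ε) (hδ : 0 < δ) (hr : i' + r' ≤ i + r) (hS : i + r ≤ S)
    (hC : Det p (C i') (C i)) :
    Pb p (fun ω => kk p S D C i r ε (C i ω) < kk p S D C i' r' δ (C i' ω)) ≤ ε / δ := by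
  classical
  have h0 := hp.nonneg
  obtain ⟨v, V, h⟩ := kk_wit p S D C i r hε
  refine le_trans (pb_mono h0 fun ω hω h1 => ?_) (sub_box hp hδ hr hS fun z => (h z).2)
  by_contra h2
  push Not at h2
  refine absurd h1 (not_lt.2 (kk_le ?_))
  refine ⟨fun a => v (C i ω) a / 2 ^ (i + r - (i' + r')), V (C i ω), (h (C i ω)).1, ?_⟩
  refine le_trans ?_ h2
  refine pb_mono (fun ω' => cond_nonneg h0 (C i') _ ω') fun ω' hω' h3 => ?_
  have h4 := cond_pos h0 hω'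
  rw [hC ω' ω h4.2 hω h4.1]
  exact h3

end boxes

end Pool.TT37
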