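import Pool.Agent.H64.POT.Ok
import Pool.Agent.H36.LBL.Fix
import Pool.Agent.H37.TT.Pig

/-!
# Small three-point vectors give affine slopes

`con_T`: if the three-point vectors `d3` of three abstract times of one line are small, and two
times of a line are far apart, then the slopes `E (th)` are affine functions of the real time with
coefficients which are functions of the line.
-/

set_option autoImplicit false

namespace Pool.TT37

open Finset Real
open Pool.Agent.H49.Ent Pool.Agent.H32.Dense Pool.STK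
open Pool.BFL (Pb)
open Pool.QT64 (QH d3)
open Pool.SLO (tup)

variable {c k : ℕ}

/-- The defect of the interpolation. -/
theorem d3_def {T : Type} (tau : T → ℤ) (E : T → Fin k → Fin c → ℝ) (u : Fin k) (i : Fin c)
    (t0 t1 t2 : T) {e x s : ℝ} (he : 0 ≤ e) (hs : 0 < s) (hx : 0 < x)
    (h02 : |(tau t0 : ℝ) - tau t2| ≤ x) (h12 : |(tau t1 : ℝ) - tau t2| ≤ x)
    (hsep : s * x ≤ |(tau t1 : ℝ) - tau t2|)
    (ha : |d3 tau E u t0 t1 t2 i| ≤ e) (hb : |d3 tau E u t1 t0 t2 i| ≤ e) :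
    |E t0 u i - E t2 u i - ((tau t0 : ℝ) - tau t2) / (tau t1 - tau t2) *
      (E t1 u i - E t2 u i)| ≤ e / s := by
  have hsx : 0 < s * x := mul_pos hs hx
  have h12p : 0 < |(tau t1 : ℝ) - tau t2| := lt_of_lt_of_le hsx hsep
  have h12n : ((tau t1 : ℝ) - tau t2) ≠ 0 := abs_pos.1 h12p
  have h12z : tau t1 ≠ tau t2 := by
    intro h
    rw [h, sub_self] at h12n
    exact h12n rfl
  have hcast : ∀ a b : ℤ, ((|a - b| : ℤ) : ℝ) = |(a : ℝ) - b| := fun a b => by push_cast; rfl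
  by_cases h : |(tau t0 : ℝ) - tau t2| ≤ |(tau t1 : ℝ) - tau t2|
  · have hz : |tau t0 - tau t2| ≤ |tau t1 - tau t2| := by
      rw [← hcast, ← hcast] at h
      exact_mod_cast h
    unfold d3 at ha
    rw [if_pos ⟨h12z, hz⟩] at ha
    refine ha.trans ?_
    rw [le_div_iff₀ hs]
    have hs1 : s ≤ 1 := by
      by_contra hcon
      push Not at hcon
      nlinarith
    nlinarith
  · push Not at h
    have hz : |tau t1 - tau t2| ≤ |tau t0 - tau t2| := by
      have h' := h.le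
      rw [← hcast, ← hcast] at h'
      exact_mod_cast h'
    have h02p : 0 < |(tau t0 : ℝ) - tau t2| := h12p.trans h
    have h02n : ((tau t0 : ℝ) - tau t2) ≠ 0 := abs_pos.1 h02p
    have h02z : tau t0 ≠ tau t2 := by
      intro h'
      rw [h', sub_self] at h02n
      exact h02n rfl
    unfold d3 at hb
    rw [if_pos ⟨h02z, hz⟩] at hb
    have e1 : E t0 u i - E t2 u i - ((tau t0 : ℝ) - tau t2) / (tau t1 - tau t2) *
        (E t1 u i - E t2 u i) = -(((tau t0 : ℝ) - tau t2) / (tau t1 - tau t2)) *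
        (E t1 u i - E t2 u i - ((tau t1 : ℝ) - tau t2) / (tau t0 - tau t2) *
          (E t0 u i - E t2 u i)) := by
      field_simp
      ring
    rw [e1, abs_mul, abs_neg, abs_div]
    have h5 : |(tau t0 : ℝ) - tau t2| / |(tau t1 : ℝ) - tau t2| ≤ 1 / s := by
      rw [div_le_div_iff₀ h12p hs, one_mul]
      nlinarith
    calc |(tau t0 : ℝ) - tau t2| / |(tau t1 : ℝ) - tau t2| *
        |E t1 u i - E t2 u i - ((tau t1 : ℝ) - tau t2) / (tau t0 - tau t2) *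
          (E t0 u i - E t2 u i)| ≤ 1 / s * e :=
          mul_le_mul h5 hb (abs_nonneg _) (by positivity)
      _ = e / s := by ring

theorem pb_compl {Ω : Type} [Fintype Ω] {p : Ω → ℝ} (hp : IsLaw p) (A : Ω → Prop) :
    Pb p A = 1 - Pb p (fun ω => ¬ A ω) := by
  classical
  unfold Pb
  rw [eq_sub_iff_add_eq, ← Finset.sum_add_distrib, ← hp.sum_one]
  refine Finset.sum_congr rfl fun ω _ => ?_
  by_cases h : A ω
  · rw [if_pos h, if_neg (not_not.2 h), add_zero]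
  · rw [if_neg h, if_pos h, zero_add]

/-- **Small three-point vectors give affine slopes.** -/
theorem con_T {H : QH c k} (hl : IsLaw H.p) {X : ℕ} (ht : ∀ t, 0 ≤ H.tau t ∧ H.tau t < 2 ^ X)
    {C : ℝ} (hC : 1 ≤ C) (hE : ∀ t u i, |H.E t u i| ≤ C) {s e δ₁ δ₂ : ℝ} (hs : 0 < s)
    (hs1 : s ≤ 1) (he : 0 ≤ e)
    (h3 : Pb (tup H.p H.line 3) (fun w => ∃ u i,
      e < |d3 H.tau H.E u (H.th (w 1)) (H.th (w 2)) (H.th (w 3)) i|) ≤ δ₁)
    (hTM : H.TM X s δ₂) :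
    ∃ e0 e1 : (Fin c → ℤ) × (H.Vt × H.B) → Fin k → Fin c → ℝ,
      (∀ z u i, |e0 z u i| ≤ 3 * C / s ∧ |e1 z u i| * 2 ^ X ≤ 2 * C / s) ∧
      Pb H.p (fun ω => ¬ ∀ u i, |H.E (H.th ω) u i - e0 (H.line ω) u i -
        e1 (H.line ω) u i * H.tau (H.th ω)| ≤ e / s) ≤ 2 * δ₁ + δ₂ := by
  classical
  have h0 := hl.nonneg
  have hX : (0 : ℝ) < 2 ^ X := by positivity
  have q0 := Pool.SLO.tup_isLaw hl H.line 2
  -- the bad event of a triple
  obtain ⟨Bd, hBd⟩ : ∃ Bd : H.Tt → H.Tt → H.Tt → Prop, Bd = fun t0 t1 t2 => ∃ u i,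
    e < |d3 H.tau H.E u t0 t1 t2 i| := ⟨_, rfl⟩
  have hBv : ∀ t0 t1 t2, Bd t0 t1 t2 ↔ ∃ u i, e < |d3 H.tau H.E u t0 t1 t2 i| := fun t0 t1 t2 => by
    rw [hBd]
  have m1 : ∀ σ : Fin 3 → Fin 4, Function.Injective σ → ∀ A : (Fin 3 → H.Ω) → Prop,
      Pb (tup H.p H.line 3) (fun v => A (v ∘ σ)) = Pb (tup H.p H.line 2) A := fun σ hσ A =>
    Pool.LBL.pmarg (Pool.SLO.tup_sub h0 H.line σ hσ) A
  have b1 : Pb (tup H.p H.line 2) (fun v => Bd (H.th (v 0)) (H.th (v 1)) (H.th (v 2))) ≤ δ₁ := by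
    rw [← m1 ![1, 2, 3] (by decide)]
    refine le_trans (le_of_eq ?_) h3
    congr 1
    funext v
    rw [hBd]
    rfl
  have b2 : Pb (tup H.p H.line 2) (fun v => Bd (H.th (v 1)) (H.th (v 0)) (H.th (v 2))) ≤ δ₁ := by
    rw [← m1 ![2, 1, 3] (by decide)]
    refine le_trans (le_of_eq ?_) h3
    congr 1
    funext v
    rw [hBd]
    rfl
  have b3 : Pb (tup H.p H.line 2) (fun v =>
      |((H.tau (H.th (v 1)) - H.tau (H.th (v 2)) : ℤ) : ℝ)| ≤ s * 2 ^ X) ≤ δ₂ := by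
    have m2 := Pool.LBL.pmarg (Pool.SLO.tup_sub h0 H.line (M := 1) (N := 2) ![1, 2] (by decide))
      (fun w => |((H.tau (H.th (w 0)) - H.tau (H.th (w 1)) : ℤ) : ℝ)| ≤ s * 2 ^ X)
    refine le_trans (le_of_eq ?_) hTM
    exact m2
  -- the good event
  obtain ⟨Φ, hΦ⟩ : ∃ Φ : (Fin 3 → H.Ω) → Prop, Φ = fun v =>
    ¬ Bd (H.th (v 0)) (H.th (v 1)) (H.th (v 2)) ∧ ¬ Bd (H.th (v 1)) (H.th (v 0)) (H.th (v 2)) ∧
      s * 2 ^ X < |((H.tau (H.th (v 1)) - H.tau (H.th (v 2)) : ℤ) : ℝ)| := ⟨_, rfl⟩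
  have b4 : Pb (tup H.p H.line 2) (fun v => ¬ Φ v) ≤ 2 * δ₁ + δ₂ := by
    refine (pb_or q0.nonneg (A := fun v => Bd (H.th (v 0)) (H.th (v 1)) (H.th (v 2)) ∨
      Bd (H.th (v 1)) (H.th (v 0)) (H.th (v 2))) (B := fun v =>
      |((H.tau (H.th (v 1)) - H.tau (H.th (v 2)) : ℤ) : ℝ)| ≤ s * 2 ^ X) fun v _ hv => ?_).trans ?_
    · rw [hΦ] at hv
      by_contra hcon
      push Not at hcon
      exact hv ⟨hcon.1.1, hcon.1.2, hcon.2⟩
    · have b5 := pb_or q0.nonneg (A := fun v => Bd (H.th (v 0)) (H.th (v 1)) (H.th (v 2)))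
        (B := fun v => Bd (H.th (v 1)) (H.th (v 0)) (H.th (v 2)))
        (C := fun v => Bd (H.th (v 0)) (H.th (v 1)) (H.th (v 2)) ∨
          Bd (H.th (v 1)) (H.th (v 0)) (H.th (v 2))) fun v _ hv => hv
      linarith
  obtain ⟨f, hf1, hf2⟩ := Pool.LBL.tup_fix hl H.line 2 Φ
  -- the coefficients
  obtain ⟨g1, hg1⟩ : ∃ g1 : H.Tt → H.Tt → Fin k → Fin c → ℝ, g1 = fun t1 t2 u i =>
    if s * 2 ^ X < |((H.tau t1 - H.tau t2 : ℤ) : ℝ)| then
      (H.E t1 u i - H.E t2 u i) / ((H.tau t1 : ℝ) - H.tau t2) else 0 := ⟨_, rfl⟩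
  have hg1b : ∀ t1 t2 u i, |g1 t1 t2 u i| * 2 ^ X ≤ 2 * C / s := by
    intro t1 t2 u i
    rw [hg1]
    beta_reduce
    split_ifs with hsep
    · push_cast at hsep
      have hp : 0 < |(H.tau t1 : ℝ) - H.tau t2| := lt_of_le_of_lt (by positivity) hsep
      rw [abs_div, div_mul_eq_mul_div, div_le_div_iff₀ hp hs]
      have h5 : |H.E t1 u i - H.E t2 u i| ≤ 2 * C := by
        refine (abs_sub _ _).trans ?_
        linarith [hE t1 u i, hE t2 u i]
      calc |H.E t1 u i - H.E t2 u i| * 2 ^ X * s ≤ 2 * C * 2 ^ X * s := by gcongr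
        _ = 2 * C * (s * 2 ^ X) := by ring
        _ ≤ 2 * C * |(H.tau t1 : ℝ) - H.tau t2| :=
            mul_le_mul_of_nonneg_left hsep.le (by linarith)
    · rw [abs_zero, zero_mul]
      positivity
  refine ⟨fun z u i => H.E (H.th (f z 1)) u i - g1 (H.th (f z 0)) (H.th (f z 1)) u i *
    H.tau (H.th (f z 1)), fun z u i => g1 (H.th (f z 0)) (H.th (f z 1)) u i, fun z u i =>
    ⟨?_, hg1b _ _ _ _⟩, ?_⟩
  · have h5 := hg1b (H.th (f z 0)) (H.th (f z 1)) u i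
    have h6 := ht (H.th (f z 1))
    have h7 : |(H.tau (H.th (f z 1)) : ℝ)| ≤ 2 ^ X := by
      rw [abs_of_nonneg (by exact_mod_cast h6.1)]
      exact_mod_cast h6.2.le
    refine (abs_sub _ _).trans ?_
    rw [abs_mul]
    have h8 : C ≤ C / s := by
      rw [le_div_iff₀ hs]
      nlinarith
    have h9 : |g1 (H.th (f z 0)) (H.th (f z 1)) u i| * |(H.tau (H.th (f z 1)) : ℝ)| ≤
        2 * C / s := (mul_le_mul_of_nonneg_left h7 (abs_nonneg _)).trans h5
    have h10 : 3 * C / s = C / s + 2 * C / s := by ring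
    rw [h10]
    linarith [hE (H.th (f z 1)) u i]
  · have c1 := pb_compl q0 Φ
    have c2 := pb_compl hl (fun ω => Φ (Fin.cons ω (f (H.line ω))))
    have c3 : Pb H.p (fun ω => ¬ Φ (Fin.cons ω (f (H.line ω)))) ≤ 2 * δ₁ + δ₂ := by linarith
    refine (pb_mono h0 (B := fun ω => ¬ Φ (Fin.cons ω (f (H.line ω))))
      fun ω _ hω hgood => hω ?_).trans c3
    rw [hΦ] at hgood
    obtain ⟨g1a, g2a, g3a⟩ := hgood
    rw [hBv] at g1a g2a
    push Not at g1a g2a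
    intro u i
    have k0 : (Fin.cons ω (f (H.line ω)) : Fin 3 → H.Ω) 0 = ω := rfl
    have k1 : (Fin.cons ω (f (H.line ω)) : Fin 3 → H.Ω) 1 = f (H.line ω) 0 := rfl
    have k2 : (Fin.cons ω (f (H.line ω)) : Fin 3 → H.Ω) 2 = f (H.line ω) 1 := rfl
    rw [k1, k2] at g3a
    have g1b := g1a u i
    have g2b := g2a u i
    rw [k0, k1, k2] at g1b g2b
    have h02 : ∀ t t' : H.Tt, |(H.tau t : ℝ) - H.tau t'| ≤ 2 ^ X := by
      intro t t'
      have h6 := ht t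
      have h7 := ht t'
      have h6a : (0 : ℝ) ≤ H.tau t := by exact_mod_cast h6.1
      have h6b : (H.tau t : ℝ) ≤ 2 ^ X := by exact_mod_cast h6.2.le
      have h7a : (0 : ℝ) ≤ H.tau t' := by exact_mod_cast h7.1
      have h7b : (H.tau t' : ℝ) ≤ 2 ^ X := by exact_mod_cast h7.2.le
      rw [abs_le]
      constructor <;> linarith
    have g4 := g3a
    push_cast at g4
    have key := d3_def H.tau H.E u i (H.th ω) (H.th (f (H.line ω) 0)) (H.th (f (H.line ω) 1)) he hs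
      hX (h02 _ _) (h02 _ _) g4.le g1b g2b
    have e5 : g1 (H.th (f (H.line ω) 0)) (H.th (f (H.line ω) 1)) u i =
        (H.E (H.th (f (H.line ω) 0)) u i - H.E (H.th (f (H.line ω) 1)) u i) /
          ((H.tau (H.th (f (H.line ω) 0)) : ℝ) - H.tau (H.th (f (H.line ω) 1))) := by
      rw [hg1]
      beta_reduce
      rw [if_pos g3a]
    beta_reduce
    rw [e5]
    refine le_trans (le_of_eq ?_) key
    congr 1
    ring

end Pool.TT37
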