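import Pool.Agent.H21.POT.Lin
import Pool.Agent.H55.GEN.Ext

/-!
# Coupled copies of a line through one point

`a`, `b` are the target at the times `T`, `t`, `d` is the velocity, `W` the context with the time
`T`. The samples of `tup p (Ln b t W) N` have the same `b`, `t`, `W`. `cop_time`: the time `t` is full
given the velocities of all samples and the target `a` of one of them.
-/

set_option autoImplicit false

namespace Pool.TT37

open Finset Real
open Pool.Agent.H49.Ent Pool.Agent.H32.Dense Pool.STK Pool.POT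
open Pool.SLO (tup tup_nonneg tup_pos_iff tup_CH tup_CH_le tup_isLaw)

variable {Ω α β δ τ γ : Type} [Fintype Ω] {p : Ω → ℝ}

/-- The line of the coupled copies. -/
def Ln (b : Ω → β) (t : Ω → τ) (W : Ω → γ) (ω : Ω) : β × (τ × γ) := (b ω, (t ω, W ω))

theorem ln_eq (hp : ∀ ω, 0 ≤ p ω) {b : Ω → β} {t : Ω → τ} {W : Ω → γ} {N : ℕ}
    {v : Fin (N + 1) → Ω} (hv : 0 < tup p (Ln b t W) N v) (j : Fin (N + 1)) :
    b (v j) = b (v 0) ∧ t (v j) = t (v 0) ∧ W (v j) = W (v 0) := by
  have h := ((tup_pos_iff hp _ N v).1 hv).2 j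
  simp only [Ln, Prod.mk.injEq] at h
  exact h

/-- **The second time is full** given the velocities of the copies and one point. -/
theorem cop_time (hp : IsLaw p) (a : Ω → α) (b : Ω → β) (d : Ω → δ) (t : Ω → τ) (W : Ω → γ)
    (N : ℕ) (k : Fin (N + 1)) {c0 : ℝ}
    (hc : CH p b (fun ω => (a ω, (d ω, (t ω, W ω)))) ≤ c0) :
    CH p t W - ((N + 1) * (MI p d t W + 2 * MI p d b (fun ω => (t ω, W ω))) +
      (CH p a W - CH p b (fun ω => (t ω, W ω))) + c0) ≤
      CH (tup p (Ln b t W) N) (fun v => t (v 0))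
        (fun v => (a (v k), ((fun j => d (v j)), W (v 0)))) := by
  obtain ⟨q, hq⟩ : ∃ q, q = tup p (Ln b t W) N := ⟨_, rfl⟩
  have h0 := hp.nonneg
  have q0 : ∀ v, 0 ≤ q v := fun v => by
    rw [hq]
    exact tup_nonneg h0 _ N v
  have e1 := tup_CH h0 (Ln b t W) d N
  have e2 := tup_CH_le h0 (Ln b t W) d (fun z => z.2.2) N
  have e3 := tup_CH_le h0 (Ln b t W) d (fun z => z.2) N
  rw [← hq] at e1 e2 e3 ⊢
  have e1' : CH q (fun v j => d (v j)) (fun v => (b (v 0), (t (v 0), W (v 0)))) =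
      (N + 1) * CH p d (fun ω => (b ω, (t ω, W ω))) := e1
  have e2' : CH q (fun v j => d (v j)) (fun v => W (v 0)) ≤ (N + 1) * CH p d W := e2
  have e3' : CH q (fun v j => d (v j)) (fun v => (t (v 0), W (v 0))) ≤
      (N + 1) * CH p d (fun ω => (t ω, W ω)) := e3
  have i0 : Im q p (fun v => v 0) := by
    rw [hq]
    exact im_tup h0 _ N 0
  have ik : Im q p (fun v => v k) := by
    rw [hq]
    exact im_tup h0 _ N k
  have m1 : CH q (fun v => t (v 0)) (fun v => W (v 0)) = CH p t W := i0.CH t W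
  have m2 : CH q (fun v => b (v 0)) (fun v => (t (v 0), W (v 0))) =
      CH p b (fun ω => (t ω, W ω)) := i0.CH b (fun ω => (t ω, W ω))
  have hs : ∀ v, 0 < q v → b (v k) = b (v 0) ∧ t (v k) = t (v 0) ∧ W (v k) = W (v 0) := by
    intro v hv
    rw [hq] at hv
    exact ln_eq h0 hv k
  have m3 : CH q (fun v => a (v k)) (fun v => W (v 0)) = CH p a W := by
    rw [← ik.CH a W]
    refine CH_congr q0 (fun _ _ _ _ h => (Prod.ext_iff.1 h).1)
      (fun _ _ _ _ h => (Prod.ext_iff.1 h).1) ?_ ?_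
    · intro v v' hv hv' h
      show W (v k) = W (v' k)
      rw [(hs v hv).2.2, (hs v' hv').2.2]
      exact h
    · intro v v' hv hv' h
      have h' : W (v k) = W (v' k) := h
      rw [(hs v hv).2.2, (hs v' hv').2.2] at h'
      exact h'
  have m4 : CH q (fun v => b (v 0)) (fun v => (a (v k), (t (v 0), ((fun j => d (v j)), W (v 0))))) ≤
      c0 := by
    have k1 := ik.CH b (fun ω => (a ω, (d ω, (t ω, W ω))))
    have k2 : CH q (fun v => b (v 0)) (fun v => (a (v k), (t (v 0), ((fun j => d (v j)),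
        W (v 0))))) ≤ CH q (fun v => b (v k)) (fun v => (a (v k), (d (v k), (t (v k),
        W (v k))))) := by
      have k3 : CH q (fun v => b (v 0)) (fun v => (a (v k), (d (v k), (t (v k), W (v k))))) =
          CH q (fun v => b (v k)) (fun v => (a (v k), (d (v k), (t (v k), W (v k))))) := by
        refine CH_congr q0 ?_ ?_ (fun _ _ _ _ h => h) (fun _ _ _ _ h => h)
        · intro v v' hv hv' h
          have h1 : b (v 0) = b (v' 0) := (Prod.ext_iff.1 h).1
          show b (v k) = b (v' k)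
          rw [(hs v hv).1, (hs v' hv').1, h1]
        · intro v v' hv hv' h
          have h1 : b (v k) = b (v' k) := (Prod.ext_iff.1 h).1
          show b (v 0) = b (v' 0)
          rw [← (hs v hv).1, ← (hs v' hv').1, h1]
      rw [← k3]
      refine CH_mono_cond q0 ?_
      intro v v' hv hv' h
      simp only [Prod.mk.injEq] at h ⊢
      refine ⟨h.1, congrFun h.2.2.1 k, ?_, ?_⟩
      · rw [(hs v hv).2.1, (hs v' hv').2.1]
        exact h.2.1
      · rw [(hs v hv).2.2, (hs v' hv').2.2]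
        exact h.2.2.2
    exact k2.trans (k1.le.trans hc)
  -- the chain rules
  have r1 := CH_chain q0 (fun v => t (v 0)) (fun v => a (v k))
    (fun v => ((fun j => d (v j)), W (v 0)))
  have r1' := CH_chain q0 (fun v => a (v k)) (fun v => t (v 0))
    (fun v => ((fun j => d (v j)), W (v 0)))
  have s1 : CH q (fun v => (t (v 0), a (v k))) (fun v => ((fun j => d (v j)), W (v 0))) =
      CH q (fun v => (a (v k), t (v 0))) (fun v => ((fun j => d (v j)), W (v 0))) :=
    CH_congr q0 (fun _ _ _ _ h => by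
      simp only [Prod.mk.injEq] at h ⊢
      exact ⟨h.1.2, h.1.1⟩) (fun _ _ _ _ h => by
      simp only [Prod.mk.injEq] at h ⊢
      exact ⟨h.1.2, h.1.1⟩) (fun _ _ _ _ h => h) (fun _ _ _ _ h => h)
  have r2 := CH_chain q0 (fun v => t (v 0)) (fun v j => d (v j)) (fun v => W (v 0))
  have r2' := CH_chain q0 (fun v j => d (v j)) (fun v => t (v 0)) (fun v => W (v 0))
  have s2 : CH q (fun v => (t (v 0), fun j => d (v j))) (fun v => W (v 0)) =
      CH q (fun v => ((fun j => d (v j)), t (v 0))) (fun v => W (v 0)) :=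
    CH_congr q0 (fun _ _ _ _ h => by
      simp only [Prod.mk.injEq] at h ⊢
      exact ⟨h.1.2, h.1.1⟩) (fun _ _ _ _ h => by
      simp only [Prod.mk.injEq] at h ⊢
      exact ⟨h.1.2, h.1.1⟩) (fun _ _ _ _ h => h) (fun _ _ _ _ h => h)
  have r3 := CH_chain q0 (fun v => b (v 0)) (fun v j => d (v j)) (fun v => (t (v 0), W (v 0)))
  have r3' := CH_chain q0 (fun v j => d (v j)) (fun v => b (v 0)) (fun v => (t (v 0), W (v 0)))
  have s3 : CH q (fun v => (b (v 0), fun j => d (v j))) (fun v => (t (v 0), W (v 0))) =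
      CH q (fun v => ((fun j => d (v j)), b (v 0))) (fun v => (t (v 0), W (v 0))) :=
    CH_congr q0 (fun _ _ _ _ h => by
      simp only [Prod.mk.injEq] at h ⊢
      exact ⟨h.1.2, h.1.1⟩) (fun _ _ _ _ h => by
      simp only [Prod.mk.injEq] at h ⊢
      exact ⟨h.1.2, h.1.1⟩) (fun _ _ _ _ h => h) (fun _ _ _ _ h => h)
  have u1 := CH_mono_cond q0 (X := fun v => a (v k)) (W' := fun v => ((fun j => d (v j)), W (v 0)))
    (W := fun v => W (v 0)) (fun _ _ _ _ h => (Prod.ext_iff.1 h).2)
  have u2 := CH_le_add q0 (fun v => b (v 0)) (fun v => a (v k))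
    (fun v => (t (v 0), ((fun j => d (v j)), W (v 0))))
  have u3 : CH q (fun v => b (v 0)) (fun v => ((fun j => d (v j)), (t (v 0), W (v 0)))) =
      CH q (fun v => b (v 0)) (fun v => (t (v 0), ((fun j => d (v j)), W (v 0)))) :=
    CH_congr q0 (fun _ _ _ _ h => (Prod.ext_iff.1 h).1) (fun _ _ _ _ h => (Prod.ext_iff.1 h).1)
      (fun _ _ _ _ h => by
        simp only [Prod.mk.injEq] at h ⊢
        exact ⟨h.2.1, h.1, h.2.2⟩) (fun _ _ _ _ h => by
        simp only [Prod.mk.injEq] at h ⊢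
        exact ⟨h.2.1, h.1, h.2.2⟩)
  have u4 := CH_mono_cond q0 (X := fun v j => d (v j))
    (W' := fun v => (b (v 0), (t (v 0), W (v 0)))) (W := fun v => (t (v 0), W (v 0)))
    (fun _ _ _ _ h => (Prod.ext_iff.1 h).2)
  have x1 : MI p d t W = CH p d W - CH p d (fun ω => (t ω, W ω)) := rfl
  have x2 : MI p d b (fun ω => (t ω, W ω)) = CH p d (fun ω => (t ω, W ω)) -
      CH p d (fun ω => (b ω, (t ω, W ω))) := rfl
  have x3 : ((N : ℝ) + 1) * (MI p d t W + 2 * MI p d b (fun ω => (t ω, W ω))) =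
      ((N + 1) * CH p d W - (N + 1) * CH p d (fun ω => (b ω, (t ω, W ω)))) +
      ((N + 1) * CH p d (fun ω => (t ω, W ω)) -
        (N + 1) * CH p d (fun ω => (b ω, (t ω, W ω)))) := by
    rw [x1, x2]
    ring
  rw [x3]
  linarith

end Pool.TT37
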