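import Pool.Agent.H5.FAD.Frm

/-!
# The frame with a given first column

`Pm u` is a matrix with first column `u`, the others are vectors of the standard basis. Its inverse
is `Pi u`, its determinant is plus or minus the largest entry of `u`.
-/

set_option autoImplicit false

namespace Pool.TT37

open Finset Real Matrix
open Pool.FAD

variable {m : ℕ}

/-- An index of the largest entry. -/
theorem ix_ex (u : Fin (m + 1) → ℝ) : ∃ i, ∀ j, |u j| ≤ |u i| := by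
  obtain ⟨i, _, h⟩ := Finset.exists_max_image Finset.univ (fun j => |u j|)
    ⟨(0 : Fin (m + 1)), Finset.mem_univ _⟩
  exact ⟨i, fun j => h j (Finset.mem_univ _)⟩

noncomputable def ix (u : Fin (m + 1) → ℝ) : Fin (m + 1) := (ix_ex u).choose

theorem ix_le (u : Fin (m + 1) → ℝ) (j : Fin (m + 1)) : |u j| ≤ |u (ix u)| :=
  (ix_ex u).choose_spec j

/-- The identity with the column `i0` replaced by `u`. -/
noncomputable def Mm (i0 : Fin (m + 1)) (u : Fin (m + 1) → ℝ) :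
    Matrix (Fin (m + 1)) (Fin (m + 1)) ℝ :=
  (1 : Matrix (Fin (m + 1)) (Fin (m + 1)) ℝ).updateCol i0 u

/-- The inverse of `Mm i0 u`. -/
noncomputable def Nm (i0 : Fin (m + 1)) (u : Fin (m + 1) → ℝ) :
    Matrix (Fin (m + 1)) (Fin (m + 1)) ℝ :=
  (1 : Matrix (Fin (m + 1)) (Fin (m + 1)) ℝ).updateCol i0
    (fun i => if i = i0 then (u i0)⁻¹ else -(u i * (u i0)⁻¹))

/-- The frame with first column `u`. -/
noncomputable def Pm (i0 : Fin (m + 1)) (u : Fin (m + 1) → ℝ) :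
    Matrix (Fin (m + 1)) (Fin (m + 1)) ℝ :=
  fun i j => Mm i0 u i (Equiv.swap 0 i0 j)

/-- Its inverse. -/
noncomputable def Pv (i0 : Fin (m + 1)) (u : Fin (m + 1) → ℝ) :
    Matrix (Fin (m + 1)) (Fin (m + 1)) ℝ :=
  fun i j => Nm i0 u (Equiv.swap 0 i0 i) j

/-- A product with the identity with a changed column. -/
theorem upd_mul (i0 : Fin (m + 1)) (u x : Fin (m + 1) → ℝ) (i : Fin (m + 1)) :
    ((1 : Matrix (Fin (m + 1)) (Fin (m + 1)) ℝ).updateCol i0 u *ᵥ x) i =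
      (if i = i0 then 0 else x i) + u i * x i0 := by
  unfold Matrix.mulVec dotProduct
  rw [← Finset.add_sum_erase _ _ (Finset.mem_univ i0)]
  have h1 : ∑ j ∈ Finset.univ.erase i0, (1 : Matrix (Fin (m + 1)) (Fin (m + 1)) ℝ).updateCol
      i0 u i j * x j = if i = i0 then 0 else x i := by
    by_cases hi : i = i0
    · rw [if_pos hi]
      refine Finset.sum_eq_zero fun j hj => ?_
      rw [Matrix.updateCol_ne (Finset.ne_of_mem_erase hj), Matrix.one_apply_ne, zero_mul]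
      rw [hi]
      exact (Finset.ne_of_mem_erase hj).symm
    · rw [if_neg hi, Finset.sum_eq_single_of_mem i (Finset.mem_erase.2 ⟨hi, Finset.mem_univ _⟩)]
      · rw [Matrix.updateCol_ne hi, Matrix.one_apply_eq, one_mul]
      · intro j hj hji
        rw [Matrix.updateCol_ne (Finset.ne_of_mem_erase hj), Matrix.one_apply_ne hji.symm, zero_mul]
  beta_reduce
  rw [h1, Matrix.updateCol_self]
  ring

theorem Nm_mul (i0 : Fin (m + 1)) (u x : Fin (m + 1) → ℝ) (i : Fin (m + 1)) :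
    (Nm i0 u *ᵥ x) i =
      if i = i0 then (u i0)⁻¹ * x i0 else x i - u i * (u i0)⁻¹ * x i0 := by
  unfold Nm
  rw [upd_mul]
  by_cases hi : i = i0
  · rw [if_pos hi, if_pos hi, if_pos hi]
    ring
  · rw [if_neg hi, if_neg hi, if_neg hi]
    ring

theorem MN {i0 : Fin (m + 1)} {u : Fin (m + 1) → ℝ} (hu : u i0 ≠ 0) : Mm i0 u * Nm i0 u = 1 := by
  refine Matrix.ext_of_mulVec_single fun j => ?_
  rw [← Matrix.mulVec_mulVec, Matrix.one_mulVec]
  funext i
  unfold Mm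
  rw [upd_mul, Nm_mul, Nm_mul, if_pos rfl]
  by_cases hi : i = i0
  · rw [if_pos hi, hi, zero_add, ← mul_assoc, mul_inv_cancel₀ hu, one_mul]
  · rw [if_neg hi, if_neg hi]
    ring

theorem PP {i0 : Fin (m + 1)} {u : Fin (m + 1) → ℝ} (hu : u i0 ≠ 0) : Pm i0 u * Pv i0 u = 1 := by
  rw [← MN hu]
  ext i j
  rw [Matrix.mul_apply, Matrix.mul_apply]
  exact Equiv.sum_comp (Equiv.swap 0 i0) (fun k => Mm i0 u i k * Nm i0 u k j)

theorem Pm_inv {i0 : Fin (m + 1)} {u : Fin (m + 1) → ℝ} (hu : u i0 ≠ 0) :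
    (Pm i0 u)⁻¹ = Pv i0 u :=
  Matrix.inv_eq_right_inv (PP hu)

theorem Pm_det (i0 : Fin (m + 1)) (u : Fin (m + 1) → ℝ) : |(Pm i0 u).det| = |u i0| := by
  have h1 : Pm i0 u = (Mm i0 u).submatrix id (Equiv.swap 0 i0) := rfl
  have h2 : (Mm i0 u).det = u i0 := by
    unfold Mm
    rw [← Matrix.cramer_apply, Matrix.cramer_one]
    rfl
  rw [h1, Matrix.det_permute', abs_mul, h2]
  have h3 : |(((Equiv.Perm.sign (Equiv.swap 0 i0) : ℤˣ) : ℤ) : ℝ)| = 1 := by
    rcases Int.units_eq_one_or (Equiv.Perm.sign (Equiv.swap 0 i0)) with h | h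
    · rw [h]
      simp
    · rw [h]
      simp
  rw [h3, one_mul]

theorem Pm_det_ne {i0 : Fin (m + 1)} {u : Fin (m + 1) → ℝ} (hu : u i0 ≠ 0) :
    (Pm i0 u).det ≠ 0 := by
  intro h
  have := Pm_det i0 u
  rw [h, abs_zero] at this
  exact hu (abs_eq_zero.1 this.symm)

theorem Pm_zero (i0 : Fin (m + 1)) (u : Fin (m + 1) → ℝ) (i : Fin (m + 1)) :
    Pm i0 u i 0 = u i := by
  unfold Pm Mm
  rw [Equiv.swap_apply_left, Matrix.updateCol_self]

/-- The entries of the frame. -/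
theorem Pm_abs (i0 : Fin (m + 1)) {u : Fin (m + 1) → ℝ} {b : ℝ} (hb : 1 ≤ b)
    (hu : ∀ i, |u i| ≤ b) (i j : Fin (m + 1)) : |Pm i0 u i j| ≤ b := by
  unfold Pm Mm
  by_cases h : Equiv.swap 0 i0 j = i0
  · rw [h, Matrix.updateCol_self]
    exact hu i
  · rw [Matrix.updateCol_ne h, Matrix.one_apply]
    split_ifs
    · rw [abs_one]
      exact hb
    · rw [abs_zero]
      linarith

/-- The coordinates in the frame `Pm i0 u`. -/
theorem Pv_mul (i0 : Fin (m + 1)) (u x : Fin (m + 1) → ℝ) (i : Fin (m + 1)) :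
    (Pv i0 u *ᵥ x) i =
      if i = 0 then (u i0)⁻¹ * x i0 else x (Equiv.swap 0 i0 i) -
        u (Equiv.swap 0 i0 i) * (u i0)⁻¹ * x i0 := by
  have h1 : (Pv i0 u *ᵥ x) i = (Nm i0 u *ᵥ x) (Equiv.swap 0 i0 i) := rfl
  rw [h1, Nm_mul]
  by_cases hi : i = 0
  · rw [if_pos hi, hi, Equiv.swap_apply_left, if_pos rfl]
  · rw [if_neg hi, if_neg]
    intro h
    apply hi
    have := congrArg (Equiv.swap 0 i0) h
    rwa [Equiv.swap_apply_self, Equiv.swap_apply_right] at this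

/-- Row sums of the inverse. -/
theorem Pv_row {i0 : Fin (m + 1)} {u : Fin (m + 1) → ℝ} {b : ℝ}
    (hu : ∀ i, |u i| * |u i0|⁻¹ ≤ b) (hu0 : |u i0|⁻¹ ≤ b) (i : Fin (m + 1)) :
    ∑ j, |Pv i0 u i j| ≤ b + 1 := by
  have h0 : ∑ j, |Pv i0 u i j| = ∑ j, |Nm i0 u (Equiv.swap 0 i0 i) j| := rfl
  rw [h0]
  obtain ⟨k, hk⟩ : ∃ k, k = Equiv.swap 0 i0 i := ⟨_, rfl⟩
  rw [← hk, ← Finset.add_sum_erase _ _ (Finset.mem_univ i0)]
  have h1 : |Nm i0 u k i0| ≤ b := by
    unfold Nm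
    rw [Matrix.updateCol_self]
    split_ifs
    · rw [abs_inv]
      exact hu0
    · rw [abs_neg, abs_mul, abs_inv]
      exact hu k
  have h2 : ∑ j ∈ Finset.univ.erase i0, |Nm i0 u k j| ≤ 1 := by
    have h3 : ∀ j ∈ Finset.univ.erase i0, |Nm i0 u k j| = if j = k then 1 else 0 := by
      intro j hj
      unfold Nm
      rw [Matrix.updateCol_ne (Finset.ne_of_mem_erase hj)]
      by_cases hjk : j = k
      · rw [if_pos hjk, hjk, Matrix.one_apply_eq, abs_one]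
      · rw [if_neg hjk, Matrix.one_apply_ne (Ne.symm hjk), abs_zero]
    rw [Finset.sum_congr rfl h3, Finset.sum_ite_eq']
    split_ifs <;> norm_num
  linarith

/-- The first column in its own frame. -/
theorem Pv_self {i0 : Fin (m + 1)} {u : Fin (m + 1) → ℝ} (hu : u i0 ≠ 0) {i : Fin (m + 1)}
    (hi : i ≠ 0) (c : ℝ) : (Pv i0 u *ᵥ fun j => c * u j) i = 0 := by
  rw [Pv_mul, if_neg hi]
  have : u (Equiv.swap 0 i0 i) * (u i0)⁻¹ * (c * u i0) = c * u (Equiv.swap 0 i0 i) := by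
    field_simp
  rw [this, sub_self]

/-- The size of a coordinate. -/
theorem Pv_abs {i0 : Fin (m + 1)} {u : Fin (m + 1) → ℝ} {b : ℝ}
    (hu : ∀ i, |u i| * |u i0|⁻¹ ≤ b) (hu0 : |u i0|⁻¹ ≤ b) {x : Fin (m + 1) → ℝ} {K : ℝ}
    (hx : ∀ i, |x i| ≤ K) (i : Fin (m + 1)) : |(Pv i0 u *ᵥ x) i| ≤ (b + 1) * K := by
  have hK : 0 ≤ K := (abs_nonneg _).trans (hx 0)
  unfold Matrix.mulVec dotProduct
  refine (Finset.abs_sum_le_sum_abs _ _).trans ?_
  refine (Finset.sum_le_sum (g := fun j => |Pv i0 u i j| * K) fun j _ => ?_).trans ?_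
  · rw [abs_mul]
    exact mul_le_mul_of_nonneg_left (hx j) (abs_nonneg _)
  · rw [← Finset.sum_mul]
    exact mul_le_mul_of_nonneg_right (Pv_row hu hu0 i) hK

end Pool.TT37
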