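import Pool.Agent.H37.TT.Dir
import Pool.Agent.H64.P5.Abs

/-!
# Fullness along one direction

`x = y + theta w + O (1)` with a full real `theta`, known `w`: then `x` is full along `w`.
-/

set_option autoImplicit false

namespace Pool.TT37

open Finset Real Matrix
open Pool.Agent.H49.Ent Pool.Agent.H32.Dense Pool.STK Pool.FAD
open Pool.BFL (Pb)

variable {Ω ζ : Type} [Fintype Ω] {q : Ω → ℝ} {m : ℕ}

open Classical in
/-- The unit vector of the direction `w` on the event `G`, a standard vector off it. -/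
noncomputable def uv (G : Prop) (w : Fin (m + 1) → ℤ) : Fin (m + 1) → ℝ :=
  if G then fun i => (w i : ℝ) / |(w (ix fun j => (w j : ℝ)) : ℝ)| else Pi.single 0 1

open Classical in
/-- The pivot. -/
noncomputable def ui (G : Prop) (w : Fin (m + 1) → ℤ) : Fin (m + 1) :=
  if G then ix fun j => (w j : ℝ) else 0

/-- The cell of `x` modulo `u`. -/
noncomputable def prd (i0 : Fin (m + 1)) (u : Fin (m + 1) → ℝ) (x : Fin (m + 1) → ℤ)
    (i : Fin (m + 1)) : ℤ :=
  if i = 0 then 0 else ⌊(Pv i0 u *ᵥ fun j => (x j : ℝ)) i⌋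

/-- Size of the unit vector. -/
theorem uv_le (G : Prop) {w : Fin (m + 1) → ℤ}
    (hw : G → w (ix fun j => (w j : ℝ)) ≠ 0) : |uv G w (ui G w)| = 1 ∧ ∀ i, |uv G w i| ≤ 1 := by
  classical
  by_cases hG : G
  · have h0 : (w (ix fun j => (w j : ℝ)) : ℝ) ≠ 0 := by exact_mod_cast hw hG
    unfold uv ui
    rw [if_pos hG, if_pos hG]
    constructor
    · rw [abs_div, abs_abs, div_self (abs_ne_zero.2 h0)]
    · intro i
      rw [abs_div, abs_abs]
      exact div_le_one_of_le₀ (ix_le (fun j => (w j : ℝ)) i) (abs_nonneg _)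
  · unfold uv ui
    rw [if_neg hG, if_neg hG]
    constructor
    · rw [Pi.single_eq_same, abs_one]
    · intro i
      rw [Pi.single_apply]
      split_ifs
      · rw [abs_one]
      · rw [abs_zero]
        exact zero_le_one

/-- Two points on one line in the direction `w`: the cells modulo `w` are near. -/
theorem prd_near {G : Prop} {w x y : Fin (m + 1) → ℤ} (hw : w (ix fun j => (w j : ℝ)) ≠ 0)
    (hG : G) {th K : ℝ} (h : ∀ i, |(x i : ℝ) - y i - th * w i| ≤ K) (i : Fin (m + 1)) :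
    |(prd (ui G w) (uv G w) x i : ℝ) - prd (ui G w) (uv G w) y i| ≤ 2 * K + 1 := by
  have hK : 0 ≤ K := (abs_nonneg _).trans (h 0)
  obtain ⟨u, hu⟩ : ∃ u, u = uv G w := ⟨_, rfl⟩
  obtain ⟨i0, hi0⟩ : ∃ i0, i0 = ui G w := ⟨_, rfl⟩
  obtain ⟨u1, u2⟩ := uv_le G (w := w) fun _ => hw
  rw [← hu, ← hi0] at u1
  rw [← hu] at u2
  rw [← hu, ← hi0]
  unfold prd
  by_cases hi : i = 0
  · rw [if_pos hi, if_pos hi]
    simp only [Int.cast_zero, sub_zero, abs_zero]
    linarith
  rw [if_neg hi, if_neg hi]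
  obtain ⟨c, hc⟩ : ∃ c : ℝ, ∀ j, (w j : ℝ) = c * u j := by
    refine ⟨|(w (ix fun j => (w j : ℝ)) : ℝ)|, fun j => ?_⟩
    have h0 : |(w (ix fun j => (w j : ℝ)) : ℝ)| ≠ 0 := abs_ne_zero.2 (by exact_mod_cast hw)
    rw [hu]
    unfold uv
    rw [if_pos hG, mul_div_cancel₀ _ h0]
  have hu0 : u i0 ≠ 0 := by
    intro h0
    rw [h0, abs_zero] at u1
    exact zero_ne_one u1
  obtain ⟨r, hr⟩ : ∃ r : Fin (m + 1) → ℝ, ∀ j, r j = (x j : ℝ) - y j - th * w j :=
    ⟨fun j => (x j : ℝ) - y j - th * w j, fun _ => rfl⟩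
  have e1 : (fun j => (x j : ℝ)) = (fun j => (y j : ℝ)) + ((fun j => th * c * u j) + r) := by
    funext j
    simp only [Pi.add_apply]
    rw [hr, hc]
    ring
  have e2 : (Pv i0 u *ᵥ fun j => (x j : ℝ)) i = (Pv i0 u *ᵥ fun j => (y j : ℝ)) i +
      (Pv i0 u *ᵥ r) i := by
    rw [e1, Matrix.mulVec_add, Matrix.mulVec_add]
    simp only [Pi.add_apply]
    rw [Pv_self hu0 hi (th * c), zero_add]
  have e3 : |(Pv i0 u *ᵥ r) i| ≤ (1 + 1) * K := by
    refine Pv_abs (fun j => ?_) ?_ (fun j => ?_) i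
    · rw [u1, inv_one, mul_one]
      exact u2 j
    · rw [u1, inv_one]
    · rw [hr]
      exact h j
  rw [e2]
  obtain ⟨A, hA⟩ : ∃ A, A = (Pv i0 u *ᵥ fun j => (y j : ℝ)) i := ⟨_, rfl⟩
  obtain ⟨B, hB⟩ : ∃ B, B = (Pv i0 u *ᵥ r) i := ⟨_, rfl⟩
  rw [← hA, ← hB]
  rw [← hB] at e3
  have f1 := Int.floor_le (A + B)
  have f2 := Int.lt_floor_add_one (A + B)
  have f3 := Int.floor_le A
  have f4 := Int.lt_floor_add_one A
  have e3' := abs_le.1 e3
  rw [abs_le]
  constructor <;> linarith [e3'.1, e3'.2]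

/-- The size of the cell. -/
theorem prd_size {i0 : Fin (m + 1)} {u : Fin (m + 1) → ℝ} {b B : ℝ}
    (hu : ∀ i, |u i| * |u i0|⁻¹ ≤ b) (hu0 : |u i0|⁻¹ ≤ b) {x : Fin (m + 1) → ℤ}
    (hx : ∀ i, |(x i : ℝ)| ≤ B) (i : Fin (m + 1)) :
    |(prd i0 u x i : ℝ)| ≤ (b + 1) * B + 1 := by
  have hB : 0 ≤ B := (abs_nonneg _).trans (hx 0)
  have hb : 0 ≤ b := (mul_nonneg (abs_nonneg _) (inv_nonneg.2 (abs_nonneg _))).trans (hu 0)
  unfold prd
  split_ifs
  · simp only [Int.cast_zero, abs_zero]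
    positivity
  · have h1 := Pv_abs hu hu0 hx i
    obtain ⟨A, hA⟩ : ∃ A, A = (Pv i0 u *ᵥ fun j => (x j : ℝ)) i := ⟨_, rfl⟩
    rw [← hA] at h1 ⊢
    have f3 := Int.floor_le A
    have f4 := Int.lt_floor_add_one A
    have h2 := abs_le.1 h1
    rw [abs_le]
    constructor <;> linarith [h2.1, h2.2]

/-- The mean of a logarithm which is small on `G`. -/
theorem ex_log (hq : IsLaw q) (G : Ω → Prop) {c B : ℝ} (hc : 0 ≤ c)
    (L : Ω → ℝ) (hL : ∀ ω, 0 < q ω → (G ω → L ω ≤ c) ∧ (¬ G ω → L ω ≤ B)) (hL0 : ∀ ω, 0 ≤ L ω) :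
    Ex q (fun ω => Real.log (2 * L ω + 1)) ≤
      Real.log (2 * c + 1) + Pb q (fun ω => ¬ G ω) * Real.log (2 * B + 1) := by
  classical
  have h0 := hq.nonneg
  have e1 : Ex q (fun ω => Real.log (2 * L ω + 1)) ≤
      Ex q (fun ω => Real.log (2 * c + 1) + (if ¬ G ω then Real.log (2 * B + 1) else 0)) := by
    refine Ex_mono h0 fun ω hω => ?_
    have l1 : 0 ≤ Real.log (2 * c + 1) := Real.log_nonneg (by linarith)
    have l2 := hL0 ω
    by_cases hg : G ω
    · rw [if_neg (fun h => h hg), add_zero]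
      have := (hL ω hω).1 hg
      exact Real.log_le_log (by linarith) (by linarith)
    · rw [if_pos hg]
      have := (hL ω hω).2 hg
      have l3 := Real.log_le_log (show 0 < 2 * L ω + 1 by linarith)
        (show 2 * L ω + 1 ≤ 2 * B + 1 by linarith)
      linarith
  refine e1.trans (le_of_eq ?_)
  rw [Ex_add, Ex_const hq.sum_one]
  congr 1
  unfold Ex Pb
  rw [Finset.sum_mul]
  refine Finset.sum_congr rfl fun ω _ => ?_
  beta_reduce
  split_ifs <;> simp

/-- **Fullness along one direction.** -/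
theorem dir_full (hq : IsLaw q) {x y w : Ω → Fin (m + 1) → ℤ} {t : Ω → ℤ} {th : Ω → ℝ}
    {Z : Ω → ζ} (G : Ω → Prop) (hG : ∀ ω ω', 0 < q ω → 0 < q ω' → Z ω = Z ω' → (G ω ↔ G ω'))
    (hw : Det q Z w) {X s : ℕ} {K B : ℝ} (hK : 0 ≤ K) (hB : 0 ≤ B)
    (hth : ∀ ω ω', 0 < q ω → 0 < q ω' → Z ω = Z ω' →
      |((t ω : ℝ) - t ω')| ≤ 2 ^ X * |th ω - th ω'|)
    (hx : ∀ ω, 0 < q ω → ∀ i, |(x ω i : ℝ)| ≤ B) (ht : ∀ ω, 0 < q ω → |(t ω : ℝ)| ≤ B)
    (hs : ∀ ω, 0 < q ω → G ω →
      (2 : ℝ) ^ X ≤ 2 ^ s * |(w ω (ix fun j => (w ω j : ℝ)) : ℝ)|)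
    (hl : ∀ ω, 0 < q ω → ∀ i, |(x ω i : ℝ) - y ω i - th ω * w ω i| ≤ K) :
    CH q t (fun ω => (y ω, Z ω)) - (Real.log (4 * K * 2 ^ s + 1) +
      (m + 1) * Real.log (8 * K + 5) +
      Pb q (fun ω => ¬ G ω) * ((m + 2) * Real.log (8 * B + 5))) ≤
      CH q x (fun ω => (prd (ui (G ω) (w ω)) (uv (G ω) (w ω)) (x ω), Z ω)) := by
  classical
  have h0 := hq.nonneg
  have h1 := hq.sum_one
  obtain ⟨Y, hY⟩ : ∃ Y : Ω → Fin (m + 1) → ℤ,
    Y = fun ω => prd (ui (G ω) (w ω)) (uv (G ω) (w ω)) (x ω) := ⟨_, rfl⟩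
  have hYv : ∀ ω, Y ω = prd (ui (G ω) (w ω)) (uv (G ω) (w ω)) (x ω) := fun ω => by rw [hY]
  obtain ⟨t', ht'⟩ : ∃ t' : Ω → ℤ, t' = fun ω => if G ω then t ω else 0 := ⟨_, rfl⟩
  have htv : ∀ ω, t' ω = if G ω then t ω else 0 := fun ω => by rw [ht']
  have hwn : ∀ ω, 0 < q ω → G ω → w ω (ix fun j => (w ω j : ℝ)) ≠ 0 := by
    intro ω hω hg h
    have := hs ω hω hg
    rw [h, Int.cast_zero, abs_zero, mul_zero] at this
    have h2 : (0 : ℝ) < 2 ^ X := by positivity
    linarith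
  have hgoal : CH q x (fun ω => (prd (ui (G ω) (w ω)) (uv (G ω) (w ω)) (x ω), Z ω)) =
      CH q x (fun ω => (Y ω, Z ω)) := by
    rw [hY]
  rw [hgoal]
  -- the cell
  have c1 : CH q Y (fun ω => (y ω, Z ω)) ≤ (m + 1) * (Real.log (8 * K + 5) +
      Pb q (fun ω => ¬ G ω) * Real.log (8 * B + 5)) := by
    have k1 := CH_le_vec h0 h1 Y (fun ω => (y ω, Z ω))
      (fun ω => if G ω then 4 * K + 2 else 4 * B + 2) (by
        intro ω ω' hω hω' h i
        simp only [Prod.mk.injEq] at h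
        push_cast
        by_cases hg : G ω
        · have hg' : G ω' := (hG ω ω' hω hω' h.2).1 hg
          rw [if_pos hg, hYv, hYv]
          have a1 := prd_near (hwn ω hω hg) hg (hl ω hω) i
          have a2 := prd_near (hwn ω' hω' hg') hg' (hl ω' hω') i
          have ew : w ω = w ω' := hw ω ω' hω hω' h.2
          have eg : G ω = G ω' := propext ⟨fun _ => hg', fun _ => hg⟩
          rw [ew, eg, h.1] at a1
          rw [ew, eg]
          rw [abs_le] at a1 a2 ⊢
          constructor <;> linarith [a1.1, a1.2, a2.1, a2.2]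
        · have hg' : ¬ G ω' := fun h' => hg ((hG ω ω' hω hω' h.2).2 h')
          rw [if_neg hg, hYv, hYv]
          have b1 : ∀ ω, 0 < q ω → ¬ G ω →
              |(prd (ui (G ω) (w ω)) (uv (G ω) (w ω)) (x ω) i : ℝ)| ≤ 2 * B + 1 := by
            intro ω hω hg
            obtain ⟨u1, u2⟩ := uv_le (G ω) (w := w ω) fun h => absurd h hg
            have := prd_size (b := 1) (i0 := ui (G ω) (w ω)) (u := uv (G ω) (w ω))
              (fun j => by
                rw [u1, inv_one, mul_one]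
                exact u2 j) (by rw [u1, inv_one]) (hx ω hω) i
            linarith
          have a1 := b1 ω hω hg
          have a2 := b1 ω' hω' hg'
          rw [abs_le] at a1 a2 ⊢
          constructor <;> linarith [a1.1, a1.2, a2.1, a2.2])
    have k2 := ex_log hq G (c := 4 * K + 2) (B := 4 * B + 2) (by linarith)
      (fun ω => if G ω then 4 * K + 2 else 4 * B + 2) (fun ω _ => ⟨fun h => by rw [if_pos h],
        fun h => by rw [if_neg h]⟩) (fun ω => by split_ifs <;> linarith)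
    have e1 : 2 * (4 * K + 2) + 1 = 8 * K + 5 := by ring
    have e2 : 2 * (4 * B + 2) + 1 = 8 * B + 5 := by ring
    rw [e1, e2] at k2
    refine k1.trans ?_
    push_cast
    exact mul_le_mul_of_nonneg_left k2 (by positivity)
  -- the time
  have c2 : CH q t (fun ω => (t' ω, (y ω, Z ω))) ≤
      Pb q (fun ω => ¬ G ω) * Real.log (8 * B + 5) := by
    have k1 := CH_le_int h0 h1 t (fun ω => (t' ω, (y ω, Z ω)))
      (fun ω => if G ω then 0 else 4 * B + 2) (by
        intro ω ω' hω hω' h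
        simp only [Prod.mk.injEq] at h
        rw [htv, htv] at h
        by_cases hg : G ω
        · have hg' : G ω' := (hG ω ω' hω hω' h.2.2).1 hg
          rw [if_pos hg, if_pos hg'] at h
          rw [if_pos hg, h.1]
          simp
        · rw [if_neg hg]
          have a1 := ht ω hω
          have a2 := ht ω' hω'
          push_cast
          rw [abs_le] at a1 a2 ⊢
          constructor <;> linarith [a1.1, a1.2, a2.1, a2.2])
    have k2 := ex_log hq G (c := 0) (B := 4 * B + 2) le_rfl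
      (fun ω => if G ω then 0 else 4 * B + 2) (fun ω _ => ⟨fun h => by rw [if_pos h],
        fun h => by rw [if_neg h]⟩) (fun ω => by split_ifs <;> linarith)
    have e1 : 2 * (0 : ℝ) + 1 = 1 := by ring
    have e2 : 2 * (4 * B + 2) + 1 = 8 * B + 5 := by ring
    rw [e1, e2, Real.log_one, zero_add] at k2
    exact k1.trans k2
  have c3 : CH q t' (fun ω => (x ω, (y ω, Z ω))) ≤ Real.log (4 * K * 2 ^ s + 1) := by
    have k1 := CH_le_int h0 h1 t' (fun ω => (x ω, (y ω, Z ω))) (fun _ => 2 * K * 2 ^ s) (by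
        intro ω ω' hω hω' h
        simp only [Prod.mk.injEq] at h
        have hpos : (0 : ℝ) ≤ 2 * K * 2 ^ s := by positivity
        rw [htv, htv]
        by_cases hg : G ω
        · have hg' : G ω' := (hG ω ω' hω hω' h.2.2).1 hg
          rw [if_pos hg, if_pos hg']
          have ew : w ω = w ω' := hw ω ω' hω hω' h.2.2
          obtain ⟨i, hi⟩ : ∃ i, i = ix fun j => (w ω j : ℝ) := ⟨_, rfl⟩
          have a1 := hl ω hω i
          have a2 := hl ω' hω' i
          rw [← h.1, ← h.2.1, ← ew] at a2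
          have a3 := hs ω hω hg
          rw [← hi] at a3
          have a4 : |th ω - th ω'| * |(w ω i : ℝ)| ≤ 2 * K := by
            rw [← abs_mul]
            rw [abs_le] at a1 a2 ⊢
            constructor <;> nlinarith [a1.1, a1.2, a2.1, a2.2]
          have a5 := hth ω ω' hω hω' h.2.2
          push_cast
          refine a5.trans ?_
          have a6 := mul_le_mul_of_nonneg_right a3 (abs_nonneg (th ω - th ω'))
          have a7 := mul_le_mul_of_nonneg_left a4 (show (0 : ℝ) ≤ 2 ^ s by positivity)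
          linarith
        · have hg' : ¬ G ω' := fun h' => hg ((hG ω ω' hω hω' h.2.2).2 h')
          rw [if_neg hg, if_neg hg']
          simpa using hpos)
    rw [Ex_const h1] at k1
    have e1 : 2 * (2 * K * 2 ^ s) + 1 = 4 * K * (2 : ℝ) ^ s + 1 := by ring
    rw [e1] at k1
    exact k1
  -- the chain rules
  have r1 := CH_le_add h0 t t' (fun ω => (y ω, Z ω))
  have r2 := CH_le_add h0 t' x (fun ω => (y ω, Z ω))
  have r3 := CH_le_add h0 x Y (fun ω => (y ω, Z ω))
  have r4 := CH_mono_cond h0 (X := x) (W' := fun ω => (Y ω, (y ω, Z ω)))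
    (W := fun ω => (Y ω, Z ω)) (fun ω ω' _ _ h => by
      simp only [Prod.mk.injEq] at h ⊢
      exact ⟨h.1, h.2.2⟩)
  have e3 : Pb q (fun ω => ¬ G ω) * ((m + 2) * Real.log (8 * B + 5)) =
      (m + 1) * (Pb q (fun ω => ¬ G ω) * Real.log (8 * B + 5)) +
      Pb q (fun ω => ¬ G ω) * Real.log (8 * B + 5) := by ring
  rw [e3]
  linarith

end Pool.TT37
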