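import Pool.Agent.H37.TT.AbsS
import Pool.Agent.H37.TT.Pig
import Pool.Agent.H46.TT.Spn
import Pool.Agent.H98.TT.Sel

/-!
# Good copies

`sel_gd`: if the velocities of the copies are near an affine space `v + V`, and `dim V` of them are
selected greedily (each one off the span of the preceding ones at the precision `h`), then every
unit vector of `V` is a combination of their differences. `good_cp`: free copies of a law that
gives mass more than `eps` off every affine space of smaller dimension are good with probability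
nearly one.
-/

set_option autoImplicit false

namespace Pool.TT37

open Finset Real
open Pool.Agent.H49.Ent Pool.Agent.H32.Dense Pool.STK
open Pool.BFL (Pb)
open Pool.TT46 (Cst Cst_pos span_near)

section pure

variable {m : ℕ}

/-- The scaled difference. -/
noncomputable def xr (g : ℕ) (x x0 : Fin (m + 1) → ℤ) : Fin (m + 1) → ℝ :=
  fun a => ((x a : ℝ) - x0 a) / 2 ^ g

theorem nb_of_lt {g h : ℕ} (hg : h ≤ g) (x0 x : Fin (m + 1) → ℤ) (y : ℕ → Fin (m + 1) → ℤ) (l : ℕ)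
    (b : ℕ → ℝ) (hb : ‖xr g x x0 - ∑ i ∈ range l, b i • xr g (y i) x0‖ < ((2 : ℝ) ^ h)⁻¹)
    {V : Submodule ℝ (Fin (m + 1) → ℝ)}
    (hV : ∀ i < l, (fun a => ((y i a : ℝ) - x0 a)) ∈ V) :
    Nb (fun a => (x0 a : ℝ) / 2 ^ (g - h)) V (fun a => x a / 2 ^ (g - h)) := by
  have hp : (0 : ℝ) < 2 ^ (g - h) := by positivity
  have hh : (0 : ℝ) < 2 ^ h := by positivity
  have hgg : (0 : ℝ) < 2 ^ g := by positivity
  have e0 : (2 : ℝ) ^ g = 2 ^ (g - h) * 2 ^ h := by
    rw [← pow_add]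
    congr 1
    omega
  refine ⟨∑ i ∈ range l, (b i / 2 ^ (g - h)) • (fun a => ((y i a : ℝ) - x0 a)),
    V.sum_mem fun i hi => V.smul_mem _ (hV i (Finset.mem_range.1 hi)), fun a => ?_⟩
  have e1 : (((x a / 2 ^ (g - h) : ℤ) : ℤ) : ℝ) = ⌊(x a : ℝ) / 2 ^ (g - h)⌋ := by
    have : ⌊((x a : ℤ) : ℝ) / ((2 ^ (g - h) : ℕ) : ℝ)⌋ = x a / ((2 ^ (g - h) : ℕ) : ℤ) := by
      rw [Int.floor_div_natCast, Int.floor_intCast]
    push_cast at this
    rw [this]
  have f1 := Int.floor_le ((x a : ℝ) / 2 ^ (g - h))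
  have f2 := Int.lt_floor_add_one ((x a : ℝ) / 2 ^ (g - h))
  have h1 : |xr g x x0 a - ∑ i ∈ range l, b i * xr g (y i) x0 a| < ((2 : ℝ) ^ h)⁻¹ := by
    refine lt_of_le_of_lt ?_ hb
    have h2 := norm_le_pi_norm (xr g x x0 - ∑ i ∈ range l, b i • xr g (y i) x0) a
    rw [Real.norm_eq_abs, Pi.sub_apply, Finset.sum_apply] at h2
    exact h2
  have h2 : |(x a : ℝ) / 2 ^ (g - h) - (x0 a : ℝ) / 2 ^ (g - h) -
      (∑ i ∈ range l, (b i / 2 ^ (g - h)) • (fun a => ((y i a : ℝ) - x0 a))) a| ≤ 1 := by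
    have e2 : (x a : ℝ) / 2 ^ (g - h) - (x0 a : ℝ) / 2 ^ (g - h) -
        (∑ i ∈ range l, (b i / 2 ^ (g - h)) • (fun a => ((y i a : ℝ) - x0 a))) a =
        2 ^ h * (xr g x x0 a - ∑ i ∈ range l, b i * xr g (y i) x0 a) := by
      rw [Finset.sum_apply, mul_sub, Finset.mul_sum, ← sub_div]
      congr 1
      · unfold xr
        rw [e0]
        field_simp
      · refine Finset.sum_congr rfl fun i _ => ?_
        simp only [Pi.smul_apply, smul_eq_mul]
        unfold xr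
        rw [e0]
        field_simp
    rw [e2, abs_mul, abs_of_pos hh]
    calc (2 : ℝ) ^ h * |xr g x x0 a - ∑ i ∈ range l, b i * xr g (y i) x0 a|
        ≤ 2 ^ h * ((2 : ℝ) ^ h)⁻¹ := mul_le_mul_of_nonneg_left h1.le hh.le
      _ = 1 := mul_inv_cancel₀ hh.ne'
  rw [e1]
  rw [abs_le] at h2 ⊢
  constructor <;> linarith [h2.1, h2.2]

/-- **Selected copies are good.** -/
theorem sel_gd {g h s N k : ℕ} (hg : h ≤ g) (hs : h ≤ s) {K : ℝ} (hK : 1 ≤ K)
    (hC : Cst (m + 1) K ((2 : ℝ) ^ h)⁻¹ ≤ 2 ^ s) (hgs : 4 * 2 ^ s * 2 ^ h ≤ (2 : ℝ) ^ g)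
    {v : Fin (m + 1) → ℝ} {V : Submodule ℝ (Fin (m + 1) → ℝ)} (hk : Module.finrank ℝ V = k)
    (hk1 : 1 ≤ k) {la : Fin (m + 1) → ℝ} (hla : la ∈ V) (hla1 : ∀ a, |la a| ≤ 1)
    (D : Fin (N + 2) → Fin (m + 1) → ℤ) (hD : ∀ j, Nb v V (D j))
    (hB : ∀ j a, |(D j a : ℝ) - D 0 a| ≤ K * 2 ^ g) (sg : ℕ → Fin (N + 1))
    (hsg : ∀ l < k, ¬ Nb (fun a => (D 0 a : ℝ) / 2 ^ (g - h))
      (Submodule.span ℝ {y | ∃ i < l, y = fun a => ((D (sg i).succ a : ℝ) - D 0 a)})
      (fun a => D (sg l).succ a / 2 ^ (g - h))) :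
    Gd g s (4 * 2 ^ s) D la := by
  classical
  have hh : (0 : ℝ) < 2 ^ h := by positivity
  have hgg : (0 : ℝ) < 2 ^ g := by positivity
  have hss : (0 : ℝ) < 2 ^ s := by positivity
  have hkm : k ≤ m + 1 := by
    rw [← hk]
    exact (Submodule.finrank_le V).trans (le_of_eq (by simp))
  obtain ⟨x, hx⟩ : ∃ x : ℕ → Fin (m + 1) → ℝ, x = fun l => xr g (D (sg l).succ) (D 0) := ⟨_, rfl⟩
  have hxv : ∀ l, x l = xr g (D (sg l).succ) (D 0) := fun l => by rw [hx]
  have hrob : ∀ l < k, ∀ b : ℕ → ℝ,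
      ((2 : ℝ) ^ h)⁻¹ ≤ ‖x l - ∑ i ∈ range l, b i • x i‖ := by
    intro l hl b
    by_contra hc
    push Not at hc
    have hc' : ‖xr g (D (sg l).succ) (D 0) -
        ∑ i ∈ range l, b i • xr g (D (sg i).succ) (D 0)‖ < ((2 : ℝ) ^ h)⁻¹ := by
      simp only [hxv] at hc
      exact hc
    refine hsg l hl (nb_of_lt hg (D 0) (D (sg l).succ) (fun i => D (sg i).succ) l b hc' ?_)
    intro i hi
    exact Submodule.subset_span ⟨i, hi, rfl⟩
  have hnorm : ∀ l < k, ‖x l‖ ≤ K := by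
    intro l _
    rw [pi_norm_le_iff_of_nonneg (by linarith)]
    intro a
    rw [hxv, Real.norm_eq_abs]
    unfold xr
    rw [abs_div, abs_of_pos hgg, div_le_iff₀ hgg]
    exact hB _ a
  have hnear : ∀ l < k, ∃ y ∈ V, ‖x l - y‖ ≤ 4 / 2 ^ g := by
    intro l _
    obtain ⟨u0, hu0, h1⟩ := hD 0
    obtain ⟨u, hu, h2⟩ := hD (sg l).succ
    refine ⟨((2 : ℝ) ^ g)⁻¹ • (u - u0), V.smul_mem _ (V.sub_mem hu hu0), ?_⟩
    rw [pi_norm_le_iff_of_nonneg (by positivity)]
    intro a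
    rw [hxv, Real.norm_eq_abs]
    simp only [Pi.sub_apply, Pi.smul_apply, smul_eq_mul]
    unfold xr
    have e1 : ((D (sg l).succ a : ℝ) - D 0 a) / 2 ^ g - ((2 : ℝ) ^ g)⁻¹ * (u a - u0 a) =
        (((D (sg l).succ a : ℝ) - v a - u a) - ((D 0 a : ℝ) - v a - u0 a)) / 2 ^ g := by
      field_simp
      ring
    rw [e1, abs_div, abs_of_pos hgg]
    refine div_le_div_of_nonneg_right ?_ hgg.le
    refine (abs_sub _ _).trans ?_
    have := h1 a
    have := h2 a
    linarith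
  obtain ⟨c, hc1, hc2⟩ := span_near (n := m + 1) (δ := 4 / 2 ^ g) hK (inv_pos.2 hh)
    (inv_le_one_of_one_le₀ (one_le_pow₀ (by norm_num))) (by positivity)
    (by
      refine (mul_le_mul_of_nonneg_left hC (by positivity)).trans ?_
      rw [div_mul_eq_mul_div, div_le_iff₀ hgg, ← div_eq_inv_mul, le_div_iff₀ hh]
      exact hgs) V hk x hnorm hnear hrob hla
    (by
      rw [pi_norm_le_iff_of_nonneg (by norm_num)]
      exact fun a => by
        rw [Real.norm_eq_abs]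
        exact hla1 a)
  refine ⟨fun l => if (l : ℕ) < k then sg l else sg 0, fun l => ?_,
    fun l => if (l : ℕ) < k then c l else 0, fun l => ?_, fun i => ?_⟩
  · obtain ⟨l', hl', hl''⟩ : ∃ l' < k, (if (l : ℕ) < k then sg l else sg 0) = sg l' := by
      by_cases hlk : (l : ℕ) < k
      · exact ⟨l, hlk, by rw [if_pos hlk]⟩
      · exact ⟨0, hk1, by rw [if_neg hlk]⟩
    beta_reduce
    rw [hl'']
    have h1 := hrob l' hl' 0
    simp only [Pi.zero_apply, zero_smul, Finset.sum_const_zero, sub_zero] at h1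
    have h2 : ∃ a, ((2 : ℝ) ^ h)⁻¹ ≤ |x l' a| := by
      by_contra hcon
      push Not at hcon
      have : ‖x l'‖ < ((2 : ℝ) ^ h)⁻¹ := by
        rw [pi_norm_lt_iff (inv_pos.2 hh)]
        intro a
        rw [Real.norm_eq_abs]
        exact hcon a
      linarith
    obtain ⟨a, ha⟩ := h2
    have h3 := ix_le (fun j => (df D (sg l') j : ℝ)) a
    have h4 : x l' a = (df D (sg l') a : ℝ) / 2 ^ g := by
      rw [hxv]
      unfold xr df
      push_cast
      ring
    rw [h4, abs_div, abs_of_pos hgg, le_div_iff₀ hgg] at ha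
    calc (2 : ℝ) ^ g = 2 ^ h * (((2 : ℝ) ^ h)⁻¹ * 2 ^ g) := by
          rw [← mul_assoc, mul_inv_cancel₀ hh.ne', one_mul]
      _ ≤ 2 ^ h * |(df D (sg l') a : ℝ)| := mul_le_mul_of_nonneg_left ha hh.le
      _ ≤ 2 ^ s * |(df D (sg l') a : ℝ)| :=
          mul_le_mul_of_nonneg_right (pow_le_pow_right₀ (by norm_num) hs) (abs_nonneg _)
      _ ≤ 2 ^ s * |(df D (sg l') (ix fun j => (df D (sg l') j : ℝ)) : ℝ)| :=
          mul_le_mul_of_nonneg_left h3 hss.le
  · by_cases hlk : (l : ℕ) < k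
    · simp only [if_pos hlk]
      exact (hc1 l hlk).trans hC
    · simp only [if_neg hlk, abs_zero]
      exact hss.le
  · have e1 : ∑ l : Fin (m + 1), (if (l : ℕ) < k then c l else 0) *
        ((df D (if (l : ℕ) < k then sg l else sg 0) i : ℝ) / 2 ^ g) =
        ∑ l ∈ range k, c l * x l i := by
      have e2 : ∀ l : Fin (m + 1), (if (l : ℕ) < k then c l else 0) *
        ((df D (if (l : ℕ) < k then sg l else sg 0) i : ℝ) / 2 ^ g) =
        (fun l : ℕ => if l < k then c l * x l i else 0) l := by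
        intro l
        by_cases hlk : (l : ℕ) < k
        · simp only [if_pos hlk]
          rw [hxv]
          unfold xr df
          push_cast
          ring
        · simp only [if_neg hlk, zero_mul]
      rw [Finset.sum_congr rfl fun l _ => e2 l,
        Fin.sum_univ_eq_sum_range (fun l : ℕ => if l < k then c l * x l i else 0) (m + 1),
        ← Finset.sum_filter]
      refine Finset.sum_congr ?_ fun _ _ => rfl
      ext l
      simp only [Finset.mem_filter, Finset.mem_range]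
      omega
    rw [e1]
    have h5 := norm_le_pi_norm (la - ∑ l ∈ range k, c l • x l) i
    rw [Real.norm_eq_abs, Pi.sub_apply, Finset.sum_apply] at h5
    refine h5.trans (hc2.trans ?_)
    rw [mul_div_assoc']
    refine div_le_div_of_nonneg_right ?_ hgg.le
    rw [mul_comm]
    exact mul_le_mul_of_nonneg_left hC (by norm_num)

end pure

section free

variable {Ω : Type} [Fintype Ω] {m : ℕ}

/-- Free copies. -/
noncomputable def prl (ν : Ω → ℝ) (M : ℕ) (w : Fin M → Ω) : ℝ := ∏ j, ν (w j)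

omit [Fintype Ω] in
theorem prl_nonneg {ν : Ω → ℝ} (h0 : ∀ ω, 0 ≤ ν ω) (M : ℕ) (w : Fin M → Ω) : 0 ≤ prl ν M w :=
  Finset.prod_nonneg fun _ _ => h0 _

omit [Fintype Ω] in
theorem prl_pos {ν : Ω → ℝ} (h0 : ∀ ω, 0 ≤ ν ω) {M : ℕ} {w : Fin M → Ω} (h : 0 < prl ν M w)
    (j : Fin M) : 0 < ν (w j) := by
  rcases (h0 (w j)).eq_or_lt with h1 | h1
  · exfalso
    have : prl ν M w = 0 := Finset.prod_eq_zero (Finset.mem_univ j) h1.symm
    linarith
  · exact h1

theorem prl_one {ν : Ω → ℝ} (h1 : ∑ ω, ν ω = 1) {M : ℕ} (j : Fin M) (A : Ω → Prop) :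
    Pb (prl ν M) (fun w => A (w j)) = Pb ν A := by
  classical
  obtain ⟨f, hf⟩ : ∃ f : Fin M → Ω → ℝ, f = fun i ω =>
    if i = j then (if A ω then ν ω else 0) else ν ω := ⟨_, rfl⟩
  have e1 : Pb (prl ν M) (fun w => A (w j)) = ∑ w : Fin M → Ω, ∏ i, f i (w i) := by
    unfold Pb prl
    refine Finset.sum_congr rfl fun w _ => ?_
    by_cases h : A (w j)
    · rw [if_pos h]
      refine Finset.prod_congr rfl fun i _ => ?_
      rw [hf]
      by_cases hi : i = j
      · subst hi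
        simp [h]
      · simp [hi]
    · rw [if_neg h]
      exact (Finset.prod_eq_zero (Finset.mem_univ j) (by rw [hf]; simp [h])).symm
  rw [e1, Pool.SLO.sum_pi_prod, Finset.prod_eq_single j]
  · rw [hf]
    unfold Pb
    refine Finset.sum_congr rfl fun ω _ => ?_
    simp
  · intro i _ hi
    rw [hf]
    simp only [if_neg hi]
    exact h1
  · intro h
    exact absurd (Finset.mem_univ j) h

theorem prl_union {ν : Ω → ℝ} (h0 : ∀ ω, 0 ≤ ν ω) (h1 : ∑ ω, ν ω = 1) (M : ℕ) (A : Ω → Prop) :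
    Pb (prl ν M) (fun w => ∃ j, A (w j)) ≤ M * Pb ν A := by
  classical
  have e1 : Pb (prl ν M) (fun w => ∃ j, A (w j)) ≤
      ∑ j : Fin M, Pb (prl ν M) (fun w => A (w j)) := by
    unfold Pb
    rw [Finset.sum_comm]
    refine Finset.sum_le_sum fun w _ => ?_
    by_cases h : ∃ j, A (w j)
    · rw [if_pos h]
      obtain ⟨j, hj⟩ := h
      refine le_trans ?_ (Finset.single_le_sum (f := fun j => if A (w j) then prl ν M w else 0)
        (fun i _ => ?_) (Finset.mem_univ j))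
      · simp only [if_pos hj]
        exact le_rfl
      · split_ifs
        · exact prl_nonneg h0 M w
        · exact le_rfl
    · rw [if_neg h]
      refine Finset.sum_nonneg fun i _ => ?_
      split_ifs
      · exact prl_nonneg h0 M w
      · exact le_rfl
  refine e1.trans (le_of_eq ?_)
  rw [Finset.sum_congr rfl fun j _ => prl_one h1 j A, Finset.sum_const, Finset.card_univ,
    Fintype.card_fin, nsmul_eq_mul]

open Classical in
/-- **Free copies are good.** -/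
theorem good_cp {g h s N k : ℕ} (hg : h ≤ g) (hs : h ≤ s) {K : ℝ} (hK : 1 ≤ K)
    (hC : Cst (m + 1) K ((2 : ℝ) ^ h)⁻¹ ≤ 2 ^ s) (hgs : 4 * 2 ^ s * 2 ^ h ≤ (2 : ℝ) ^ g)
    {v : Fin (m + 1) → ℝ} {V : Submodule ℝ (Fin (m + 1) → ℝ)} (hk : Module.finrank ℝ V = k)
    (hk1 : 1 ≤ k) {la : Fin (m + 1) → ℝ} (hla : la ∈ V) (hla1 : ∀ a, |la a| ≤ 1)
    {ν : Ω → ℝ} (h0 : ∀ ω, 0 ≤ ν ω) (h1 : ∑ ω, ν ω = 1) (X : Ω → Fin (m + 1) → ℤ)
    (x0 : Fin (m + 1) → ℤ) (hB : ∀ ω, 0 < ν ω → ∀ a, |(X ω a : ℝ) - x0 a| ≤ K * 2 ^ g)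
    {δ ε : ℝ} (hε : ε ≤ 1) (hn0 : Nb v V x0) (hn : Pb ν (fun ω => ¬ Nb v V (X ω)) ≤ δ)
    (hlow : ∀ (v' : Fin (m + 1) → ℝ) (V' : Submodule ℝ (Fin (m + 1) → ℝ)),
      Module.finrank ℝ V' < k → ε ≤ Pb ν (fun ω => ¬ Nb v' V' (fun a => X ω a / 2 ^ (g - h)))) :
    Pb (prl ν (N + 1)) (fun w => ¬ Gd g s (4 * 2 ^ s) (Fin.cons x0 (fun j => X (w j)) :
      Fin (N + 2) → Fin (m + 1) → ℤ) la) ≤ (N + 1) * δ + 2 ^ k * (1 - ε / 2) ^ (N + 1) := by
  obtain ⟨S, hS⟩ : ∃ S : List Ω → Ω → Prop, S = fun s x =>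
      ¬ Nb (fun a => (x0 a : ℝ) / 2 ^ (g - h))
        (Submodule.span ℝ {y | ∃ u ∈ s, y = fun a => ((X u a : ℝ) - x0 a)})
        (fun a => X x a / 2 ^ (g - h)) := ⟨_, rfl⟩
  have hfr : ∀ l : List Ω, Module.finrank ℝ
      (Submodule.span ℝ {y | ∃ u ∈ l, y = fun a => ((X u a : ℝ) - x0 a)}) ≤ l.length := by
    intro l
    have e1 : {y | ∃ u ∈ l, y = fun a => ((X u a : ℝ) - x0 a)} =
        ((l.toFinset.image fun u => (fun a => ((X u a : ℝ) - x0 a))) :
          Set (Fin (m + 1) → ℝ)) := by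
      ext y
      simp only [Set.mem_ofPred_eq, Finset.coe_image, Set.mem_image, Finset.mem_coe,
        List.mem_toFinset]
      constructor
      · rintro ⟨u, hu, rfl⟩
        exact ⟨u, hu, rfl⟩
      · rintro ⟨u, hu, rfl⟩
        exact ⟨u, hu, rfl⟩
    rw [e1]
    refine (finrank_span_finset_le_card _).trans (Finset.card_image_le.trans ?_)
    exact List.toFinset_card_le l
  have hS1 : ∀ l : List Ω, l.length < k → ε ≤ ∑ x, (if S l x then ν x else 0) := by
    intro l hl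
    have h2 := hlow (fun a => (x0 a : ℝ) / 2 ^ (g - h)) _ (lt_of_le_of_lt (hfr l) hl)
    rw [hS]
    exact h2
  have h2 := Pool.TT98.sel_prob ν h0 h1 S k hε hS1 (N + 1)
  have h3 := prl_union h0 h1 (N + 1) (fun ω => ¬ Nb v V (X ω))
  have h4 : ((N + 1 : ℕ) : ℝ) * Pb ν (fun ω => ¬ Nb v V (X ω)) ≤ (N + 1) * δ := by
    push_cast
    exact mul_le_mul_of_nonneg_left hn (by positivity)
  have h5 : Pb (prl ν (N + 1)) (fun w => (Pool.TT98.sel S k w).length < k) ≤
      2 ^ k * (1 - ε / 2) ^ (N + 1) := by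
    refine le_trans (le_of_eq ?_) h2
    unfold Pb prl
    refine Finset.sum_congr rfl fun w _ => ?_
    split_ifs <;> rfl
  refine (pb_or (prl_nonneg h0 (N + 1)) (A := fun w => ∃ j, ¬ Nb v V (X (w j)))
    (B := fun w => (Pool.TT98.sel S k w).length < k) fun w hw hbad => ?_).trans
    (add_le_add (h3.trans h4) h5)
  by_contra hcon
  push Not at hcon
  obtain ⟨hc1, hc2⟩ := hcon
  have hlen : (Pool.TT98.sel S k w).length = k :=
    le_antisymm (Pool.TT98.sel_len_le S k w) hc2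
  obtain ⟨sg, hsg, _, _⟩ := Pool.TT98.sel_idx S k (Nat.succ_pos N) w hlen
  refine hbad (sel_gd hg hs hK hC hgs hk hk1 hla hla1 _ (v := v) (fun j => ?_) (fun j a => ?_) sg
    fun l hl => ?_)
  · refine Fin.cases ?_ (fun j => ?_) j
    · rw [Fin.cons_zero]
      exact hn0
    · rw [Fin.cons_succ]
      exact hc1 j
  · rw [Fin.cons_zero]
    refine Fin.cases ?_ (fun j => ?_) j
    · rw [Fin.cons_zero, sub_self, abs_zero]
      positivity
    · rw [Fin.cons_succ]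
      exact hB _ (prl_pos h0 hw j) a
  · have h6 := hsg l hl
    rw [hS] at h6
    have e2 : {y | ∃ u ∈ (List.range l).map (fun i => w (sg i)),
        y = fun a => ((X u a : ℝ) - x0 a)} =
        {y | ∃ i < l, y = fun a => ((X (w (sg i)) a : ℝ) - x0 a)} := by
      ext y
      simp
    rw [e2] at h6
    exact h6

end free

end Pool.TT37
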