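import Pool.Agent.H37.TT.Gcp

/-!
# Stable directions

`pig`: at one of `J` scales the dimension of the velocity at the box `i + u` is the dimension at
the box `i`, for most `i`. `stable`: there is a direction, a function of the box `i`, such that
copies of the velocity at the box `i + u` are good for it (`Gd`), for all `u` up to the next scale.
-/

set_option autoImplicit false

namespace Pool.TT37

open Finset Real
open Pool.Agent.H49.Ent Pool.Agent.H32.Dense Pool.STK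
open Pool.BFL (Pb)
open Pool.TT46 (Cst)
open Pool.SLO (tup)

section pig

variable {Ω γ : Type} [Fintype Ω] {p : Ω → ℝ} {n : ℕ}

/-- The mean dimension. -/
noncomputable def Ph (p : Ω → ℝ) (S : ℕ) (D : Ω → Fin n → ℤ) (C : ℕ → Ω → γ) (i r : ℕ) (ε : ℝ) :
    ℝ := Ex p (fun ω => (kk p S D C i r ε (C i ω) : ℝ))

theorem ph_nonneg (hp : IsLaw p) (S : ℕ) (D : Ω → Fin n → ℤ) (C : ℕ → Ω → γ) (i r : ℕ) (ε : ℝ) :
    0 ≤ Ph p S D C i r ε := by
  have h := Ex_mono hp.nonneg (f := fun _ => (0 : ℝ))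
    (g := fun ω => (kk p S D C i r ε (C i ω) : ℝ)) fun ω _ => Nat.cast_nonneg _
  rwa [Ex_const hp.sum_one] at h

theorem ph_le (hp : IsLaw p) (S : ℕ) (D : Ω → Fin n → ℤ) (C : ℕ → Ω → γ) (i r : ℕ) {ε : ℝ}
    (hε : 0 ≤ ε) : Ph p S D C i r ε ≤ n := by
  have h := Ex_mono hp.nonneg (g := fun _ => (n : ℝ))
    (f := fun ω => (kk p S D C i r ε (C i ω) : ℝ)) fun ω _ => by
      exact_mod_cast kk_le_n hε (C i ω)
  rwa [Ex_const hp.sum_one] at h

theorem pig_one (hp : IsLaw p) {S : ℕ} {D : Ω → Fin n → ℤ} {C : ℕ → Ω → γ} {i u r r' : ℕ}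
    {ε δ : ℝ} (hε : 0 ≤ ε) (hδ : 0 < δ) (hr : u + r' ≤ r) (hS : i + r ≤ S)
    (hC : Det p (C (i + u)) (C i)) :
    Pb p (fun ω => kk p S D C (i + u) r' δ (C (i + u) ω) ≠ kk p S D C i r ε (C i ω)) ≤
      Ph p S D C i r ε - Ph p S D C (i + u) r' δ + (n + 1) * (ε / δ) := by
  classical
  have h1 := kk_mono hp (S := S) (D := D) (C := C) (i := i) (i' := i + u) (r := r) (r' := r') hε
    hδ (by omega) hS hC
  have h2 : Pb p (fun ω => kk p S D C (i + u) r' δ (C (i + u) ω) ≠ kk p S D C i r ε (C i ω)) ≤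
      Ph p S D C i r ε - Ph p S D C (i + u) r' δ + (n + 1) *
        Pb p (fun ω => kk p S D C i r ε (C i ω) < kk p S D C (i + u) r' δ (C (i + u) ω)) := by
    unfold Ph
    rw [pb_ex, pb_ex]
    unfold Ex
    rw [← Finset.sum_sub_distrib, Finset.mul_sum, ← Finset.sum_add_distrib]
    refine Finset.sum_le_sum fun ω _ => ?_
    have h3 := hp.nonneg ω
    have h4 : kk p S D C (i + u) r' δ (C (i + u) ω) ≤ n := kk_le_n hδ.le _
    obtain ⟨x, hx⟩ : ∃ x, x = kk p S D C i r ε (C i ω) := ⟨_, rfl⟩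
    obtain ⟨y, hy⟩ : ∃ y, y = kk p S D C (i + u) r' δ (C (i + u) ω) := ⟨_, rfl⟩
    beta_reduce
    rw [← hx, ← hy]
    rw [← hy] at h4
    have h6 : (y : ℝ) ≤ n := by exact_mod_cast h4
    have h7 : (0 : ℝ) ≤ x := Nat.cast_nonneg x
    rcases lt_trichotomy x y with h | h | h
    · rw [if_pos h.ne', if_pos h]
      nlinarith [mul_nonneg h3 h7, mul_nonneg h3 (sub_nonneg.2 h6)]
    · rw [if_neg (by simp [h]), if_neg (by omega), h]
      linarith
    · rw [if_pos h.ne, if_neg (by omega)]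
      have : (y : ℝ) + 1 ≤ x := by exact_mod_cast h
      nlinarith [mul_le_mul_of_nonneg_left this h3]
  refine h2.trans (add_le_add le_rfl (mul_le_mul_of_nonneg_left h1 (by positivity)))

/-- **At one of `J` scales the dimension is almost constant.** -/
theorem pig (hp : IsLaw p) {S : ℕ} {D : Ω → Fin n → ℤ} {C : ℕ → Ω → γ}
    (hC : ∀ i i', i ≤ i' → Det p (C i') (C i)) {r : ℕ → ℕ} (hr : Monotone r) {ε : ℕ → ℝ}
    (hε : ∀ j, 0 < ε j) {η : ℝ} {J : ℕ} (hη : ∀ j < J, ε (j + 1) ≤ η * ε j) (hJ : 0 < J) {L : ℕ}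
    (hS : L + r J ≤ S) :
    ∃ j < J, ∀ u, u + r j ≤ r (j + 1) →
      ∑ i ∈ range L, Pb p (fun ω => kk p S D C (i + u) (r j) (ε j) (C (i + u) ω) ≠
        kk p S D C i (r (j + 1)) (ε (j + 1)) (C i ω)) ≤
      n * L / J + n * u + (n + 1) * η * L := by
  classical
  obtain ⟨F, hF⟩ : ∃ F : ℕ → ℝ, F = fun j => ∑ i ∈ range L, Ph p S D C i (r j) (ε j) := ⟨_, rfl⟩
  have hFv : ∀ j, F j = ∑ i ∈ range L, Ph p S D C i (r j) (ε j) := fun j => by rw [hF]
  have h1 : ∃ j < J, F (j + 1) - F j ≤ n * L / J := by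
    by_contra hcon
    push Not at hcon
    have h2 : ∑ j ∈ range J, (n * L / J : ℝ) < ∑ j ∈ range J, (F (j + 1) - F j) :=
      Finset.sum_lt_sum_of_nonempty ⟨0, Finset.mem_range.2 hJ⟩
        fun j hj => hcon j (Finset.mem_range.1 hj)
    rw [Finset.sum_range_sub, Finset.sum_const, Finset.card_range, nsmul_eq_mul] at h2
    have h3 : (J : ℝ) * (n * L / J) = n * L := by
      have : (J : ℝ) ≠ 0 := by exact_mod_cast hJ.ne'
      field_simp
    rw [h3] at h2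
    have h4 : F J ≤ n * L := by
      rw [hFv]
      refine (Finset.sum_le_sum fun i _ => ph_le hp S D C i (r J) (hε J).le).trans ?_
      rw [Finset.sum_const, Finset.card_range, nsmul_eq_mul]
      linarith
    have h5 : 0 ≤ F 0 := by
      rw [hFv]
      exact Finset.sum_nonneg fun i _ => ph_nonneg hp S D C i (r 0) (ε 0)
    linarith
  obtain ⟨j, hj, hj2⟩ := h1
  refine ⟨j, hj, fun u hu => ?_⟩
  have hr2 : r (j + 1) ≤ r J := hr hj
  have h2 : ∀ i ∈ range L, Pb p (fun ω => kk p S D C (i + u) (r j) (ε j) (C (i + u) ω) ≠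
        kk p S D C i (r (j + 1)) (ε (j + 1)) (C i ω)) ≤
      Ph p S D C i (r (j + 1)) (ε (j + 1)) - Ph p S D C (i + u) (r j) (ε j) +
        (n + 1) * η := by
    intro i hi
    have hi' := Finset.mem_range.1 hi
    refine (pig_one hp (hε (j + 1)).le (hε j) hu (by omega) (hC i (i + u) (by omega))).trans ?_
    refine add_le_add le_rfl (mul_le_mul_of_nonneg_left ?_ (by positivity))
    rw [div_le_iff₀ (hε j)]
    exact hη j hj
  refine (Finset.sum_le_sum h2).trans ?_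
  rw [Finset.sum_add_distrib, Finset.sum_sub_distrib, Finset.sum_const, Finset.card_range,
    nsmul_eq_mul, ← hFv]
  have h3 : F j ≤ n * u + ∑ i ∈ range L, Ph p S D C (i + u) (r j) (ε j) := by
    have e1 : ∑ i ∈ range (u + L), Ph p S D C i (r j) (ε j) =
        ∑ i ∈ range u, Ph p S D C i (r j) (ε j) +
          ∑ i ∈ range L, Ph p S D C (u + i) (r j) (ε j) := Finset.sum_range_add _ _ _
    have e2 : F j ≤ ∑ i ∈ range (u + L), Ph p S D C i (r j) (ε j) := by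
      rw [hFv]
      refine Finset.sum_le_sum_of_subset_of_nonneg
        (Finset.range_subset_range.2 (Nat.le_add_left L u)) fun i _ _ => ph_nonneg hp S D C i _ _
    have e3 : ∑ i ∈ range u, Ph p S D C i (r j) (ε j) ≤ n * u := by
      refine (Finset.sum_le_sum fun i _ => ph_le hp S D C i (r j) (hε j).le).trans ?_
      rw [Finset.sum_const, Finset.card_range, nsmul_eq_mul]
      linarith
    have e4 : ∑ i ∈ range L, Ph p S D C (u + i) (r j) (ε j) =
        ∑ i ∈ range L, Ph p S D C (i + u) (r j) (ε j) :=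
      Finset.sum_congr rfl fun i _ => by rw [Nat.add_comm u i]
    linarith
  have e5 : (L : ℝ) * ((n + 1) * η) = (n + 1) * η * L := by ring
  rw [e5]
  linarith

end pig

section main

variable {Ω γ : Type} [Fintype Ω] {p : Ω → ℝ} {m : ℕ}

theorem tup_split (p : Ω → ℝ) {Λ : Type} (L : Ω → Λ) (N : ℕ) (A : (Fin (N + 2) → Ω) → Prop) :
    Pb (tup p L (N + 1)) A =
      Ex p (fun ω => Pb (prl (cond p L (L ω)) (N + 1)) (fun w => A (Fin.cons ω w))) := by
  classical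
  have e1 : Pb (tup p L (N + 1)) A = ∑ v : Fin (N + 2) → Ω,
      (if A v then tup p L (N + 1) v else 0) := rfl
  rw [e1, ← (Fin.consEquiv (fun _ : Fin (N + 2) => Ω)).sum_comp, Fintype.sum_prod_type]
  unfold Ex
  refine Finset.sum_congr rfl fun ω _ => ?_
  have e2 : Pb (prl (cond p L (L ω)) (N + 1)) (fun w => A (Fin.cons ω w)) =
      ∑ w : Fin (N + 1) → Ω, (if A (Fin.cons ω w) then prl (cond p L (L ω)) (N + 1) w else 0) := rfl
  beta_reduce
  rw [e2, Finset.mul_sum]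
  refine Finset.sum_congr rfl fun w _ => ?_
  have e3 : (Fin.consEquiv (fun _ : Fin (N + 2) => Ω)) (ω, w) = Fin.cons ω w := rfl
  rw [e3]
  by_cases h : A (Fin.cons ω w)
  · rw [if_pos h, if_pos h]
    unfold tup prl
    simp only [Fin.cons_zero, Fin.cons_succ]
  · rw [if_neg h, if_neg h, mul_zero]

omit [Fintype Ω] in
theorem dg_near {S : ℕ} (D : Ω → Fin (m + 1) → ℤ) {i g : ℕ} (hS : i + g ≤ S) {K : ℝ} {ω ω' : Ω}
    {a : Fin (m + 1)} (h : |(D ω a : ℝ) - D ω' a| ≤ (K - 1) * 2 ^ (S - i)) :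
    |(Dg S D (i + g) ω a : ℝ) - Dg S D (i + g) ω' a| ≤ K * 2 ^ g := by
  have hq : (0 : ℝ) < 2 ^ (S - (i + g)) := by positivity
  have hg1 : (1 : ℝ) ≤ 2 ^ g := one_le_pow₀ (by norm_num)
  have hh : ∀ x : ℤ, (((x / 2 ^ (S - (i + g)) : ℤ) : ℤ) : ℝ) = ⌊(x : ℝ) / 2 ^ (S - (i + g))⌋ := by
    intro x
    have : ⌊((x : ℤ) : ℝ) / ((2 ^ (S - (i + g)) : ℕ) : ℝ)⌋ = x / ((2 ^ (S - (i + g)) : ℕ) : ℤ) := by
      rw [Int.floor_div_natCast, Int.floor_intCast]
    push_cast at this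
    rw [this]
  unfold Dg
  rw [hh, hh]
  have f1 := Int.floor_le ((D ω a : ℝ) / 2 ^ (S - (i + g)))
  have f2 := Int.lt_floor_add_one ((D ω a : ℝ) / 2 ^ (S - (i + g)))
  have f3 := Int.floor_le ((D ω' a : ℝ) / 2 ^ (S - (i + g)))
  have f4 := Int.lt_floor_add_one ((D ω' a : ℝ) / 2 ^ (S - (i + g)))
  have e0 : (2 : ℝ) ^ (S - i) = 2 ^ g * 2 ^ (S - (i + g)) := by
    rw [← pow_add]
    congr 1
    omega
  have h1 : |(D ω a : ℝ) / 2 ^ (S - (i + g)) - (D ω' a : ℝ) / 2 ^ (S - (i + g))| ≤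
      (K - 1) * 2 ^ g := by
    rw [← sub_div, abs_div, abs_of_pos hq, div_le_iff₀ hq, mul_assoc, ← e0]
    exact h
  rw [abs_le] at h1 ⊢
  constructor <;> linarith [h1.1, h1.2]

/-- **Copies of the velocity at a box inside.** -/
theorem gd_box (hp : IsLaw p) {S : ℕ} {D : Ω → Fin (m + 1) → ℤ} {C : ℕ → Ω → γ}
    {i u h g s N R : ℕ} {K : ℝ} (hK : 1 ≤ K) (hhg : h ≤ g) (hs : h ≤ s)
    (hC1 : Cst (m + 1) K ((2 : ℝ) ^ h)⁻¹ ≤ 2 ^ s) (hgs : 4 * 2 ^ s * 2 ^ h ≤ (2 : ℝ) ^ g)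
    (hR : u + g ≤ R) (hS : i + R ≤ S) (hC : Det p (C (i + u)) (C i))
    (hB : ∀ ω ω', 0 < p ω → 0 < p ω' → C (i + u) ω = C (i + u) ω' →
      ∀ a, |(D ω a : ℝ) - D ω' a| ≤ (K - 1) * 2 ^ (S - (i + u)))
    {ε δ θ : ℝ} (hδ : 0 < δ) (hθ1 : θ ≤ 1)
    {v : γ → Fin (m + 1) → ℝ} {V : γ → Submodule ℝ (Fin (m + 1) → ℝ)}
    (hV : ∀ z, Module.finrank ℝ (V z) ≤ kk p S D C i R ε z ∧
      Pb (cond p (C i) z) (fun ω => ¬ Nb (v z) (V z) (Dg S D (i + R) ω)) ≤ ε)
    {la : γ → Fin (m + 1) → ℝ} (hla : ∀ z, 1 ≤ Module.finrank ℝ (V z) → la z ∈ V z)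
    (hla1 : ∀ z a, |la z a| ≤ 1) :
    Pb (tup p (C (i + u)) (N + 1)) (fun w => 1 ≤ kk p S D C i R ε (C i (w 0)) ∧
      ¬ Gd g s (4 * 2 ^ s) (fun k => Dg S D (i + u + g) (w k)) (la (C i (w 0)))) ≤
    Pb p (fun ω => kk p S D C (i + u) h θ (C (i + u) ω) ≠ kk p S D C i R ε (C i ω)) + ε / δ + ε +
      ((N + 1) * δ + 2 ^ (m + 1) * (1 - θ / 2) ^ (N + 1)) := by
  classical
  have h0 := hp.nonneg
  obtain ⟨B, hBd⟩ : ∃ B : Ω → Prop, B = fun ω =>
      ¬ Nb (fun a => v (C i ω) a / 2 ^ (i + R - (i + u + g))) (V (C i ω))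
        (Dg S D (i + u + g) ω) := ⟨_, rfl⟩
  have b1 : Pb p (fun ω => δ < Pc p (C (i + u)) B ω) ≤ ε / δ := by
    rw [hBd]
    exact sub_box hp (i' := i + u) (r' := g) hδ (by omega) hS fun z => (hV z).2
  have b2 : Pb p B ≤ ε := by
    have k1 : Pb p B ≤ Pb p (fun ω => ¬ Nb (v (C i ω)) (V (C i ω)) (Dg S D (i + R) ω)) := by
      rw [hBd]
      refine pb_mono h0 fun ω _ h2 h3 => h2 ?_
      have h4 := nb_div (i + R - (i + u + g)) h3
      have e1 : (fun a => Dg S D (i + R) ω a / 2 ^ (i + R - (i + u + g))) =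
          Dg S D (i + u + g) ω := by
        funext a
        rw [dg_div S D (show i + u + g ≤ i + R by omega) hS]
      rw [e1] at h4
      exact h4
    refine k1.trans ?_
    rw [← ex_pc h0 (C i)]
    have h2 : Ex p (Pc p (C i) fun ω => ¬ Nb (v (C i ω)) (V (C i ω)) (Dg S D (i + R) ω)) ≤
        Ex p (fun _ => ε) := by
      refine Ex_mono h0 fun ω _ => ?_
      refine le_trans ?_ (hV (C i ω)).2
      refine pb_mono (fun ω' => cond_nonneg h0 (C i) _ ω') fun ω' hω' h3 => ?_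
      rw [← (cond_pos h0 hω').1]
      exact h3
    rwa [Ex_const hp.sum_one] at h2
  obtain ⟨c, hc⟩ : ∃ c : ℝ, c = (N + 1) * δ + 2 ^ (m + 1) * (1 - θ / 2) ^ (N + 1) := ⟨_, rfl⟩
  have hq : 0 ≤ 1 - θ / 2 := by linarith
  have hc0 : 0 ≤ c := by
    rw [hc]
    positivity
  rw [← hc]
  obtain ⟨E1, hE1⟩ : ∃ E1 : Ω → Prop, E1 = fun ω =>
    kk p S D C (i + u) h θ (C (i + u) ω) ≠ kk p S D C i R ε (C i ω) := ⟨_, rfl⟩
  rw [tup_split]
  have key : ∀ ω, 0 < p ω → Pb (prl (cond p (C (i + u)) (C (i + u) ω)) (N + 1))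
      (fun w => 1 ≤ kk p S D C i R ε (C i ((Fin.cons ω w : Fin (N + 2) → Ω) 0)) ∧
        ¬ Gd g s (4 * 2 ^ s) (fun k => Dg S D (i + u + g) ((Fin.cons ω w : Fin (N + 2) → Ω) k))
          (la (C i ((Fin.cons ω w : Fin (N + 2) → Ω) 0)))) ≤
      (if E1 ω then 1 else 0) + (if δ < Pc p (C (i + u)) B ω then 1 else 0) +
        (if B ω then 1 else 0) + c := by
    intro ω hω
    have hν : IsLaw (cond p (C (i + u)) (C (i + u) ω)) :=
      ⟨cond_nonneg h0 _ _, sum_cond p (C (i + u)) (law_ne h0 (C (i + u)) hω)⟩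
    obtain ⟨ν, hνe⟩ : ∃ ν, ν = cond p (C (i + u)) (C (i + u) ω) := ⟨_, rfl⟩
    rw [← hνe] at hν ⊢
    have hνp : ∀ ω', 0 < ν ω' → C (i + u) ω' = C (i + u) ω ∧ 0 < p ω' := by
      intro ω' h'
      rw [hνe] at h'
      exact cond_pos h0 h'
    have n1 : ∀ P : (Fin (N + 1) → Ω) → Prop, Pb (prl ν (N + 1)) P ≤ 1 := by
      intro P
      have : Pb (prl ν (N + 1)) P ≤ ∑ w, prl ν (N + 1) w := by
        unfold Pb
        refine Finset.sum_le_sum fun w _ => ?_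
        split_ifs
        · exact le_rfl
        · exact prl_nonneg hν.nonneg _ _
      refine this.trans (le_of_eq ?_)
      have e := Pool.SLO.sum_pi_prod (N := N + 1) (fun (_ : Fin (N + 1)) => ν)
      unfold prl
      rw [e]
      simp [hν.sum_one]
    have i1 : (0 : ℝ) ≤ if E1 ω then 1 else 0 := by split_ifs <;> norm_num
    have i2 : (0 : ℝ) ≤ if δ < Pc p (C (i + u)) B ω then 1 else 0 := by split_ifs <;> norm_num
    have i3 : (0 : ℝ) ≤ if B ω then 1 else 0 := by split_ifs <;> norm_num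
    by_cases hE : E1 ω
    · rw [if_pos hE]
      linarith [n1 (fun w => 1 ≤ kk p S D C i R ε (C i ((Fin.cons ω w : Fin (N + 2) → Ω) 0)) ∧
        ¬ Gd g s (4 * 2 ^ s) (fun k => Dg S D (i + u + g) ((Fin.cons ω w : Fin (N + 2) → Ω) k))
          (la (C i ((Fin.cons ω w : Fin (N + 2) → Ω) 0))))]
    by_cases hP : δ < Pc p (C (i + u)) B ω
    · rw [if_pos hP]
      linarith [n1 (fun w => 1 ≤ kk p S D C i R ε (C i ((Fin.cons ω w : Fin (N + 2) → Ω) 0)) ∧
        ¬ Gd g s (4 * 2 ^ s) (fun k => Dg S D (i + u + g) ((Fin.cons ω w : Fin (N + 2) → Ω) k))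
          (la (C i ((Fin.cons ω w : Fin (N + 2) → Ω) 0))))]
    by_cases hBb : B ω
    · rw [if_pos hBb]
      linarith [n1 (fun w => 1 ≤ kk p S D C i R ε (C i ((Fin.cons ω w : Fin (N + 2) → Ω) 0)) ∧
        ¬ Gd g s (4 * 2 ^ s) (fun k => Dg S D (i + u + g) ((Fin.cons ω w : Fin (N + 2) → Ω) k))
          (la (C i ((Fin.cons ω w : Fin (N + 2) → Ω) 0))))]
    rw [if_neg hE, if_neg hP, if_neg hBb]
    simp only [zero_add, Fin.cons_zero]
    rw [hE1] at hE
    push Not at hE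
    by_cases hal : 1 ≤ kk p S D C i R ε (C i ω)
    · -- the dimension of `V` is the dimension
      have f1 : Module.finrank ℝ (V (C i ω)) = kk p S D C i R ε (C i ω) :=
        le_antisymm (hV _).1 (kk_le ⟨v (C i ω), V (C i ω), le_rfl, (hV _).2⟩)
      have g1 := good_cp (N := N) (V := V (C i ω))
        (v := fun a => v (C i ω) a / 2 ^ (i + R - (i + u + g))) (la := la (C i ω)) hhg hs hK hC1 hgs
        f1 hal (hla _ (by rw [f1]; exact hal)) (hla1 _) hν.nonneg hν.sum_one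
        (Dg S D (i + u + g)) (Dg S D (i + u + g) ω)
        (fun ω' h' a => dg_near D (by omega) (hB ω' ω (hνp ω' h').2 hω (hνp ω' h').1 a))
        (δ := δ) (ε := θ) hθ1
        (by
          rw [hBd] at hBb
          push Not at hBb
          exact hBb)
        (by
          refine le_trans ?_ (not_lt.1 hP)
          unfold Pc
          rw [← hνe, hBd]
          refine pb_mono hν.nonneg fun ω' h' h2 => ?_
          rw [hC ω' ω (hνp ω' h').2 hω (hνp ω' h').1]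
          exact h2)
        (by
          intro v' V' hV'
          by_contra hcon
          push Not at hcon
          rw [← hE] at hV'
          refine absurd hV' (not_lt.2 (kk_le ⟨v', V', le_rfl, ?_⟩))
          rw [← hνe]
          refine le_trans ?_ hcon.le
          refine pb_mono hν.nonneg fun ω' _ h2 h3 => h2 ?_
          have e1 : (fun a => Dg S D (i + u + g) ω' a / 2 ^ (g - h)) =
              Dg S D (i + u + h) ω' := by
            funext a
            rw [dg_div S D (show i + u + h ≤ i + u + g by omega) (by omega)]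
            congr 2
            omega
          rw [e1] at h3
          exact h3)
      have g2 : (2 : ℝ) ^ (kk p S D C i R ε (C i ω)) * (1 - θ / 2) ^ (N + 1) ≤
          2 ^ (m + 1) * (1 - θ / 2) ^ (N + 1) := by
        refine mul_le_mul_of_nonneg_right (pow_le_pow_right₀ (by norm_num) ?_) (by positivity)
        rw [← f1]
        exact (Submodule.finrank_le _).trans (le_of_eq (by simp))
      rw [hc]
      refine le_trans (pb_mono (prl_nonneg hν.nonneg _) fun w _ hw => ?_)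
        (g1.trans (add_le_add le_rfl g2))
      have e2 : (fun k => Dg S D (i + u + g) ((Fin.cons ω w : Fin (N + 2) → Ω) k)) =
          (Fin.cons (Dg S D (i + u + g) ω) (fun j => Dg S D (i + u + g) (w j)) :
            Fin (N + 2) → Fin (m + 1) → ℤ) := by
        funext k
        refine Fin.cases ?_ (fun k => ?_) k
        · rw [Fin.cons_zero, Fin.cons_zero]
        · rw [Fin.cons_succ, Fin.cons_succ]
      rw [← e2]
      exact hw.2
    · refine le_trans (le_of_eq ?_) hc0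
      unfold Pb
      refine Finset.sum_eq_zero fun w _ => if_neg fun h' => hal h'.1
  refine (Ex_mono h0 key).trans ?_
  rw [Ex_add, Ex_add, Ex_add, Ex_const hp.sum_one, ← pb_ex, ← pb_ex, ← pb_ex]
  rw [hE1]
  linarith

/-- A unit vector of a nonzero space. -/
theorem unit_ex (V : Submodule ℝ (Fin (m + 1) → ℝ)) : ∃ la : Fin (m + 1) → ℝ,
    (1 ≤ Module.finrank ℝ V → la ∈ V) ∧ |la (ix la)| = 1 ∧ ∀ a, |la a| ≤ 1 := by
  classical
  by_cases h : 1 ≤ Module.finrank ℝ V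
  · have h1 : V ≠ ⊥ := by
      rintro rfl
      simp at h
    obtain ⟨x, hx, hx0⟩ := V.ne_bot_iff.1 h1
    have h2 : x (ix x) ≠ 0 := by
      intro h3
      refine hx0 (funext fun a => ?_)
      have h4 := ix_le x a
      rw [h3, abs_zero] at h4
      exact abs_nonpos_iff.1 h4
    have h3 : 0 < |x (ix x)| := abs_pos.2 h2
    obtain ⟨la, hla⟩ : ∃ la : Fin (m + 1) → ℝ, la = |x (ix x)|⁻¹ • x := ⟨_, rfl⟩
    have h4 : ∀ a, |la a| ≤ 1 := by
      intro a
      rw [hla, Pi.smul_apply, smul_eq_mul, abs_mul, abs_inv, abs_abs, ← div_eq_inv_mul,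
        div_le_one h3]
      exact ix_le x a
    have h5 : |la (ix x)| = 1 := by
      rw [hla, Pi.smul_apply, smul_eq_mul, abs_mul, abs_inv, abs_abs, inv_mul_cancel₀ h3.ne']
    refine ⟨la, fun _ => by rw [hla]; exact V.smul_mem _ hx, le_antisymm (h4 _) ?_, h4⟩
    rw [← h5]
    exact ix_le la _
  · refine ⟨fun _ => 1, fun h' => absurd h' h, by simp, fun a => by simp⟩

/-- **The stable direction.** At one of the `J` scales: `la i` is a function of the box `C i`, and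
the copies of the velocity at the box `C (i + u)` are good for it. -/
theorem stable (hp : IsLaw p) {S : ℕ} {D : Ω → Fin (m + 1) → ℤ} {C : ℕ → Ω → γ}
    (hC : ∀ i i', i ≤ i' → Det p (C i') (C i)) {K : ℝ} (hK : 1 ≤ K)
    (hB : ∀ i, i ≤ S → ∀ ω ω', 0 < p ω → 0 < p ω' → C i ω = C i ω' →
      ∀ a, |(D ω a : ℝ) - D ω' a| ≤ (K - 1) * 2 ^ (S - i))
    {r g s N : ℕ → ℕ} (hr : Monotone r) (h1 : ∀ j, r j ≤ g j) (h2 : ∀ j, r j ≤ s j)
    (h3 : ∀ j, Cst (m + 1) K ((2 : ℝ) ^ r j)⁻¹ ≤ 2 ^ s j)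
    (h4 : ∀ j, 4 * 2 ^ s j * 2 ^ r j ≤ (2 : ℝ) ^ g j)
    {ε δ : ℕ → ℝ} (hε : ∀ j, 0 < ε j) (hε1 : ∀ j, ε j ≤ 1) (hδ : ∀ j, 0 < δ j)
    {η : ℝ} (e1 : ∀ j, ε (j + 1) ≤ η * ε j) (e2 : ∀ j, ε (j + 1) ≤ η * δ j)
    (e3 : ∀ j, (N j + 1) * δ j ≤ η) (e4 : ∀ j, 2 ^ (m + 1) * (1 - ε j / 2) ^ (N j + 1) ≤ η)
    (e5 : ∀ j, ε (j + 1) ≤ η) {J : ℕ} (hJ : 0 < J) {L : ℕ} (hS : L + r J ≤ S) :
    ∃ j < J, ∃ (al : ℕ → γ → Prop) (la : ℕ → γ → Fin (m + 1) → ℝ) (ia : ℕ → γ → Fin (m + 1)),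
      (∀ i z, |la i z (ia i z)| = 1) ∧ (∀ i z a, |la i z a| ≤ 1) ∧
      (∀ i z, ¬ al i z → ∃ y : Fin (m + 1) → ℝ, Pb (cond p (C i) z) (fun ω =>
        ∃ a, 2 < |(Dg S D (i + r (j + 1)) ω a : ℝ) - y a|) ≤ ε (j + 1)) ∧
      ∀ u, u + g j ≤ r (j + 1) →
        ∑ i ∈ range L, Pb (tup p (C (i + u)) (N j + 1)) (fun w => al i (C i (w 0)) ∧
          ¬ Gd (g j) (s j) (4 * 2 ^ s j) (fun k => Dg S D (i + u + g j) (w k))
            (la i (C i (w 0)))) ≤
          (m + 1) * L / J + (m + 1) * u + (m + 6) * η * L := by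
  classical
  obtain ⟨j, hj, hpig⟩ := pig hp hC hr hε (fun j _ => e1 j) hJ hS
  have hr2 : r (j + 1) ≤ r J := hr hj
  choose v V hV using fun i => kk_wit p S D C i (r (j + 1)) (hε (j + 1)).le
  choose la hla1 hla2 hla3 using fun i z => unit_ex (V i z)
  refine ⟨j, hj, fun i z => 1 ≤ kk p S D C i (r (j + 1)) (ε (j + 1)) z, la,
    fun i z => ix (la i z), hla2, hla3, fun i z hz => ?_, fun u hu => ?_⟩
  · have hf : Module.finrank ℝ (V i z) = 0 := by
      have := (hV i z).1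
      omega
    refine ⟨v i z, le_trans (pb_mono (fun ω' => cond_nonneg hp.nonneg (C i) _ ω')
      fun ω _ h5 h6 => ?_) (hV i z).2⟩
    obtain ⟨a, ha⟩ := h5
    obtain ⟨y, hy, hy2⟩ := h6
    have hy0 : y = 0 := by
      have hb : V i z = ⊥ := Submodule.finrank_eq_zero.1 hf
      rw [hb] at hy
      exact (Submodule.mem_bot ℝ).1 hy
    have := hy2 a
    rw [hy0] at this
    simp only [Pi.zero_apply, sub_zero] at this
    linarith
  · have hbox : ∀ i ∈ range L, Pb (tup p (C (i + u)) (N j + 1)) (fun w =>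
        1 ≤ kk p S D C i (r (j + 1)) (ε (j + 1)) (C i (w 0)) ∧
          ¬ Gd (g j) (s j) (4 * 2 ^ s j) (fun k => Dg S D (i + u + g j) (w k))
            (la i (C i (w 0)))) ≤
        Pb p (fun ω => kk p S D C (i + u) (r j) (ε j) (C (i + u) ω) ≠
          kk p S D C i (r (j + 1)) (ε (j + 1)) (C i ω)) + 4 * η := by
      intro i hi
      have hi' := Finset.mem_range.1 hi
      have hb := gd_box hp (N := N j) hK (h1 j) (h2 j) (h3 j) (h4 j) hu (by omega)
        (hC i (i + u) (by omega)) (hB (i + u) (by omega)) (hδ j) (hε1 j) (hV i) (hla1 i) (hla3 i)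
      have q1 : ε (j + 1) / δ j ≤ η := by
        rw [div_le_iff₀ (hδ j)]
        exact e2 j
      linarith [e3 j, e4 j, e5 j]
    refine (Finset.sum_le_sum hbox).trans ?_
    rw [Finset.sum_add_distrib, Finset.sum_const, Finset.card_range, nsmul_eq_mul]
    have hp2 := hpig u ((Nat.add_le_add_left (h1 j) u).trans hu)
    refine (add_le_add hp2 le_rfl).trans (le_of_eq ?_)
    push_cast
    ring

/-- The parameters exist. -/
theorem par_ex (m Q M : ℕ) {K η : ℝ} (hη : 0 < η) (hη1 : η ≤ 1) :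
    ∃ (r g s N : ℕ → ℕ) (ε δ : ℕ → ℝ), Monotone r ∧ (∀ j, r j ≤ g j) ∧ (∀ j, r j ≤ s j) ∧
      (∀ j, Cst (m + 1) K ((2 : ℝ) ^ r j)⁻¹ ≤ 2 ^ s j) ∧
      (∀ j, 4 * 2 ^ s j * 2 ^ r j ≤ (2 : ℝ) ^ g j) ∧ (∀ j, 0 < ε j) ∧ (∀ j, ε j ≤ 1) ∧
      (∀ j, 0 < δ j) ∧ (∀ j, ε (j + 1) ≤ η * ε j) ∧ (∀ j, ε (j + 1) ≤ η * δ j) ∧
      (∀ j, (N j + 1) * δ j ≤ η) ∧ (∀ j, 2 ^ (m + 1) * (1 - ε j / 2) ^ (N j + 1) ≤ η) ∧
      (∀ j, ε (j + 1) ≤ η) ∧ (∀ j, Q * s j ≤ g j) ∧ ∀ j, M * g j ≤ r (j + 1) := by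
  classical
  -- the scales
  have hs : ∀ x : ℕ, ∃ s : ℕ, x ≤ s ∧ Cst (m + 1) K ((2 : ℝ) ^ x)⁻¹ ≤ 2 ^ s := by
    intro x
    obtain ⟨k, hk⟩ := pow_unbounded_of_one_lt (Cst (m + 1) K ((2 : ℝ) ^ x)⁻¹)
      (show (1 : ℝ) < 2 by norm_num)
    exact ⟨max x k, le_max_left _ _,
      hk.le.trans (pow_le_pow_right₀ (by norm_num) (le_max_right _ _))⟩
  choose sf hs1 hs2 using hs
  obtain ⟨gf, hgf⟩ : ∃ gf : ℕ → ℕ, gf = fun x => Q * sf x + (sf x + x + 2) := ⟨_, rfl⟩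
  obtain ⟨r, hr0⟩ : ∃ r : ℕ → ℕ, r = fun j => Nat.rec 0 (fun _ x => M * gf x + gf x) j := ⟨_, rfl⟩
  have hrs : ∀ j, r (j + 1) = M * gf (r j) + gf (r j) := fun j => by rw [hr0]
  have hgx : ∀ x, gf x = Q * sf x + (sf x + x + 2) := fun x => by rw [hgf]
  -- the probabilities
  have hN : ∀ e : ℝ, ∃ N : ℕ, 0 < e → e ≤ 1 → 2 ^ (m + 1) * (1 - e / 2) ^ (N + 1) ≤ η := by
    intro e
    by_cases he : 0 < e ∧ e ≤ 1
    · obtain ⟨k, hk⟩ := exists_pow_lt_of_lt_one (show 0 < η / 2 ^ (m + 1) by positivity)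
        (show 1 - e / 2 < 1 by linarith [he.1])
      refine ⟨k, fun _ _ => ?_⟩
      have h0 : 0 ≤ 1 - e / 2 := by linarith [he.2]
      have h1 : (1 - e / 2) ^ (k + 1) ≤ (1 - e / 2) ^ k :=
        pow_le_pow_of_le_one h0 (by linarith [he.1]) (Nat.le_succ k)
      have h2 := h1.trans hk.le
      rw [le_div_iff₀ (by positivity)] at h2
      linarith
    · exact ⟨0, fun h1 h2 => absurd ⟨h1, h2⟩ he⟩
  choose Nf hNf using hN
  obtain ⟨ef, hef⟩ : ∃ ef : ℝ → ℝ, ef = fun e => η * min e (η / (Nf e + 1)) := ⟨_, rfl⟩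
  obtain ⟨ε, hε0⟩ : ∃ ε : ℕ → ℝ, ε = fun j => Nat.rec 1 (fun _ x => ef x) j := ⟨_, rfl⟩
  have hεs : ∀ j, ε (j + 1) = η * min (ε j) (η / (Nf (ε j) + 1)) := fun j => by
    rw [hε0]
    simp only [hef]
  have hεz : ε 0 = 1 := by
    rw [hε0]
    rfl
  have hεp : ∀ j, 0 < ε j ∧ ε j ≤ 1 := by
    intro j
    induction j with
    | zero => rw [hεz]; norm_num
    | succ j ih =>
      rw [hεs]
      refine ⟨mul_pos hη (lt_min ih.1 (by positivity)), ?_⟩
      calc η * min (ε j) (η / (Nf (ε j) + 1)) ≤ 1 * 1 :=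
            mul_le_mul hη1 ((min_le_left _ _).trans ih.2) (le_min ih.1.le (by positivity))
              (by norm_num)
        _ = 1 := one_mul 1
  refine ⟨r, fun j => gf (r j), fun j => sf (r j), fun j => Nf (ε j), ε,
    fun j => η / (Nf (ε j) + 1), monotone_nat_of_le_succ fun j => ?_, fun j => ?_, fun j => hs1 _,
    fun j => hs2 _, fun j => ?_, fun j => (hεp j).1, fun j => (hεp j).2, fun j => by positivity,
    fun j => ?_, fun j => ?_, fun j => ?_, fun j => hNf _ (hεp j).1 (hεp j).2, fun j => ?_,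
    fun j => ?_, fun j => ?_⟩
  · rw [hrs, hgx]
    nlinarith [Nat.zero_le (M * (Q * sf (r j) + (sf (r j) + r j + 2))), Nat.zero_le (Q * sf (r j))]
  · beta_reduce
    rw [hgx]
    nlinarith [Nat.zero_le (Q * sf (r j))]
  · beta_reduce
    have e6 : (4 : ℝ) * 2 ^ sf (r j) * 2 ^ r j = 2 ^ (sf (r j) + r j + 2) := by
      rw [pow_add, pow_add]
      ring
    rw [e6]
    refine pow_le_pow_right₀ (by norm_num) ?_
    rw [hgx]
    exact Nat.le_add_left _ _
  · rw [hεs]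
    exact mul_le_mul_of_nonneg_left (min_le_left _ _) hη.le
  · rw [hεs]
    exact mul_le_mul_of_nonneg_left (min_le_right _ _) hη.le
  · beta_reduce
    rw [mul_div_cancel₀]
    positivity
  · rw [hεs]
    calc η * min (ε j) (η / (Nf (ε j) + 1)) ≤ η * 1 :=
          mul_le_mul_of_nonneg_left ((min_le_left _ _).trans (hεp j).2) hη.le
      _ = η := mul_one η
  · beta_reduce
    rw [hgx]
    exact Nat.le_add_right _ _
  · beta_reduce
    rw [hrs]
    exact Nat.le_add_right _ _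

end main

end Pool.TT37
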